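import Pool.Agent.H1.BR.Lde

/-
ROW Cpt.  Compactness and existence of longest polygons.  (0 < p is not needed; p <= q so that polygons exist.)
shift lemmas: Poly x -> Poly (x (. + k)), Poly (x + c) (all c real; the same gaps); peri is invariant under k-shift (periodic sum: len (x (i+q)) (x (i+1+q)) = len (x i + pL) (x (i+1) + pL) = len (x i) (x (i+1))),
 and under translation by L.
pin_exists: K = { x : N -> R | Poly x, x 0 = xi } is a closed subset of the product of the compact intervals [xi, xi + i L] (isCompact_univ_pi), nonempty (x i = xi + i p L / q, q > 0, p <= q), peri continuous.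
pin_limit: x n in the compact product of [c, c + (i+1) L'] ...: first extract a convergent subsequence (compact metrizable product; IsCompact.tendsto_subseq, the functions N -> R form a first countable space), the limit x is Poly with x 0 = xi;
  if y is Poly with y 0 = xi then y + (xi_n - xi) is Poly with first vertex xi_n: peri (y + (xi_n - xi)) <= peri (x n); let n -> infinity (len continuous).
longest_exists: the pinned x^xi for xi in [0, L], take a maximising sequence of xi and a limit (or compactness of { Poly, x 0 in [0,L] }); every polygon can be translated by a multiple of L to have x 0 in [0,L].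
longest_limit: as pin_limit.
-/

set_option autoImplicit false
open Set Filter Topology Pool.Agent.H46.BL

namespace Pool.Agent.H1.BR

variable {T : Table} {p q : ℕ}

private theorem Cpt_gam (T : Table) (s : ℝ) (m : ℤ) : T.γ (s + m * T.L) = T.γ s := by
  have h : Function.Periodic T.γ T.L := T.periodic
  exact h.int_mul m s

private theorem Cpt_len (T : Table) (s t : ℝ) (m : ℤ) :
    len T (s + m * T.L) (t + m * T.L) = len T s t := by
  unfold len
  rw [Cpt_gam, Cpt_gam]

theorem poly_shift {x : ℕ → ℝ} (h : Poly T p q x) (k : ℕ) : Poly T p q (fun i => x (i + k)) := by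
  refine ⟨fun i => ?_, fun i => ?_, fun i => ?_⟩
  · show x (i + k) ≤ x (i + 1 + k)
    rw [Nat.add_right_comm i 1 k]
    exact h.lo (i + k)
  · show x (i + 1 + k) ≤ x (i + k) + T.L
    rw [Nat.add_right_comm i 1 k]
    exact h.hi (i + k)
  · show x (i + q + k) = x (i + k) + p * T.L
    rw [Nat.add_right_comm i q k]
    exact h.per (i + k)

theorem poly_add {x : ℕ → ℝ} (h : Poly T p q x) (c : ℝ) : Poly T p q (fun i => x i + c) := by
  refine ⟨fun i => ?_, fun i => ?_, fun i => ?_⟩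
  · show x i + c ≤ x (i + 1) + c
    have := h.lo i
    linarith
  · show x (i + 1) + c ≤ x i + c + T.L
    have := h.hi i
    linarith
  · show x (i + q) + c = x i + c + p * T.L
    rw [h.per i]
    ring

private theorem Cpt_sum (q : ℕ) (a : ℕ → ℝ) (ha : ∀ i, a (i + q) = a i) (k : ℕ) :
    ∑ i ∈ Finset.range q, a (i + k) = ∑ i ∈ Finset.range q, a i := by
  induction k with
  | zero => rfl
  | succ k ih =>
    rw [← ih]
    have h1 := Finset.sum_range_succ (fun i => a (i + k)) q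
    have h2 := Finset.sum_range_succ' (fun i => a (i + k)) q
    rw [h1] at h2
    have h3 : a (q + k) = a (0 + k) := by
      rw [Nat.add_comm q k, ha k, Nat.zero_add]
    rw [h3] at h2
    have h4 : ∀ i, a (i + (k + 1)) = a (i + 1 + k) := by
      intro i
      congr 1
      omega
    rw [Finset.sum_congr rfl fun i _ => h4 i]
    linarith

theorem peri_shift {x : ℕ → ℝ} (h : Poly T p q x) (k : ℕ) : peri T q (fun i => x (i + k)) = peri T q x := by
  have ha : ∀ i, len T (x (i + q)) (x (i + q + 1)) = len T (x i) (x (i + 1)) := by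
    intro i
    have h1 := h.per i
    have h2 := h.per (i + 1)
    rw [Nat.add_right_comm i q 1, h1, h2]
    have h3 := Cpt_len T (x i) (x (i + 1)) (p : ℤ)
    rw [Int.cast_natCast] at h3
    exact h3
  have h4 := Cpt_sum q (fun i => len T (x i) (x (i + 1))) ha k
  unfold peri
  rw [← h4]
  refine Finset.sum_congr rfl fun i _ => ?_
  show len T (x (i + k)) (x (i + 1 + k)) = len T (x (i + k)) (x (i + k + 1))
  rw [Nat.add_right_comm i 1 k]

theorem peri_addL (x : ℕ → ℝ) (m : ℤ) : peri T q (fun i => x i + m * T.L) = peri T q x := by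
  unfold peri
  exact Finset.sum_congr rfl fun i _ => Cpt_len T (x i) (x (i + 1)) m

theorem longest_shift {x : ℕ → ℝ} (h : Longest T p q x) (k : ℕ) : Longest T p q (fun i => x (i + k)) := by
  refine ⟨poly_shift h.1 k, fun y hy => ?_⟩
  rw [peri_shift h.1 k]
  exact h.2 y hy

theorem longest_addL {x : ℕ → ℝ} (h : Longest T p q x) (m : ℤ) : Longest T p q (fun i => x i + m * T.L) := by
  refine ⟨poly_add h.1 _, fun y hy => ?_⟩
  rw [peri_addL]
  exact h.2 y hy

private theorem Cpt_closed : IsClosed {x : ℕ → ℝ | Poly T p q x} := by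
  have e : {x : ℕ → ℝ | Poly T p q x} = (⋂ i : ℕ, {x : ℕ → ℝ | x i ≤ x (i + 1)}) ∩
      ((⋂ i : ℕ, {x : ℕ → ℝ | x (i + 1) ≤ x i + T.L}) ∩
        (⋂ i : ℕ, {x : ℕ → ℝ | x (i + q) = x i + p * T.L})) := by
    ext x
    simp only [mem_ofPred_eq, mem_inter_iff, mem_iInter]
    exact ⟨fun h => ⟨h.lo, h.hi, h.per⟩, fun h => ⟨h.1, h.2.1, h.2.2⟩⟩
  rw [e]
  refine (isClosed_iInter fun i => ?_).inter
    ((isClosed_iInter fun i => ?_).inter (isClosed_iInter fun i => ?_))
  · exact isClosed_le (continuous_apply i) (continuous_apply (i + 1))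
  · exact isClosed_le (continuous_apply (i + 1)) ((continuous_apply i).add continuous_const)
  · exact isClosed_eq (continuous_apply (i + q)) ((continuous_apply i).add continuous_const)

private theorem Cpt_compact (T : Table) (p q : ℕ) (c d : ℝ) :
    IsCompact {x : ℕ → ℝ | Poly T p q x ∧ x 0 ∈ Icc c d} := by
  have h1 : IsCompact (Set.pi univ fun i : ℕ => Icc c (d + i * T.L)) :=
    isCompact_univ_pi fun i => isCompact_Icc
  have h2 : IsClosed {x : ℕ → ℝ | Poly T p q x ∧ x 0 ∈ Icc c d} :=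
    Cpt_closed.inter (isClosed_Icc.preimage (continuous_apply 0))
  refine h1.of_isClosed_subset h2 ?_
  rintro x ⟨hP, h0⟩ i _
  constructor
  · induction i with
    | zero => exact h0.1
    | succ i ih => exact (ih (mem_univ _)).trans (hP.lo i)
  · induction i with
    | zero =>
      have := h0.2
      simpa using this
    | succ i ih =>
      have h3 := ih (mem_univ _)
      have h4 := hP.hi i
      push_cast
      linarith

private theorem Cpt_cont (T : Table) (q : ℕ) : Continuous fun x : ℕ → ℝ => peri T q x := by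
  unfold peri
  refine continuous_finsetSum _ fun i _ => ?_
  have h1 : Continuous fun x : ℕ → ℝ => ((x i, x (i + 1)) : ℝ × ℝ) :=
    (continuous_apply i).prodMk (continuous_apply (i + 1))
  have h2 : Continuous (fun z : ℝ × ℝ => len T z.1 z.2) := len_cont
  exact h2.comp h1

private theorem Cpt_ex (T : Table) {p q : ℕ} (hq : 0 < q) (hpq : p ≤ q) (ξ : ℝ) :
    Poly T p q (fun i => ξ + i * (p * T.L / q)) := by
  have hL := T.Lpos
  have hq' : (0 : ℝ) < q := by exact_mod_cast hq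
  have hpq' : (p : ℝ) ≤ q := by exact_mod_cast hpq
  have h0 : 0 ≤ p * T.L / q := by positivity
  have h1 : p * T.L / q ≤ T.L := by
    rw [div_le_iff₀ hq', mul_comm]
    exact mul_le_mul_of_nonneg_left hpq' hL.le
  refine ⟨fun i => ?_, fun i => ?_, fun i => ?_⟩
  · push_cast
    linarith
  · push_cast
    linarith
  · push_cast
    have : (q : ℝ) * (p * T.L / q) = p * T.L := by field_simp
    linarith

theorem pin_exists (hq : 0 < q) (hpq : p ≤ q) (ξ : ℝ) : ∃ x, Pinned T p q ξ x := by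
  obtain ⟨x, ⟨hx1, hx2⟩, hx3⟩ := (Cpt_compact T p q ξ ξ).exists_isMaxOn
    ⟨_, Cpt_ex T hq hpq ξ, by simp⟩ (Cpt_cont T q).continuousOn
  have h0 : x 0 = ξ := le_antisymm hx2.2 hx2.1
  exact ⟨x, hx1, h0, fun y hy hy0 => hx3 ⟨hy, by rw [hy0]; exact ⟨le_rfl, le_rfl⟩⟩⟩

theorem longest_exists (hq : 0 < q) (hpq : p ≤ q) : ∃ x, Longest T p q x := by
  have hL := T.Lpos
  obtain ⟨x, ⟨hx1, hx2⟩, hx3⟩ := (Cpt_compact T p q 0 T.L).exists_isMaxOn
    ⟨_, Cpt_ex T hq hpq 0, by simpa using hL.le⟩ (Cpt_cont T q).continuousOn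
  refine ⟨x, hx1, fun y hy => ?_⟩
  have h1 := hx3 (a := fun i => y i + (-⌊y 0 / T.L⌋ : ℤ) * T.L) ⟨poly_add hy _, ?_⟩
  · have h2 : peri T q (fun i => y i + (-⌊y 0 / T.L⌋ : ℤ) * T.L) ≤ peri T q x := h1
    rw [peri_addL] at h2
    exact h2
  · show y 0 + (-⌊y 0 / T.L⌋ : ℤ) * T.L ∈ Icc 0 T.L
    have h3 := Int.floor_le (y 0 / T.L)
    have h4 := Int.lt_floor_add_one (y 0 / T.L)
    rw [le_div_iff₀ hL] at h3
    rw [div_lt_iff₀ hL] at h4
    push_cast
    constructor
    · linarith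
    · linarith

private theorem Cpt_seq {ξ : ℕ → ℝ} {ξ₀ : ℝ} (hξ : Tendsto ξ atTop (𝓝 ξ₀)) {x : ℕ → ℕ → ℝ}
    (hx : ∀ n, Poly T p q (x n) ∧ x n 0 = ξ n) :
    ∃ (k : ℕ → ℕ) (x₀ : ℕ → ℝ), StrictMono k ∧ Poly T p q x₀ ∧ x₀ 0 = ξ₀ ∧
      Tendsto (fun n => x (k n)) atTop (𝓝 x₀) := by
  obtain ⟨d, hd⟩ := hξ.bddAbove_range
  obtain ⟨c, hc⟩ := hξ.bddBelow_range
  obtain ⟨x₀, ⟨hx1, hx2⟩, k, hk, hlim⟩ := (Cpt_compact T p q c d).tendsto_subseq (x := x) (by
    intro n
    refine ⟨(hx n).1, ?_⟩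
    rw [(hx n).2]
    exact ⟨hc (mem_range_self n), hd (mem_range_self n)⟩)
  refine ⟨k, x₀, hk, hx1, ?_, hlim⟩
  have h1 : Tendsto (fun n => x (k n) 0) atTop (𝓝 (x₀ 0)) :=
    (tendsto_pi_nhds.1 hlim) 0
  have h2 : Tendsto (fun n => x (k n) 0) atTop (𝓝 ξ₀) := by
    have h3 : (fun n => x (k n) 0) = fun n => ξ (k n) := by
      funext n
      exact (hx (k n)).2
    rw [h3]
    exact hξ.comp hk.tendsto_atTop
  exact tendsto_nhds_unique h1 h2

theorem pin_limit (hq : 0 < q) {ξ : ℕ → ℝ} {ξ₀ : ℝ} (hξ : Tendsto ξ atTop (𝓝 ξ₀)) {x : ℕ → ℕ → ℝ}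
    (hx : ∀ n, Pinned T p q (ξ n) (x n)) :
    ∃ (k : ℕ → ℕ) (x₀ : ℕ → ℝ), StrictMono k ∧ Pinned T p q ξ₀ x₀ ∧
      ∀ i, Tendsto (fun n => x (k n) i) atTop (𝓝 (x₀ i)) := by
  obtain ⟨k, x₀, hk, hP, h0, hlim⟩ := Cpt_seq hξ fun n => ⟨(hx n).1, (hx n).2.1⟩
  refine ⟨k, x₀, hk, ⟨hP, h0, fun y hy hy0 => ?_⟩, tendsto_pi_nhds.1 hlim⟩
  have h1 : Tendsto (fun n => peri T q (x (k n))) atTop (𝓝 (peri T q x₀)) :=
    ((Cpt_cont T q).tendsto x₀).comp hlim
  have h2 : Tendsto (fun n => (fun i => y i + (ξ (k n) - ξ₀) : ℕ → ℝ)) atTop (𝓝 y) := by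
    rw [tendsto_pi_nhds]
    intro i
    have h3 : Tendsto (fun n => y i + (ξ (k n) - ξ₀)) atTop (𝓝 (y i + (ξ₀ - ξ₀))) :=
      tendsto_const_nhds.add ((hξ.comp hk.tendsto_atTop).sub tendsto_const_nhds)
    rw [sub_self, add_zero] at h3
    exact h3
  have h4 : Tendsto (fun n => peri T q (fun i => y i + (ξ (k n) - ξ₀))) atTop (𝓝 (peri T q y)) :=
    ((Cpt_cont T q).tendsto y).comp h2
  refine le_of_tendsto_of_tendsto' h4 h1 fun n => ?_
  refine (hx (k n)).2.2 _ (poly_add hy _) ?_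
  show y 0 + (ξ (k n) - ξ₀) = ξ (k n)
  rw [hy0]
  ring

theorem longest_limit (hq : 0 < q) {ξ₀ : ℝ} {x : ℕ → ℕ → ℝ}
    (hx : ∀ n, Longest T p q (x n)) (hξ : Tendsto (fun n => x n 0) atTop (𝓝 ξ₀)) :
    ∃ x₀ : ℕ → ℝ, Longest T p q x₀ ∧ x₀ 0 = ξ₀ := by
  obtain ⟨k, x₀, hk, hP, h0, hlim⟩ := Cpt_seq hξ fun n => ⟨(hx n).1, rfl⟩
  refine ⟨x₀, ⟨hP, fun y hy => ?_⟩, h0⟩
  have h1 : Tendsto (fun n => peri T q (x (k n))) atTop (𝓝 (peri T q x₀)) :=
    ((Cpt_cont T q).tendsto x₀).comp hlim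
  exact ge_of_tendsto' h1 fun n => (hx (k n)).2 y hy

end Pool.Agent.H1.BR
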