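import Pool.Agent.H1.BR.Nde

/-
ROW Cro.  Aubry's crossing lemma for longest polygons (0<p<q).
u = min(x,y), v = max(x,y) pointwise are Poly; peri u + peri v >= peri x + peri y (termwise sup_le: if x i <= y i and x (i+1) > y (i+1) then len(x i, y(i+1)) + len(y i, x(i+1)) >= len(x i,x(i+1)) + len(y i, y(i+1)), with
 x i <= y i <= y(i+1) < x(i+1) <= x i + L); so u and v are Longest, and equality holds in every term.  By sup_lt (nde: chords of x,y are Tw) there is no i with x i < y i and x(i+1) > y(i+1), nor with the roles exchanged.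
 Touching: if x (i+1) = y (i+1) for some i then x i = y i and x (i+2) = y (i+2): say x (i+2) < y (i+2) (Tw chords): l1_lt: l1 (x(i+1)) (x (i+2)) < l1 (y(i+1)) (y(i+2)), so by el l2 (x i) (x (i+1)) > l2 (y i) (y (i+1)), so x i > y i (l2_lt contrapositive, both Tw).
   Now v = max: v i = x i, v (i+1) = x(i+1), v(i+2) = y(i+2); el for v (nde): l2 (x i) (x(i+1)) + l1 (y (i+1)) (y (i+2)) = 0, but l2 (x i)(x (i+1)) = - l1 (x (i+1)) (x (i+2)) > - l1 (y(i+1)) (y(i+2)). Contradiction. If x (i+2) = y(i+2) then l2 equal, x i = y i.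
 So touching at one index >= 1 propagates to all indices; index 0 is index q (x q = x 0 + pL).
 cross_eq: x 0 = y 0 -> x = y.   cross_lt: x 0 < y 0 -> for all i x i < y i: no touching (else x 0 = y 0) and no crossing, induction.
-/

set_option autoImplicit false
open Set Filter Topology Pool.Agent.H46.BL

namespace Pool.Agent.H1.BR

variable {T : Table} {p q : ℕ}

private theorem Cro_min {x y : ℕ → ℝ} (hx : Poly T p q x) (hy : Poly T p q y) :
    Poly T p q (fun i => min (x i) (y i)) where
  lo := fun i => min_le_min (hx.lo i) (hy.lo i)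
  hi := fun i => by
    show min (x (i + 1)) (y (i + 1)) ≤ min (x i) (y i) + T.L
    rw [← min_add_add_right]
    exact min_le_min (hx.hi i) (hy.hi i)
  per := fun i => by
    show min (x (i + q)) (y (i + q)) = min (x i) (y i) + p * T.L
    rw [← min_add_add_right, hx.per, hy.per]

private theorem Cro_max {x y : ℕ → ℝ} (hx : Poly T p q x) (hy : Poly T p q y) :
    Poly T p q (fun i => max (x i) (y i)) where
  lo := fun i => max_le_max (hx.lo i) (hy.lo i)
  hi := fun i => by
    show max (x (i + 1)) (y (i + 1)) ≤ max (x i) (y i) + T.L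
    rw [← max_add_add_right]
    exact max_le_max (hx.hi i) (hy.hi i)
  per := fun i => by
    show max (x (i + q)) (y (i + q)) = max (x i) (y i) + p * T.L
    rw [← max_add_add_right, hx.per, hy.per]

private theorem Cro_le' {a b c d : ℝ} (h2 : b ≤ a + T.L) (h3 : c ≤ d) (hac : a ≤ c) :
    len T a b + len T c d ≤ len T (min a c) (min b d) + len T (max a c) (max b d) := by
  rw [min_eq_left hac, max_eq_right hac]
  rcases le_total b d with h | h
  · rw [min_eq_left h, max_eq_right h]
  · rw [min_eq_right h, max_eq_left h]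
    exact sup_le hac h3 h h2

private theorem Cro_le {a b c d : ℝ} (h1 : a ≤ b) (h2 : b ≤ a + T.L) (h3 : c ≤ d) (h4 : d ≤ c + T.L) :
    len T a b + len T c d ≤ len T (min a c) (min b d) + len T (max a c) (max b d) := by
  rcases le_total a c with h | h
  · exact Cro_le' h2 h3 h
  · have h5 := Cro_le' (T := T) h4 h1 h
    rw [min_comm c a, min_comm d b, max_comm c a, max_comm d b] at h5
    linarith

private theorem Cro_lt {a b c d : ℝ} (hac : a < c) (hdb : d < b) (h : Tw T a b) (h' : Tw T c d) :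
    len T a b + len T c d < len T (min a c) (min b d) + len T (max a c) (max b d) := by
  rw [min_eq_left hac.le, max_eq_right hac.le, min_eq_right hdb.le, max_eq_left hdb.le]
  exact sup_lt hac hdb h' h

private theorem Cro_term {x y : ℕ → ℝ} (hx : Poly T p q x) (hy : Poly T p q y) (i : ℕ) :
    len T (x i) (x (i + 1)) + len T (y i) (y (i + 1)) ≤
      len T (min (x i) (y i)) (min (x (i + 1)) (y (i + 1))) +
        len T (max (x i) (y i)) (max (x (i + 1)) (y (i + 1))) :=
  Cro_le (hx.lo i) (hx.hi i) (hy.lo i) (hy.hi i)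

private theorem Cro_sum {x y : ℕ → ℝ} (hx : Poly T p q x) (hy : Poly T p q y) :
    peri T q x + peri T q y ≤ peri T q (fun i => min (x i) (y i)) + peri T q (fun i => max (x i) (y i)) := by
  unfold peri
  rw [← Finset.sum_add_distrib, ← Finset.sum_add_distrib]
  exact Finset.sum_le_sum fun i _ => Cro_term hx hy i

private theorem Cro_longest {x y : ℕ → ℝ} (hx : Longest T p q x) (hy : Longest T p q y) :
    Longest T p q (fun i => max (x i) (y i)) := by
  refine ⟨Cro_max hx.1 hy.1, fun z hz => ?_⟩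
  have h1 := Cro_sum hx.1 hy.1
  have h2 := hx.2 _ (Cro_min hx.1 hy.1)
  have h3 := hy.2 z hz
  linarith

private theorem Cro_dper {x y : ℕ → ℝ} (hx : Poly T p q x) (hy : Poly T p q y) :
    Function.Periodic (fun i => x i - y i) q := by
  intro i
  show x (i + q) - y (i + q) = x i - y i
  rw [hx.per, hy.per]
  ring

private theorem Cro_cross (hp : 0 < p) (hpq : p < q) {x y : ℕ → ℝ} (hx : Longest T p q x) (hy : Longest T p q y)
    (i : ℕ) : ¬ (x i < y i ∧ y (i + 1) < x (i + 1)) := by
  rintro ⟨h1, h2⟩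
  have hd := Cro_dper hx.1 hy.1
  have hq : 0 < q := by omega
  set j := i % q with hj
  have hjq : j < q := Nat.mod_lt _ hq
  have e1 : x j - y j = x i - y i := hd.map_mod_nat i
  have e2 : x (j + 1) - y (j + 1) = x (i + 1) - y (i + 1) := by
    have e3 : i + 1 = j + 1 + (i / q) * q := by
      have := Nat.mod_add_div i q
      rw [← hj, Nat.mul_comm] at this
      omega
    have e4 := hd.nat_mul (i / q) (j + 1)
    have e5 : x (j + 1 + (i / q) * q) - y (j + 1 + (i / q) * q) = x (j + 1) - y (j + 1) := e4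
    rw [e3]
    exact e5.symm
  have h3 : x j < y j := by linarith
  have h4 : y (j + 1) < x (j + 1) := by linarith
  have h5 : peri T q x + peri T q y < peri T q (fun i => min (x i) (y i)) + peri T q (fun i => max (x i) (y i)) := by
    unfold peri
    rw [← Finset.sum_add_distrib, ← Finset.sum_add_distrib]
    refine Finset.sum_lt_sum (fun i _ => Cro_term hx.1 hy.1 i) ⟨j, Finset.mem_range.2 hjq, ?_⟩
    exact Cro_lt h3 h4 ((nde hp hpq hx).1 j) ((nde hp hpq hy).1 j)
  have h6 := hx.2 _ (Cro_min hx.1 hy.1)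
  have h7 := hy.2 _ (Cro_max hx.1 hy.1)
  linarith

/-- touching from above is impossible -/
private theorem Cro_t1 (hp : 0 < p) (hpq : p < q) {x y : ℕ → ℝ} (hx : Longest T p q x) (hy : Longest T p q y)
    (i : ℕ) (h : x (i + 1) = y (i + 1)) : ¬ x (i + 2) < y (i + 2) := by
  intro hlt
  obtain ⟨tx, ex⟩ := nde hp hpq hx
  obtain ⟨ty, ey⟩ := nde hp hpq hy
  obtain ⟨_, ev⟩ := nde hp hpq (Cro_longest hx hy)
  have t1 : Tw T (x (i + 1)) (x (i + 2)) := tx (i + 1)
  have t2 : Tw T (x (i + 1)) (y (i + 2)) := by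
    rw [h]
    exact ty (i + 1)
  have t3 : Tw T (x i) (x (i + 1)) := tx i
  have t4 : Tw T (y i) (x (i + 1)) := by
    rw [h]
    exact ty i
  have h1 := l1_lt hlt t1 t2
  have h2 := ex i
  have h3 := ey i
  rw [← h] at h3
  have h4 : y i < x i := by
    by_contra hc
    rcases (not_lt.1 hc).lt_or_eq with h5 | h5
    · have h6 := l2_lt h5 t3 t4
      linarith
    · rw [h5] at h2
      linarith
  have h5 := ev i
  have h6 : l2 T (max (x i) (y i)) (max (x (i + 1)) (y (i + 1))) +
      l1 T (max (x (i + 1)) (y (i + 1))) (max (x (i + 2)) (y (i + 2))) = 0 := h5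
  rw [← h, max_self, max_eq_left h4.le, max_eq_right hlt.le] at h6
  linarith

private theorem Cro_t2 (hp : 0 < p) (hpq : p < q) {x y : ℕ → ℝ} (hx : Longest T p q x) (hy : Longest T p q y)
    (i : ℕ) (h : x (i + 1) = y (i + 1)) : x i = y i ∧ x (i + 2) = y (i + 2) := by
  have h1 : x (i + 2) = y (i + 2) :=
    le_antisymm (not_lt.1 (Cro_t1 hp hpq hy hx i h.symm)) (not_lt.1 (Cro_t1 hp hpq hx hy i h))
  refine ⟨?_, h1⟩
  obtain ⟨tx, ex⟩ := nde hp hpq hx
  obtain ⟨ty, ey⟩ := nde hp hpq hy
  have h2 := ex i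
  have h3 := ey i
  rw [← h, ← h1] at h3
  have t3 : Tw T (x i) (x (i + 1)) := tx i
  have t4 : Tw T (y i) (x (i + 1)) := by
    rw [h]
    exact ty i
  rcases lt_trichotomy (x i) (y i) with h4 | h4 | h4
  · have := l2_lt h4 t3 t4
    linarith
  · exact h4
  · have := l2_lt h4 t4 t3
    linarith

theorem cross_eq (hp : 0 < p) (hpq : p < q) {x y : ℕ → ℝ} (hx : Longest T p q x) (hy : Longest T p q y)
    (h : x 0 = y 0) : x = y := by
  have hq : x q = y q := by
    have h1 := hx.1.per 0
    have h2 := hy.1.per 0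
    rw [Nat.zero_add] at h1 h2
    rw [h1, h2, h]
  have h1 : x 1 = y 1 := by
    obtain ⟨r, hr⟩ : ∃ r, q = r + 1 := ⟨q - 1, by omega⟩
    have h2 := (Cro_t2 hp hpq hx hy r (by rw [← hr]; exact hq)).2
    have h3 : x (1 + q) = y (1 + q) := by
      have e : 1 + q = r + 2 := by omega
      rw [e]
      exact h2
    rw [hx.1.per, hy.1.per] at h3
    linarith
  have h2 : ∀ i, x i = y i ∧ x (i + 1) = y (i + 1) := by
    intro i
    induction i with
    | zero => exact ⟨h, h1⟩
    | succ i ih => exact ⟨ih.2, (Cro_t2 hp hpq hx hy i ih.2).2⟩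
  funext i
  exact (h2 i).1

theorem cross_lt (hp : 0 < p) (hpq : p < q) {x y : ℕ → ℝ} (hx : Longest T p q x) (hy : Longest T p q y)
    (h : x 0 < y 0) (i : ℕ) : x i < y i := by
  induction i with
  | zero => exact h
  | succ i ih =>
    rcases lt_trichotomy (x (i + 1)) (y (i + 1)) with h4 | h4 | h4
    · exact h4
    · exact absurd (Cro_t2 hp hpq hx hy i h4).1 ih.ne
    · exact absurd ⟨ih, h4⟩ (Cro_cross hp hpq hx hy i)

end Pool.Agent.H1.BR
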