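import Pool.Agent.H46.BL.Bas

/-
MP_85545d : regular first integrals and the longest inscribed polygons.  Definitions.
-/

set_option autoImplicit false

namespace Pool.Agent.H1.BR

open Set Pool.Agent.H46.BL

noncomputable section

/-- the length of the chord from `γ x` to `γ y` -/
def len (T : Table) (x y : ℝ) : ℝ := ‖T.γ y - T.γ x‖

/-- An inscribed closed polygon with `q` vertices `γ (x 0), …, γ (x (q-1))` that winds `p` times. -/
structure Poly (T : Table) (p q : ℕ) (x : ℕ → ℝ) : Prop where
  lo : ∀ i, x i ≤ x (i + 1)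
  hi : ∀ i, x (i + 1) ≤ x i + T.L
  per : ∀ i, x (i + q) = x i + p * T.L

/-- the perimeter of the polygon -/
def peri (T : Table) (q : ℕ) (x : ℕ → ℝ) : ℝ := ∑ i ∈ Finset.range q, len T (x i) (x (i + 1))

/-- a longest inscribed polygon with `q` vertices that winds `p` times -/
def Longest (T : Table) (p q : ℕ) (x : ℕ → ℝ) : Prop :=
  Poly T p q x ∧ ∀ y, Poly T p q y → peri T q y ≤ peri T q x

/-- a longest one among those with the first vertex at `γ ξ` -/
def Pinned (T : Table) (p q : ℕ) (ξ : ℝ) (x : ℕ → ℝ) : Prop :=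
  Poly T p q x ∧ x 0 = ξ ∧ ∀ y, Poly T p q y → y 0 = ξ → peri T q y ≤ peri T q x

/-- length times the sine of the angle between the tangent at `x` and the chord -/
def hx (T : Table) (x y : ℝ) : ℝ := ((T.γ y - T.γ x) * ex (-(T.τ x))).im
/-- length times the sine of the angle between the chord and the tangent at `y` -/
def hy (T : Table) (x y : ℝ) : ℝ := -((T.γ y - T.γ x) * ex (-(T.τ y))).im

/-- the partial derivatives of the length -/
def l1 (T : Table) (x y : ℝ) : ℝ := -((T.γ y - T.γ x) * ex (-(T.τ x))).re / len T x y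
def l2 (T : Table) (x y : ℝ) : ℝ := ((T.γ y - T.γ x) * ex (-(T.τ y))).re / len T x y
def l12 (T : Table) (x y : ℝ) : ℝ := hx T x y * hy T x y / len T x y ^ 3
def l11 (T : Table) (x y : ℝ) : ℝ := hx T x y ^ 2 / len T x y ^ 3 - deriv T.τ x * hx T x y / len T x y
def l22 (T : Table) (x y : ℝ) : ℝ := hy T x y ^ 2 / len T x y ^ 3 - deriv T.τ y * hy T x y / len T x y

/-- the chord is not contained in the boundary -/
def Tw (T : Table) (x y : ℝ) : Prop := T.τ x < T.τ y ∧ T.τ y < T.τ x + 2 * Real.pi

/-- the unit vector along the chord -/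
def uc (T : Table) (x y : ℝ) : ℂ := (T.γ y - T.γ x) / (len T x y : ℂ)

/-- the first integral as a function of the chord -/
def Fh (T : Table) (F : ℂ → ℂ → ℝ) (x y : ℝ) : ℝ := F (T.γ x) (uc T x y)

/-- its partial derivatives -/
def F1 (T : Table) (F : ℂ → ℂ → ℝ) (x y : ℝ) : ℝ := deriv (fun x => Fh T F x y) x
def F2 (T : Table) (F : ℂ → ℂ → ℝ) (x y : ℝ) : ℝ := deriv (fun y => Fh T F x y) y

/-- the state of a particle that has moved along the fraction `t` of the chord from `γ x` to `γ y`, with unit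
speed -/
def stt (T : Table) (x y t : ℝ) : ℂ × ℂ := (T.γ x + (t : ℂ) * (T.γ y - T.γ x), uc T x y)

/-- the differentials of the first integral and of the Hamiltonian `|p|^2/2` at a state are linearly
independent -/
def Regular (F : ℂ → ℂ → ℝ) (z : ℂ × ℂ) : Prop :=
  LinearIndependent ℝ ![fderiv ℝ (fun w : ℂ × ℂ => F w.1 w.2) z, fderiv ℝ (fun w : ℂ × ℂ => ‖w.2‖ ^ 2 / 2) z]

/-- an invariant circle of the billiard map, in the boundary parameter: `φ s` is the next bounce -/
structure Circ (T : Table) (φ : ℝ → ℝ) : Prop where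
  cont : Continuous φ
  mono : StrictMono φ
  per : ∀ s, φ (s + T.L) = φ s + T.L
  tw : ∀ s, Tw T s (φ s)
  el : ∀ s, l2 T s (φ s) + l1 T (φ s) (φ (φ s)) = 0

end

end Pool.Agent.H1.BR
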