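import Pool.Agent.H1.BR.Geo
import Pool.Agent.H50.BQ.Defs

/-
ROW Eli.  The classical first integral of an elliptic table.
w = (q - o) ex(-phi), v = p ex(-phi);  Fe = (w x v)^2 - (a^2 - b^2) v.im^2, w x v = w.re v.im - w.im v.re.
smooth: polynomial in the coordinates.  flow: (q + t p - o) ex(-phi) = w + t v, and (w + t v) x v = w x v.
refl: q = g s on the frontier, so w.re^2/a^2 + w.im^2/b^2 = 1 for all s (hE, T.bdry); differentiate in s: with t = ex(tau s - phi): w.re t.re/a^2 + w.im t.im/b^2 = 0.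
  p' = ex(2 tau) conj p, v' = p' ex(-phi) = t^2 conj v (t^2 = ex (2 (tau - phi)), conj v = conj p * ex(phi)).
  Write t = (t1, t2), t1^2+t2^2 = 1, w = (w1,w2), v = (v1,v2), v' = ((t1^2-t2^2) v1 + 2 t1 t2 v2, 2 t1 t2 v1 - (t1^2-t2^2) v2).
  From w1 t1/a^2 + w2 t2/b^2 = 0 and w1^2/a^2 + w2^2/b^2 = 1: there is l with w1 = l a^2 t2, w2 = - l b^2 t1, l^2 (a^2 t2^2 + b^2 t1^2) = 1 (l = w1 t2/a^2 - w2 t1/b^2; check l a^2 t2 = w1 using the tangency relation).
  Then (w x v')^2 - (w x v)^2 = (w x v' - w x v)(w x v' + w x v) = 2 sin(..)..: polynomial identity: equals 2 (w1 t2 - w2 t1)(w1 t1 + w2 t2) * ((t1 v1 + t2 v2)(t1 v2 - t2 v1)) * (-2), and v'.im^2 - v.im^2 = - 4 t1 t2 (t1 v1 + t2 v2)(t1 v2 - t2 v1)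
   [v = r(cos al, sin al), t = (cos be, sin be): v'.im^2 - v.im^2 = r^2 sin 2be sin(2be - 2al); (w x v')^2 - (w x v)^2 = 2 r^2 sin(2be-2al)(w1 sin be - w2 cos be)(w1 cos be + w2 sin be)]; (w1 t2 - w2 t1) = 1/l and w1 t1 + w2 t2 = l (a^2 - b^2) t1 t2: the two sides agree.
-/

set_option autoImplicit false
open Set Filter Topology Pool.Agent.H46.BL
open scoped ContDiff

namespace Pool.Agent.H1.BR

noncomputable section

/-- the classical integral of the ellipse with centre `o`, semi-axes `a`, `b` and axis direction `ex φ` -/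
def Fe (o : ℂ) (a b φ : ℝ) (q p : ℂ) : ℝ :=
  (((q - o) * ex (-φ)).re * (p * ex (-φ)).im - ((q - o) * ex (-φ)).im * (p * ex (-φ)).re) ^ 2
    - (a ^ 2 - b ^ 2) * (p * ex (-φ)).im ^ 2

end

private lemma alg_key {A B w1 w2 t1 t2 v1 v2 : ℝ} (hA : 0 < A) (hB : 0 < B) (e1 : w1 ^ 2 / A + w2 ^ 2 / B = 1)
    (e2 : w1 * t1 / A + w2 * t2 / B = 0) (e3 : t1 ^ 2 + t2 ^ 2 = 1) :
    (w1 * (2 * t1 * t2 * v1 - (t1 ^ 2 - t2 ^ 2) * v2) - w2 * ((t1 ^ 2 - t2 ^ 2) * v1 + 2 * t1 * t2 * v2)) ^ 2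
      - (A - B) * (2 * t1 * t2 * v1 - (t1 ^ 2 - t2 ^ 2) * v2) ^ 2
      = (w1 * v2 - w2 * v1) ^ 2 - (A - B) * v2 ^ 2 := by
  have hA' := hA.ne'
  have hB' := hB.ne'
  have f1 : B * w1 ^ 2 + A * w2 ^ 2 = A * B := by
    field_simp at e1
    linarith
  have f2 : B * w1 * t1 + A * w2 * t2 = 0 := by
    field_simp at e2
    linarith
  obtain ⟨l, hl⟩ : ∃ l : ℝ, l = w1 * t2 / A - w2 * t1 / B := ⟨_, rfl⟩
  have g0 : l * (A * B) = B * w1 * t2 - A * w2 * t1 := by
    rw [hl]; field_simp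
  have g1 : w1 = l * A * t2 := by
    apply mul_left_cancel₀ hB'
    have : B * (l * A * t2) = (l * (A * B)) * t2 := by ring
    rw [this, g0]
    linear_combination (-(B * w1)) * e3 + t1 * f2
  have g2 : w2 = -(l * B * t1) := by
    apply mul_left_cancel₀ hA'
    have : A * (-(l * B * t1)) = -(l * (A * B)) * t1 := by ring
    rw [this, g0]
    linear_combination (-(A * w2)) * e3 + t2 * f2
  have g3 : l ^ 2 * (A * t2 ^ 2 + B * t1 ^ 2) = 1 := by
    apply mul_left_cancel₀ (mul_ne_zero hA' hB')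
    rw [mul_one]
    rw [g1, g2] at f1
    linear_combination f1
  have h1 : (t1 ^ 2 - t2 ^ 2) * v1 + 2 * t1 * t2 * v2 = v1 + 2 * t2 * (t1 * v2 - t2 * v1) := by
    linear_combination v1 * e3
  have h2 : 2 * t1 * t2 * v1 - (t1 ^ 2 - t2 ^ 2) * v2 = v2 - 2 * t1 * (t1 * v2 - t2 * v1) := by
    linear_combination v2 * e3
  rw [h1, h2, g1, g2]
  have h3 : t1 * (t1 * v2 - t2 * v1) = v2 - t2 * (t1 * v1 + t2 * v2) := by
    linear_combination v2 * e3
  have h4 : t2 * (t1 * v2 - t2 * v1) = -v1 + t1 * (t1 * v1 + t2 * v2) := by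
    linear_combination (-v1) * e3
  set N := t1 * v2 - t2 * v1 with hN
  set M := t1 * v1 + t2 * v2 with hM
  -- (x + y)(x - y) form
  have k1 : l * A * t2 * (v2 - 2 * t1 * N) - -(l * B * t1) * (v1 + 2 * t2 * N)
      = (l * A * t2 * v2 - -(l * B * t1) * v1) - 2 * N * (l * (A - B) * t1 * t2) := by ring
  have k2 : l * A * t2 * (v2 - 2 * t1 * N) - -(l * B * t1) * (v1 + 2 * t2 * N)
      = -(l * A * t2 * v2 - -(l * B * t1) * v1) + 2 * M * (l * (A * t2 ^ 2 + B * t1 ^ 2)) := by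
    linear_combination (-2 * l * A * t2) * h3 + (2 * l * B * t1) * h4
  have k3 : v2 - 2 * t1 * N = -v2 + 2 * t2 * M := by linear_combination (-2) * h3
  have d1 : (l * A * t2 * (v2 - 2 * t1 * N) - -(l * B * t1) * (v1 + 2 * t2 * N)) ^ 2
      - (l * A * t2 * v2 - -(l * B * t1) * v1) ^ 2
      = (-(2 * N * (l * (A - B) * t1 * t2))) * (2 * M * (l * (A * t2 ^ 2 + B * t1 ^ 2))) := by
    have s1 : l * A * t2 * (v2 - 2 * t1 * N) - -(l * B * t1) * (v1 + 2 * t2 * N)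
      - (l * A * t2 * v2 - -(l * B * t1) * v1) = -(2 * N * (l * (A - B) * t1 * t2)) := by
      linear_combination k1
    have s2 : l * A * t2 * (v2 - 2 * t1 * N) - -(l * B * t1) * (v1 + 2 * t2 * N)
      + (l * A * t2 * v2 - -(l * B * t1) * v1) = 2 * M * (l * (A * t2 ^ 2 + B * t1 ^ 2)) := by
      linear_combination k2
    rw [← s1, ← s2]; ring
  have d2 : (v2 - 2 * t1 * N) ^ 2 - v2 ^ 2 = (-(2 * t1 * N)) * (2 * t2 * M) := by
    have s1 : v2 - 2 * t1 * N - v2 = -(2 * t1 * N) := by ring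
    have s2 : v2 - 2 * t1 * N + v2 = 2 * t2 * M := by linear_combination k3
    rw [← s1, ← s2]; ring
  linear_combination d1 - (A - B) * d2 + (-4 * N * M * (A - B) * t1 * t2) * g3

private lemma ex_re_im (s : ℝ) : (ex s).re ^ 2 + (ex s).im ^ 2 = 1 := by
  have h := ex_norm s
  have h2 := Complex.sq_norm (ex s)
  rw [h, Complex.normSq_apply] at h2
  linarith

theorem fe_integral (T : Table) {o : ℂ} {a b φ : ℝ} (ha : 0 < a) (hb : 0 < b) (hE : frontier T.Y =
    {q : ℂ | ((q - o) * ex (-φ)).re ^ 2 / a ^ 2 + ((q - o) * ex (-φ)).im ^ 2 / b ^ 2 = 1}) :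
    T.Integral (Fe o a b φ) := by
  refine ⟨?_, ?_, ?_⟩
  · apply ContDiff.contDiffOn
    have c1 : ContDiff ℝ ∞ (fun z : ℂ × ℂ => (z.1 - o) * ex (-φ)) :=
      (contDiff_fst.sub contDiff_const).mul contDiff_const
    have c2 : ContDiff ℝ ∞ (fun z : ℂ × ℂ => z.2 * ex (-φ)) := contDiff_snd.mul contDiff_const
    have r1 : ContDiff ℝ ∞ (fun z : ℂ × ℂ => ((z.1 - o) * ex (-φ)).re) := Complex.reCLM.contDiff.comp c1
    have i1 : ContDiff ℝ ∞ (fun z : ℂ × ℂ => ((z.1 - o) * ex (-φ)).im) := Complex.imCLM.contDiff.comp c1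
    have r2 : ContDiff ℝ ∞ (fun z : ℂ × ℂ => (z.2 * ex (-φ)).re) := Complex.reCLM.contDiff.comp c2
    have i2 : ContDiff ℝ ∞ (fun z : ℂ × ℂ => (z.2 * ex (-φ)).im) := Complex.imCLM.contDiff.comp c2
    exact (((r1.mul i2).sub (i1.mul r2)).pow 2).sub (contDiff_const.mul (i2.pow 2))
  · intro q _ p _ t _
    unfold Fe
    have e : (q + t * p - o) * ex (-φ) = (q - o) * ex (-φ) + (t : ℂ) * (p * ex (-φ)) := by ring
    rw [e]
    simp only [Complex.add_re, Complex.add_im, Complex.re_ofReal_mul, Complex.im_ofReal_mul]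
    ring
  · intro s p hp
    have hon : ∀ u : ℝ, ((T.γ u - o) * ex (-φ)).re ^ 2 / a ^ 2 + ((T.γ u - o) * ex (-φ)).im ^ 2 / b ^ 2 = 1 := by
      intro u
      have : T.γ u ∈ frontier T.Y := by rw [T.bdry]; exact mem_range_self u
      rw [hE] at this
      exact this
    have hw : HasDerivAt (fun u => (T.γ u - o) * ex (-φ)) (ex (T.τ s) * ex (-φ)) s :=
      ((T.tangent s).sub_const o).mul_const _
    have hre : HasDerivAt (fun u => ((T.γ u - o) * ex (-φ)).re) (ex (T.τ s) * ex (-φ)).re s :=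
      Complex.reCLM.hasFDerivAt.comp_hasDerivAt s hw
    have him : HasDerivAt (fun u => ((T.γ u - o) * ex (-φ)).im) (ex (T.τ s) * ex (-φ)).im s :=
      Complex.imCLM.hasFDerivAt.comp_hasDerivAt s hw
    have hd := ((hre.pow 2).div_const (a ^ 2)).add ((him.pow 2).div_const (b ^ 2))
    have hconst : HasDerivAt (fun u => ((T.γ u - o) * ex (-φ)).re ^ 2 / a ^ 2
        + ((T.γ u - o) * ex (-φ)).im ^ 2 / b ^ 2) 0 s := by
      have : (fun u => ((T.γ u - o) * ex (-φ)).re ^ 2 / a ^ 2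
        + ((T.γ u - o) * ex (-φ)).im ^ 2 / b ^ 2) = fun _ => (1 : ℝ) := by
        funext u; exact hon u
      rw [this]; exact hasDerivAt_const s (1 : ℝ)
    have hz := hd.unique hconst
    have ht : ex (T.τ s) * ex (-φ) = ex (T.τ s + -φ) := (ex_add _ _).symm
    rw [ht] at hz
    have e3 := ex_re_im (T.τ s + -φ)
    have hA : 0 < a ^ 2 := by positivity
    have hB : 0 < b ^ 2 := by positivity
    set w : ℂ := (T.γ s - o) * ex (-φ) with hwd
    set t : ℂ := ex (T.τ s + -φ) with htd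
    have e1 : w.re ^ 2 / a ^ 2 + w.im ^ 2 / b ^ 2 = 1 := hon s
    have e2 : w.re * t.re / a ^ 2 + w.im * t.im / b ^ 2 = 0 := by
      have h2 : (2 : ℝ) * (w.re * t.re / a ^ 2 + w.im * t.im / b ^ 2) = 0 := by
        rw [← hz]
        norm_num
        ring
      linarith
    unfold Fe
    set v : ℂ := p * ex (-φ) with hv
    have hv' : ex (2 * T.τ s) * (starRingEnd ℂ) p * ex (-φ) = t * t * (starRingEnd ℂ) v := by
      rw [hv, map_mul, ex_conj, htd, ← ex_add]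
      have : ex (T.τ s + -φ + (T.τ s + -φ)) * ((starRingEnd ℂ) p * ex (- -φ))
        = (ex (T.τ s + -φ + (T.τ s + -φ)) * ex (- -φ)) * (starRingEnd ℂ) p := by ring
      rw [this, ← ex_add]
      have e4 : ex (2 * T.τ s) * (starRingEnd ℂ) p * ex (-φ) = (ex (2 * T.τ s) * ex (-φ)) * (starRingEnd ℂ) p := by
        ring
      rw [e4, ← ex_add]
      congr 2
      ring
    rw [hv']
    have hre' : (t * t * (starRingEnd ℂ) v).re = (t.re ^ 2 - t.im ^ 2) * v.re + 2 * t.re * t.im * v.im := by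
      simp only [Complex.mul_re, Complex.mul_im, Complex.conj_re, Complex.conj_im]
      ring
    have him' : (t * t * (starRingEnd ℂ) v).im = 2 * t.re * t.im * v.re - (t.re ^ 2 - t.im ^ 2) * v.im := by
      simp only [Complex.mul_re, Complex.mul_im, Complex.conj_re, Complex.conj_im]
      ring
    rw [hre', him']
    exact alg_key hA hB e1 e2 e3

end Pool.Agent.H1.BR
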