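import Pool.Agent.H1.BR.Eli

/-
ROW Elr.  The classical integral is regular on every chord that is not a double normal.
z = stt T x y t = (q, u), |u| = 1 (len_pos), w = (q-o) ex(-phi), v = u ex(-phi), L = w x v = w.re v.im - w.im v.re, e = a^2 - b^2.  dF(dq,dp) = 2 L (dw x v + w x dv) - 2 e v.im dv.im, with dw = dq ex(-phi), dv = dp ex(-phi); dH(dq,dp) = Re(conj u dp).
 Independence: suppose c1 dF + c2 dH = 0; at (0,u): dF(0,u) = 2 F..., so first use a vector in the kernel of dH: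
 (1) L /= 0: take dq = i u, dp = 0: dw x v = (i v) x v = (-v.im)(v.im) - v.re v.re = -1: dF = -2 L /= 0, dH = 0: c1 = 0; then c2 dH (0,u) = c2 = 0.
 (2) L = 0 and e v.re v.im /= 0: dq = 0, dp = i u: dF = 2 L (..) - 2 e v.im (i v).im = - 2 e v.im v.re /= 0, dH = 0.
 (3) L = 0 and e v.re v.im = 0 is impossible: then the chord is a double normal: the point g x of the chord has w_x = (g x - o) ex(-phi) = w - s v for a real s (stt), so w_x x v = 0, w_x = k v (k real, |v| = 1), k /= 0 since w_x is on the ellipse (hE, T.bdry).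
     tangency at x (differentiate the equation along g, T.tangent): k (v.re t1/a^2 + v.im t2/b^2) = 0 with (t1,t2) = ex(tau x - phi).  If a^2 = b^2: v.re t1 + v.im t2 = 0. If v.im = 0: v.re t1 = 0, so v.re t1 + v.im t2 = 0; if v.re = 0: the same.
     So Re(conj(ex(tau x)) u) = 0, i.e. l1 T x y = 0 (l1 = - Re((g y - g x) ex(-tau x))/len).  In the same way at y: l2 T x y = 0.  Contradiction to hn.
 Regular: fderiv of F and of |p|^2/2 at z: compute along the two directions with HasDerivAt of one-variable lines or via HasFDerivAt of polynomial expressions (re, im as continuous linear maps); LinearIndependent.pair_iff.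
-/

set_option autoImplicit false
open Set Filter Topology Pool.Agent.H46.BL
open scoped ContDiff

namespace Pool.Agent.H1.BR

/-- the real linear forms -/
private noncomputable def Elr_W1 (φ : ℝ) : ℂ × ℂ →L[ℝ] ℝ :=
  Complex.reCLM.comp ((ContinuousLinearMap.mul ℝ ℂ (ex (-φ))).comp (ContinuousLinearMap.fst ℝ ℂ ℂ))
private noncomputable def Elr_W2 (φ : ℝ) : ℂ × ℂ →L[ℝ] ℝ :=
  Complex.imCLM.comp ((ContinuousLinearMap.mul ℝ ℂ (ex (-φ))).comp (ContinuousLinearMap.fst ℝ ℂ ℂ))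
private noncomputable def Elr_V1 (φ : ℝ) : ℂ × ℂ →L[ℝ] ℝ :=
  Complex.reCLM.comp ((ContinuousLinearMap.mul ℝ ℂ (ex (-φ))).comp (ContinuousLinearMap.snd ℝ ℂ ℂ))
private noncomputable def Elr_V2 (φ : ℝ) : ℂ × ℂ →L[ℝ] ℝ :=
  Complex.imCLM.comp ((ContinuousLinearMap.mul ℝ ℂ (ex (-φ))).comp (ContinuousLinearMap.snd ℝ ℂ ℂ))

private theorem Elr_W1_apply (φ : ℝ) (d : ℂ × ℂ) : Elr_W1 φ d = (d.1 * ex (-φ)).re := by
  simp [Elr_W1, mul_comm]
private theorem Elr_W2_apply (φ : ℝ) (d : ℂ × ℂ) : Elr_W2 φ d = (d.1 * ex (-φ)).im := by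
  simp [Elr_W2, mul_comm]
private theorem Elr_V1_apply (φ : ℝ) (d : ℂ × ℂ) : Elr_V1 φ d = (d.2 * ex (-φ)).re := by
  simp [Elr_V1, mul_comm]
private theorem Elr_V2_apply (φ : ℝ) (d : ℂ × ℂ) : Elr_V2 φ d = (d.2 * ex (-φ)).im := by
  simp [Elr_V2, mul_comm]

/-- the differential of the classical integral -/
private theorem Elr_fd (o : ℂ) (a b φ : ℝ) (z d : ℂ × ℂ) :
    fderiv ℝ (fun w : ℂ × ℂ => Fe o a b φ w.1 w.2) z d =
      2 * (((z.1 - o) * ex (-φ)).re * (z.2 * ex (-φ)).im - ((z.1 - o) * ex (-φ)).im * (z.2 * ex (-φ)).re) *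
        ((((z.1 - o) * ex (-φ)).re * (d.2 * ex (-φ)).im + (z.2 * ex (-φ)).im * (d.1 * ex (-φ)).re) -
          (((z.1 - o) * ex (-φ)).im * (d.2 * ex (-φ)).re + (z.2 * ex (-φ)).re * (d.1 * ex (-φ)).im)) -
        2 * (a ^ 2 - b ^ 2) * (z.2 * ex (-φ)).im * (d.2 * ex (-φ)).im := by
  have hfun : (fun w : ℂ × ℂ => Fe o a b φ w.1 w.2) = fun w : ℂ × ℂ =>
      ((Elr_W1 φ w - (o * ex (-φ)).re) * Elr_V2 φ w - (Elr_W2 φ w - (o * ex (-φ)).im) * Elr_V1 φ w) ^ 2 -
        (a ^ 2 - b ^ 2) * (Elr_V2 φ w) ^ 2 := by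
    funext w
    simp only [Fe, Elr_W1_apply, Elr_W2_apply, Elr_V1_apply, Elr_V2_apply, sub_mul, Complex.sub_re, Complex.sub_im]
  have h1 : HasFDerivAt (fun w : ℂ × ℂ => Elr_W1 φ w - (o * ex (-φ)).re) (Elr_W1 φ) z :=
    (Elr_W1 φ).hasFDerivAt.sub_const _
  have h2 : HasFDerivAt (fun w : ℂ × ℂ => Elr_W2 φ w - (o * ex (-φ)).im) (Elr_W2 φ) z :=
    (Elr_W2 φ).hasFDerivAt.sub_const _
  have h3 : HasFDerivAt (fun w : ℂ × ℂ => Elr_V1 φ w) (Elr_V1 φ) z := (Elr_V1 φ).hasFDerivAt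
  have h4 : HasFDerivAt (fun w : ℂ × ℂ => Elr_V2 φ w) (Elr_V2 φ) z := (Elr_V2 φ).hasFDerivAt
  have h5 := (((h1.mul h4).sub (h2.mul h3)).pow 2).sub ((h4.pow 2).const_mul (a ^ 2 - b ^ 2))
  rw [hfun]
  have h6 := h5.fderiv
  have h7 := DFunLike.congr_fun h6 d
  refine Eq.trans h7 ?_
  simp only [ContinuousLinearMap.sub_apply, ContinuousLinearMap.smul_apply, ContinuousLinearMap.add_apply,
    smul_eq_mul, Elr_W1_apply, Elr_W2_apply, Elr_V1_apply, Elr_V2_apply, sub_mul, Complex.sub_re, Complex.sub_im]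
  simp
  ring

/-- the differential of the Hamiltonian -/
private theorem Elr_hd (z d : ℂ × ℂ) :
    fderiv ℝ (fun w : ℂ × ℂ => ‖w.2‖ ^ 2 / 2) z d = z.2.re * d.2.re + z.2.im * d.2.im := by
  have hfun : (fun w : ℂ × ℂ => ‖w.2‖ ^ 2 / 2) = fun w : ℂ × ℂ =>
      ((Complex.reCLM.comp (ContinuousLinearMap.snd ℝ ℂ ℂ)) w ^ 2 +
        (Complex.imCLM.comp (ContinuousLinearMap.snd ℝ ℂ ℂ)) w ^ 2) * (1 / 2) := by
    funext w
    rw [Complex.sq_norm, Complex.normSq_apply]
    simp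
    ring
  have h3 : HasFDerivAt (fun w : ℂ × ℂ => (Complex.reCLM.comp (ContinuousLinearMap.snd ℝ ℂ ℂ)) w)
      (Complex.reCLM.comp (ContinuousLinearMap.snd ℝ ℂ ℂ)) z := ContinuousLinearMap.hasFDerivAt _
  have h4 : HasFDerivAt (fun w : ℂ × ℂ => (Complex.imCLM.comp (ContinuousLinearMap.snd ℝ ℂ ℂ)) w)
      (Complex.imCLM.comp (ContinuousLinearMap.snd ℝ ℂ ℂ)) z := ContinuousLinearMap.hasFDerivAt _
  have h5 := ((h3.pow 2).add (h4.pow 2)).mul_const (1 / 2)
  rw [hfun]
  have h7 := DFunLike.congr_fun h5.fderiv d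
  refine Eq.trans h7 ?_
  simp
  ring

/-- the tangency condition at a point of the ellipse -/
private theorem Elr_pt (T : Table) {o : ℂ} {a b φ : ℝ} (ha : 0 < a) (hb : 0 < b) (hE : frontier T.Y =
    {q : ℂ | ((q - o) * ex (-φ)).re ^ 2 / a ^ 2 + ((q - o) * ex (-φ)).im ^ 2 / b ^ 2 = 1})
    (s : ℝ) (v : ℂ) (hv : v.re ^ 2 + v.im ^ 2 = 1)
    (hL : ((T.γ s - o) * ex (-φ)).re * v.im - ((T.γ s - o) * ex (-φ)).im * v.re = 0)
    (he : (a ^ 2 - b ^ 2) * (v.re * v.im) = 0) : (v * ex (φ - T.τ s)).re = 0 := by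
  have hE' : ∀ r : ℝ, ((T.γ r - o) * ex (-φ)).re ^ 2 / a ^ 2 + ((T.γ r - o) * ex (-φ)).im ^ 2 / b ^ 2 = 1 := by
    intro r
    have h1 : T.γ r ∈ frontier T.Y := by rw [T.bdry]; exact ⟨r, rfl⟩
    rw [hE] at h1
    exact h1
  have hd : HasDerivAt (fun r => (T.γ r - o) * ex (-φ)) (ex (T.τ s) * ex (-φ)) s :=
    ((T.tangent s).sub_const o).mul_const _
  have hre : HasDerivAt (fun r => ((T.γ r - o) * ex (-φ)).re) (ex (T.τ s) * ex (-φ)).re s := by
    have := (Complex.reCLM.hasFDerivAt (x := (T.γ s - o) * ex (-φ))).comp_hasDerivAt s hd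
    exact this
  have him : HasDerivAt (fun r => ((T.γ r - o) * ex (-φ)).im) (ex (T.τ s) * ex (-φ)).im s := by
    have := (Complex.imCLM.hasFDerivAt (x := (T.γ s - o) * ex (-φ))).comp_hasDerivAt s hd
    exact this
  have hsum := ((hre.pow 2).div_const (a ^ 2)).add ((him.pow 2).div_const (b ^ 2))
  have hzero : HasDerivAt (fun _ : ℝ => (1 : ℝ)) 0 s := hasDerivAt_const s 1
  have hfe : (fun r => ((T.γ r - o) * ex (-φ)).re ^ 2 / a ^ 2 + ((T.γ r - o) * ex (-φ)).im ^ 2 / b ^ 2) = fun _ : ℝ => (1 : ℝ) := by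
    funext r
    exact hE' r
  have hEs := hE' s
  have huniq : HasDerivAt (fun r => ((T.γ r - o) * ex (-φ)).re ^ 2 / a ^ 2 + ((T.γ r - o) * ex (-φ)).im ^ 2 / b ^ 2) 0 s := by
    rw [hfe]; exact hzero
  have heq := hsum.unique huniq
  set w := (T.γ s - o) * ex (-φ) with hw
  set t := ex (T.τ s) * ex (-φ) with ht
  have ha2 : a ^ 2 ≠ 0 := pow_ne_zero _ ha.ne'
  have hb2 : b ^ 2 ≠ 0 := pow_ne_zero _ hb.ne'
  have heq2 : w.re * t.re / a ^ 2 + w.im * t.im / b ^ 2 = 0 := by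
    have h1 : 2 * (w.re * t.re / a ^ 2 + w.im * t.im / b ^ 2) = 0 := by
      rw [← heq]
      simp only [Nat.cast_ofNat]
      ring
    linarith
  -- `w = k v`
  set k := w.re * v.re + w.im * v.im with hk
  have hk1 : w.re = k * v.re := by
    rw [hk]; linear_combination (- w.re) * hv + v.im * hL
  have hk2 : w.im = k * v.im := by
    rw [hk]; linear_combination (- w.im) * hv - v.re * hL
  have hk0 : k ≠ 0 := by
    intro h0
    rw [hk1, hk2, h0] at hEs
    simp at hEs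
  have h3 : v.re * t.re / a ^ 2 + v.im * t.im / b ^ 2 = 0 := by
    have h4 : k * (v.re * t.re / a ^ 2 + v.im * t.im / b ^ 2) = 0 := by
      rw [← heq2, hk1, hk2]; ring
    exact (mul_eq_zero.1 h4).resolve_left hk0
  have h5 : v.re * t.re * b ^ 2 + v.im * t.im * a ^ 2 = 0 := by
    field_simp at h3
    linarith
  have h6 : v.re * t.re + v.im * t.im = 0 := by
    rcases mul_eq_zero.1 he with h7 | h7
    · have h8 : a ^ 2 = b ^ 2 := by linarith
      rw [h8] at h5
      have : b ^ 2 * (v.re * t.re + v.im * t.im) = 0 := by linarith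
      exact (mul_eq_zero.1 this).resolve_left hb2
    · rcases mul_eq_zero.1 h7 with h8 | h8
      · rw [h8] at h5 ⊢
        have : a ^ 2 * (v.im * t.im) = 0 := by linarith
        have := (mul_eq_zero.1 this).resolve_left ha2
        rw [this]; ring
      · rw [h8] at h5 ⊢
        have : b ^ 2 * (v.re * t.re) = 0 := by linarith
        have := (mul_eq_zero.1 this).resolve_left hb2
        rw [this]; ring
  have h7 : ex (φ - T.τ s) = (starRingEnd ℂ) t := by
    rw [ht, ← ex_add]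
    unfold ex
    rw [← Complex.exp_conj, map_mul, Complex.conj_ofReal, Complex.conj_I]
    congr 1
    push_cast
    ring
  rw [h7, Complex.mul_re, Complex.conj_re, Complex.conj_im]
  linarith

theorem fe_regular (T : Table) {o : ℂ} {a b φ : ℝ} (ha : 0 < a) (hb : 0 < b) (hE : frontier T.Y =
    {q : ℂ | ((q - o) * ex (-φ)).re ^ 2 / a ^ 2 + ((q - o) * ex (-φ)).im ^ 2 / b ^ 2 = 1})
    {x y t : ℝ} (h : Tw T x y) (hn : ¬ (l1 T x y = 0 ∧ l2 T x y = 0)) (ht : t ∈ Ioo (0 : ℝ) 1) :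
    Regular (Fe o a b φ) (stt T x y t) := by
  obtain ⟨hxy, hyL⟩ := tw_lt h
  have hlen := len_pos hxy hyL
  have hlenC : (len T x y : ℂ) ≠ 0 := by exact_mod_cast hlen.ne'
  have hch : T.γ y - T.γ x = (len T x y : ℂ) * uc T x y := by
    unfold uc
    field_simp
  have hu1 : ‖uc T x y‖ = 1 := by
    have h1 : ‖T.γ y - T.γ x‖ = len T x y * ‖uc T x y‖ := by
      rw [hch, norm_mul, Complex.norm_real, Real.norm_eq_abs, abs_of_pos hlen]
    have h2 : len T x y * ‖uc T x y‖ = len T x y * 1 := by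
      rw [← h1, mul_one]; rfl
    exact mul_left_cancel₀ hlen.ne' h2
  have hu2 : (uc T x y).re ^ 2 + (uc T x y).im ^ 2 = 1 := by
    have h1 := Complex.sq_norm (uc T x y)
    rw [hu1, Complex.normSq_apply] at h1
    linarith
  set u := uc T x y with hu
  set v := u * ex (-φ) with hv
  have hv2 : v.re ^ 2 + v.im ^ 2 = 1 := by
    have h1 := Complex.sq_norm v
    rw [hv, norm_mul, hu1, ex_norm, ← hv, Complex.normSq_apply] at h1
    linarith
  set w := ((stt T x y t).1 - o) * ex (-φ) with hw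
  have hstt2 : (stt T x y t).2 = u := rfl
  have hstt1 : (stt T x y t).1 = T.γ x + (t : ℂ) * (T.γ y - T.γ x) := rfl
  have hIu : ∀ c : ℂ, (Complex.I * u * c) = Complex.I * (u * c) := fun c => by ring
  unfold Regular
  rw [LinearIndependent.pair_iff]
  intro c1 c2 hc
  have hF : ∀ d : ℂ × ℂ, c1 * fderiv ℝ (fun w : ℂ × ℂ => Fe o a b φ w.1 w.2) (stt T x y t) d +
      c2 * fderiv ℝ (fun w : ℂ × ℂ => ‖w.2‖ ^ 2 / 2) (stt T x y t) d = 0 := by
    intro d
    have := DFunLike.congr_fun hc d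
    simpa using this
  have hlast : c1 = 0 → c1 = 0 ∧ c2 = 0 := by
    intro h0
    refine ⟨h0, ?_⟩
    have h1 := hF (0, u)
    rw [h0, zero_mul, zero_add, Elr_hd, hstt2] at h1
    simp only at h1
    have h2 : c2 * (u.re ^ 2 + u.im ^ 2) = 0 := by linarith
    rwa [hu2, mul_one] at h2
  by_cases hL : w.re * v.im - w.im * v.re = 0
  · by_cases he : (a ^ 2 - b ^ 2) * (v.re * v.im) = 0
    · -- impossible
      exfalso
      apply hn
      have hwx : w = (T.γ x - o) * ex (-φ) + ((t * len T x y : ℝ) : ℂ) * v := by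
        rw [hw, hstt1, hch, hv]
        push_cast
        ring
      have hwy : (T.γ y - o) * ex (-φ) = (T.γ x - o) * ex (-φ) + ((len T x y : ℝ) : ℂ) * v := by
        have : T.γ y = T.γ x + (len T x y : ℂ) * u := by rw [← hch]; ring
        rw [this, hv]; ring
      have hLx : ((T.γ x - o) * ex (-φ)).re * v.im - ((T.γ x - o) * ex (-φ)).im * v.re = 0 := by
        rw [← hL, hwx]
        simp only [Complex.add_re, Complex.add_im, Complex.re_ofReal_mul, Complex.im_ofReal_mul]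
        ring
      have hLy : ((T.γ y - o) * ex (-φ)).re * v.im - ((T.γ y - o) * ex (-φ)).im * v.re = 0 := by
        rw [← hLx, hwy]
        simp only [Complex.add_re, Complex.add_im, Complex.re_ofReal_mul, Complex.im_ofReal_mul]
        ring
      have hx := Elr_pt T ha hb hE x v hv2 hLx he
      have hy := Elr_pt T ha hb hE y v hv2 hLy he
      have hcomb : ∀ s : ℝ, v * ex (φ - T.τ s) = u * ex (-(T.τ s)) := by
        intro s
        rw [hv, mul_assoc, ← ex_add]
        congr 2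
        ring
      rw [hcomb] at hx hy
      constructor
      · unfold l1
        rw [hch, mul_assoc, Complex.re_ofReal_mul, hx, mul_zero, neg_zero, zero_div]
      · unfold l2
        rw [hch, mul_assoc, Complex.re_ofReal_mul, hy, mul_zero, zero_div]
    · apply hlast
      have h1 := hF (0, Complex.I * u)
      rw [Elr_fd, Elr_hd, hstt2] at h1
      simp only at h1
      rw [hIu, ← hv, ← hw, hL] at h1
      simp only [Complex.mul_re, Complex.mul_im, Complex.I_re, Complex.I_im] at h1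
      have h2 : c1 * ((a ^ 2 - b ^ 2) * (v.re * v.im)) = 0 := by
        linear_combination (-1 / 2) * h1
      exact (mul_eq_zero.1 h2).resolve_right he
  · apply hlast
    have h1 := hF (Complex.I * u, 0)
    rw [Elr_fd, Elr_hd, hstt2] at h1
    simp only at h1
    rw [hIu, ← hv, ← hw] at h1
    simp only [Complex.mul_re, Complex.mul_im, Complex.I_re, Complex.I_im, Complex.zero_re, Complex.zero_im] at h1
    have h2 : c1 * (w.re * v.im - w.im * v.re) = 0 := by
      linear_combination (-1 / 2) * h1 - c1 * (w.re * v.im - w.im * v.re) * hv2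
    exact (mul_eq_zero.1 h2).resolve_right hL

end Pool.Agent.H1.BR
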