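import Pool.Agent.H1.BR.Geo

/-
ROW Fha.  The first integral as a function Fh x y = F (g x) (uc x y) of the chord.
fh_smooth: (x,y) -> (g x, uc x y) is smooth near a point with x<y<x+L (len_pos), with values in Y x {p /= 0} (uc x y has norm 1; Table.γ_mem), hF.smooth is ContDiffOn on T.Y x {p /= 0}: compose.
fh_per: g, uc periodic.   fh_chord: F (g x) (uc x y) = F (g y) (uc x y): hF.flow with q = g x, p = uc x y, t = len x y.
fh_inv: write uc x y = ex(tau y - theta'), theta' in (0,pi) (im part: hy x y > 0; cos theta' = l2 x y) and uc y z = ex(tau y + theta), theta in (0,pi), cos theta = - l1 y z = l2 x y: so theta = theta' and uc y z = ex(2 tau y) * conj (uc x y); hF.refl y.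
 (direct: w = uc x y * ex(-tau y) has re = l2 x y, im = - hy/len < 0, norm 1;  w' = uc y z * ex(-tau y) has re = - l1 y z = re w, im = hx/len > 0, norm 1: so w' = conj w.)
-/

set_option autoImplicit false
open Set Filter Topology Pool.Agent.H46.BL
open scoped ContDiff

namespace Pool.Agent.H1.BR

variable {T : Table} {F : ℂ → ℂ → ℝ}

theorem uc_norm {x y : ℝ} (h : x < y) (h' : y < x + T.L) : ‖uc T x y‖ = 1 := by
  have hl := len_pos h h'
  unfold uc
  rw [norm_div, Complex.norm_real, Real.norm_eq_abs, abs_of_pos hl]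
  exact div_self hl.ne'

theorem uc_smooth {x y : ℝ} (h : x < y) (h' : y < x + T.L) :
    ContDiffAt ℝ ∞ (fun z : ℝ × ℝ => uc T z.1 z.2) (x, y) := by
  have hl := len_pos h h'
  have hg : ContDiffAt ℝ ∞ (fun z : ℝ × ℝ => T.γ z.2 - T.γ z.1) (x, y) :=
    ((T.γ_smooth.comp contDiff_snd).sub (T.γ_smooth.comp contDiff_fst)).contDiffAt
  have hne : T.γ y - T.γ x ≠ 0 := by
    intro h0
    have : len T x y = 0 := by
      unfold len
      rw [h0, norm_zero]
    exact hl.ne' this
  have hlen : ContDiffAt ℝ ∞ (fun z : ℝ × ℝ => len T z.1 z.2) (x, y) := by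
    unfold len
    exact hg.norm ℝ hne
  have hlenC : ContDiffAt ℝ ∞ (fun z : ℝ × ℝ => ((len T z.1 z.2 : ℝ) : ℂ)) (x, y) :=
    Complex.ofRealCLM.contDiff.contDiffAt.comp (x, y) hlen
  unfold uc
  have hne' : ((len T x y : ℝ) : ℂ) ≠ 0 := by exact_mod_cast hl.ne'
  have hinv : ContDiffAt ℝ ∞ (fun z : ℝ × ℝ => ((len T z.1 z.2 : ℝ) : ℂ)⁻¹) (x, y) :=
    hlenC.inv hne'
  simp only [div_eq_mul_inv]
  exact hg.mul hinv

theorem fh_smooth (hF : T.Integral F) {x y : ℝ} (h : x < y) (h' : y < x + T.L) :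
    ContDiffAt ℝ ∞ (fun z : ℝ × ℝ => Fh T F z.1 z.2) (x, y) := by
  have hU : IsOpen {z : ℝ × ℝ | z.1 < z.2 ∧ z.2 < z.1 + T.L} :=
    (isOpen_lt continuous_fst continuous_snd).inter
      (isOpen_lt continuous_snd (continuous_fst.add continuous_const))
  have hmem : (x, y) ∈ {z : ℝ × ℝ | z.1 < z.2 ∧ z.2 < z.1 + T.L} := ⟨h, h'⟩
  have hin : ContDiffAt ℝ ∞ (fun z : ℝ × ℝ => (T.γ z.1, uc T z.1 z.2)) (x, y) :=
    ContDiffAt.prodMk (T.γ_smooth.comp contDiff_fst).contDiffAt (uc_smooth h h')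
  have hmaps : MapsTo (fun z : ℝ × ℝ => (T.γ z.1, uc T z.1 z.2))
      {z : ℝ × ℝ | z.1 < z.2 ∧ z.2 < z.1 + T.L} (T.Y ×ˢ {p : ℂ | p ≠ 0}) := by
    rintro ⟨a, b⟩ ⟨h1, h2⟩
    refine ⟨T.γ_mem a, ?_⟩
    intro h0
    have h3 := uc_norm (T := T) h1 h2
    simp only at h0
    rw [h0, norm_zero] at h3
    exact zero_ne_one h3
  have hout := hF.smooth (T.γ x, uc T x y) (hmaps hmem)
  have hcomp := ContDiffWithinAt.comp (x, y) (s := {z : ℝ × ℝ | z.1 < z.2 ∧ z.2 < z.1 + T.L})
    hout hin.contDiffWithinAt hmaps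
  exact hcomp.contDiffAt (hU.mem_nhds hmem)

theorem fh_per (x y : ℝ) : Fh T F (x + T.L) (y + T.L) = Fh T F x y := by
  unfold Fh uc len
  rw [T.periodic, T.periodic]

private theorem fh_chord (hF : T.Integral F) {x y : ℝ} (h : x < y) (h' : y < x + T.L) :
    F (T.γ y) (uc T x y) = F (T.γ x) (uc T x y) := by
  have hl := len_pos h h'
  have hne : uc T x y ≠ 0 := by
    intro h0
    have h3 := uc_norm h h'
    rw [h0, norm_zero] at h3
    exact zero_ne_one h3
  have hlC : ((len T x y : ℝ) : ℂ) ≠ 0 := by exact_mod_cast hl.ne'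
  have he : T.γ x + ((len T x y : ℝ) : ℂ) * uc T x y = T.γ y := by
    unfold uc
    field_simp
    ring
  have h3 := hF.flow (T.γ x) (T.γ_mem x) (uc T x y) hne (len T x y)
    (by rw [he]; exact T.γ_mem y)
  rw [he] at h3
  exact h3

theorem fh_inv (hF : T.Integral F) {x y z : ℝ} (h : Tw T x y) (h' : Tw T y z)
    (he : l2 T x y + l1 T y z = 0) : Fh T F x y = Fh T F y z := by
  obtain ⟨h1, h2⟩ := tw_lt h
  obtain ⟨h3, h4⟩ := tw_lt h'
  have hl := len_pos h1 h2
  have hl' := len_pos h3 h4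
  have hyp := hy_pos h
  have hxp := hx_pos h'
  have hs1 := l2_sq h1 h2
  have hs2 := l1_sq h3 h4
  have hq1 : 0 < hy T x y / len T x y := div_pos hyp hl
  have hq2 : 0 < hx T y z / len T y z := div_pos hxp hl'
  have heq : hx T y z / len T y z = hy T x y / len T x y := by
    have h5 : (hx T y z / len T y z) ^ 2 = (hy T x y / len T x y) ^ 2 := by
      have h6 : l1 T y z = - l2 T x y := by linarith
      rw [h6] at hs2
      nlinarith
    rcases sq_eq_sq_iff_eq_or_eq_neg.1 h5 with h6 | h6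
    · exact h6
    · linarith
  have hw : (T.γ z - T.γ y) / ((len T y z : ℝ) : ℂ) * ex (-(T.τ y)) =
      (starRingEnd ℂ) ((T.γ y - T.γ x) / ((len T x y : ℝ) : ℂ) * ex (-(T.τ y))) := by
    have e1 : (T.γ z - T.γ y) / ((len T y z : ℝ) : ℂ) * ex (-(T.τ y)) =
        ((T.γ z - T.γ y) * ex (-(T.τ y))) / ((len T y z : ℝ) : ℂ) := by ring
    have e2 : (T.γ y - T.γ x) / ((len T x y : ℝ) : ℂ) * ex (-(T.τ y)) =
        ((T.γ y - T.γ x) * ex (-(T.τ y))) / ((len T x y : ℝ) : ℂ) := by ring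
    rw [e1, e2]
    apply Complex.ext
    · rw [Complex.conj_re, Complex.div_ofReal_re, Complex.div_ofReal_re]
      have h6 : l1 T y z = - l2 T x y := by linarith
      unfold l1 l2 at h6
      rw [neg_div] at h6
      linarith
    · rw [Complex.conj_im, Complex.div_ofReal_im, Complex.div_ofReal_im]
      unfold hx hy at heq
      rw [heq, neg_div]
  have hucz : uc T y z = ex (2 * T.τ y) * (starRingEnd ℂ) (uc T x y) := by
    have h5 : uc T y z = (T.γ z - T.γ y) / ((len T y z : ℝ) : ℂ) * ex (-(T.τ y)) * ex (T.τ y) := by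
      rw [mul_assoc, ← ex_add, neg_add_cancel]
      unfold uc
      have : ex 0 = 1 := by unfold ex; simp
      rw [this, mul_one]
    rw [h5, hw, map_mul, ex_conj, neg_neg]
    have h6 : ex (2 * T.τ y) = ex (T.τ y) * ex (T.τ y) := by
      rw [← ex_add]; congr 1; ring
    rw [h6]
    unfold uc
    ring
  have hne : uc T x y ≠ 0 := by
    intro h0
    have h3 := uc_norm h1 h2
    rw [h0, norm_zero] at h3
    exact zero_ne_one h3
  have h7 := hF.refl y (uc T x y) hne
  unfold Fh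
  rw [hucz, h7]
  exact (fh_chord hF h1 h2).symm

end Pool.Agent.H1.BR
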