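import Pool.Agent.H1.BR.Defs

set_option autoImplicit false
open Set Pool.Agent.H46.BL

namespace Pool.Agent.H1.BR

variable {T : Table}

private theorem Geo_ex_im (a : ℝ) : (ex a).im = Real.sin a := by
  unfold ex
  exact Complex.exp_ofReal_mul_I_im a

private theorem Geo_tdiff : Differentiable ℝ T.τ := T.smooth.differentiable (by simp)

private theorem Geo_tcont : Continuous T.τ := Geo_tdiff.continuous

private theorem Geo_ex_neg (a : ℝ) : ex a * ex (-a) = 1 := by
  rw [← ex_add, add_neg_cancel]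
  unfold ex
  simp

private theorem Geo_ex_neg_per (a : ℝ) : ex (-(a + 2 * Real.pi)) = ex (-a) := by
  have h := ex_two_pi (-(a + 2 * Real.pi))
  rw [← h]
  congr 1
  ring

theorem tau_mono : Monotone T.τ := monotone_of_deriv_nonneg Geo_tdiff T.curv

theorem flat {x y : ℝ} (h : x ≤ y) (he : T.τ y = T.τ x) :
    (∀ z ∈ Icc x y, T.τ z = T.τ x) ∧ T.γ y = T.γ x + ((y - x : ℝ) : ℂ) * ex (T.τ x) := by
  have h1 : ∀ z ∈ Icc x y, T.τ z = T.τ x := fun z hz =>
    le_antisymm (by rw [← he]; exact tau_mono hz.2) (tau_mono hz.1)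
  refine ⟨h1, ?_⟩
  have h2 : ∀ z, HasDerivAt (fun z : ℝ => T.γ z - (z : ℂ) * ex (T.τ x)) (ex (T.τ z) - 1 * ex (T.τ x)) z := by
    intro z
    refine (T.tangent z).sub ?_
    exact (Complex.ofRealCLM.hasDerivAt).mul_const (ex (T.τ x))
  have h3 := constant_of_has_deriv_right_zero (f := fun z : ℝ => T.γ z - (z : ℂ) * ex (T.τ x))
    (a := x) (b := y)
    (fun z _ => (h2 z).continuousAt.continuousWithinAt)
    (fun z hz => by
      have h4 := (h2 z).hasDerivWithinAt (s := Ici z)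
      rw [h1 z ⟨hz.1, hz.2.le⟩, one_mul, sub_self] at h4
      exact h4) y ⟨h, le_rfl⟩
  have h5 : T.γ y - (y : ℂ) * ex (T.τ x) = T.γ x - (x : ℂ) * ex (T.τ x) := h3
  have h6 : T.γ y = T.γ x - (x : ℂ) * ex (T.τ x) + (y : ℂ) * ex (T.τ x) := by
    rw [← h5]; ring
  rw [h6]
  push_cast
  ring

private theorem Geo_hx_deriv (x y : ℝ) :
    HasDerivAt (fun y => hx T x y) (Real.sin (T.τ y - T.τ x)) y := by
  have h1 : HasDerivAt (fun y => (T.γ y - T.γ x) * ex (-(T.τ x))) (ex (T.τ y) * ex (-(T.τ x))) y :=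
    ((T.tangent y).sub_const (T.γ x)).mul_const (ex (-(T.τ x)))
  have h2 := (Complex.imCLM.hasFDerivAt (x := (T.γ y - T.γ x) * ex (-(T.τ x)))).comp_hasDerivAt y h1
  have h3 : Complex.imCLM (ex (T.τ y) * ex (-(T.τ x))) = Real.sin (T.τ y - T.τ x) := by
    rw [← ex_add, ← sub_eq_add_neg, Complex.imCLM_apply, Geo_ex_im]
  rw [h3] at h2
  exact h2

private theorem Geo_hx_self (x : ℝ) : hx T x x = 0 := by
  simp [hx]

private theorem Geo_hx_end (x : ℝ) : hx T x (x + T.L) = 0 := by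
  simp [hx, T.periodic]

private theorem Geo_hx_cont (x : ℝ) : Continuous (fun y => hx T x y) :=
  continuous_iff_continuousAt.2 fun y => (Geo_hx_deriv x y).continuousAt

private theorem Geo_mono {x y : ℝ} (hc : T.τ y - T.τ x ≤ Real.pi) :
    MonotoneOn (fun y => hx T x y) (Icc x y) := by
  refine monotoneOn_of_deriv_nonneg (convex_Icc x y) (Geo_hx_cont x).continuousOn
    (fun z _ => (Geo_hx_deriv x z).differentiableAt.differentiableWithinAt) ?_
  intro z hz
  have hz' := interior_subset hz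
  rw [(Geo_hx_deriv x z).deriv]
  refine Real.sin_nonneg_of_nonneg_of_le_pi ?_ ?_
  · have := tau_mono (T := T) hz'.1
    linarith
  · have := tau_mono (T := T) hz'.2
    linarith

private theorem Geo_anti {x y : ℝ} (hc : Real.pi ≤ T.τ y - T.τ x) :
    AntitoneOn (fun y => hx T x y) (Icc y (x + T.L)) := by
  refine antitoneOn_of_deriv_nonpos (convex_Icc y (x + T.L)) (Geo_hx_cont x).continuousOn
    (fun z _ => (Geo_hx_deriv x z).differentiableAt.differentiableWithinAt) ?_
  intro z hz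
  have hz' := interior_subset hz
  rw [(Geo_hx_deriv x z).deriv]
  have h1 := tau_mono (T := T) hz'.1
  have h2 := tau_mono (T := T) hz'.2
  rw [T.turning] at h2
  have h3 : 0 ≤ Real.sin (T.τ z - T.τ x - Real.pi) :=
    Real.sin_nonneg_of_nonneg_of_le_pi (by linarith) (by linarith)
  rw [Real.sin_sub_pi] at h3
  linarith

theorem hx_nonneg {x y : ℝ} (h : x ≤ y) (h' : y ≤ x + T.L) : 0 ≤ hx T x y := by
  rcases le_total (T.τ y - T.τ x) Real.pi with hc | hc
  · have := Geo_mono hc ⟨le_rfl, h⟩ ⟨h, le_rfl⟩ h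
    simp only [Geo_hx_self] at this
    exact this
  · have := Geo_anti hc ⟨le_rfl, h'⟩ ⟨h', le_rfl⟩ h'
    simp only [Geo_hx_end] at this
    exact this

theorem hy_eq (x y : ℝ) : hy T x y = hx T y (x + T.L) := by
  unfold hy hx
  rw [T.periodic, ← Complex.neg_im]
  congr 1
  ring

theorem hy_nonneg {x y : ℝ} (h : x ≤ y) (h' : y ≤ x + T.L) : 0 ≤ hy T x y := by
  rw [hy_eq]
  exact hx_nonneg h' (by linarith)

theorem tw_lt {x y : ℝ} (h : Tw T x y) : x < y ∧ y < x + T.L := by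
  constructor
  · by_contra hc
    have := tau_mono (T := T) (not_lt.1 hc)
    have := h.1
    linarith
  · by_contra hc
    have h1 := tau_mono (T := T) (not_lt.1 hc)
    rw [T.turning] at h1
    have := h.2
    linarith

theorem hx_pos {x y : ℝ} (h : Tw T x y) : 0 < hx T x y := by
  obtain ⟨hxy, hyL⟩ := tw_lt h
  have h0 := hx_nonneg hxy.le hyL.le
  rcases h0.lt_or_eq with h1 | h1
  · exact h1
  exfalso
  have hp := Real.pi_pos
  rcases le_total (T.τ y - T.τ x) Real.pi with hc | hc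
  · have hv : (T.τ x + T.τ y) / 2 ∈ Ioo (T.τ x) (T.τ y) := ⟨by linarith [h.1], by linarith [h.1]⟩
    obtain ⟨z, hz, hzv⟩ := intermediate_value_Ioo hxy.le Geo_tcont.continuousOn hv
    have h2 : ∀ u ∈ Icc x y, hx T x u = 0 := by
      intro u hu
      have h3 := Geo_mono hc hu ⟨hxy.le, le_rfl⟩ hu.2
      have h4 := Geo_mono hc ⟨le_rfl, hxy.le⟩ hu hu.1
      simp only [Geo_hx_self] at h3 h4
      linarith
    have h5 : HasDerivAt (fun y => hx T x y) 0 z := by
      refine (hasDerivAt_const z (0 : ℝ)).congr_of_eventuallyEq ?_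
      filter_upwards [Icc_mem_nhds hz.1 hz.2] with u hu
      exact h2 u hu
    have h6 := h5.unique (Geo_hx_deriv x z)
    have h7 : 0 < Real.sin (T.τ z - T.τ x) := by
      apply Real.sin_pos_of_pos_of_lt_pi
      · rw [hzv]; linarith [h.1]
      · rw [hzv]; linarith [h.1]
    linarith
  · have h8 := h.2
    have h9 : T.τ (x + T.L) = T.τ x + 2 * Real.pi := T.turning x
    have hv : (T.τ y + T.τ (x + T.L)) / 2 ∈ Ioo (T.τ y) (T.τ (x + T.L)) :=
      ⟨by linarith, by linarith⟩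
    obtain ⟨z, hz, hzv⟩ := intermediate_value_Ioo hyL.le Geo_tcont.continuousOn hv
    have h2 : ∀ u ∈ Icc y (x + T.L), hx T x u = 0 := by
      intro u hu
      have h3 := Geo_anti hc ⟨le_rfl, hyL.le⟩ hu hu.1
      have h4 := Geo_anti hc hu ⟨hyL.le, le_rfl⟩ hu.2
      simp only [Geo_hx_end] at h3 h4
      linarith
    have h5 : HasDerivAt (fun y => hx T x y) 0 z := by
      refine (hasDerivAt_const z (0 : ℝ)).congr_of_eventuallyEq ?_
      filter_upwards [Icc_mem_nhds hz.1 hz.2] with u hu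
      exact h2 u hu
    have h6 := h5.unique (Geo_hx_deriv x z)
    have h7 : 0 < Real.sin (T.τ z - T.τ x - Real.pi) := by
      apply Real.sin_pos_of_pos_of_lt_pi
      · rw [hzv]; linarith
      · rw [hzv]; linarith
    rw [Real.sin_sub_pi] at h7
    linarith

theorem hy_pos {x y : ℝ} (h : Tw T x y) : 0 < hy T x y := by
  rw [hy_eq]
  apply hx_pos
  constructor
  · rw [T.turning]; exact h.2
  · rw [T.turning]; linarith [h.1]

private theorem Geo_cases {x y : ℝ} (h : x < y) (h' : y < x + T.L) (hT : ¬ Tw T x y) :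
    T.τ y = T.τ x ∨ T.τ y = T.τ x + 2 * Real.pi := by
  have h1 := tau_mono (T := T) h.le
  have h2 := tau_mono (T := T) h'.le
  rw [T.turning] at h2
  by_cases h3 : T.τ x < T.τ y
  · right
    by_contra h4
    exact hT ⟨h3, lt_of_le_of_ne h2 h4⟩
  · left
    exact le_antisymm (not_lt.1 h3) h1

private theorem Geo_flat' {x y : ℝ} (h : y < x + T.L) (he : T.τ y = T.τ x + 2 * Real.pi) :
    T.γ y - T.γ x = -((x + T.L - y : ℝ) : ℂ) * ex (T.τ x) := by
  have h1 := (flat (T := T) h.le (by rw [T.turning, he])).2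
  rw [T.periodic, he, ex_two_pi] at h1
  rw [h1]
  ring

theorem len_pos {x y : ℝ} (h : x < y) (h' : y < x + T.L) : 0 < len T x y := by
  unfold len
  rw [norm_pos_iff]
  intro h0
  have h1 : hx T x y = 0 := by
    unfold hx
    rw [h0]
    simp
  have h2 : ¬ Tw T x y := fun hT => absurd (hx_pos hT) (by rw [h1]; exact lt_irrefl _)
  rcases Geo_cases h h' h2 with h3 | h3
  · have h4 := (flat (T := T) h.le h3).2
    have h5 : ((y - x : ℝ) : ℂ) * ex (T.τ x) = 0 := by
      rw [← h0, h4]; ring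
    rcases mul_eq_zero.1 h5 with h6 | h6
    · have h7 : y - x = 0 := by exact_mod_cast h6
      linarith
    · exact ex_ne _ h6
  · have h4 := Geo_flat' h' h3
    rw [h0] at h4
    rcases mul_eq_zero.1 h4.symm with h6 | h6
    · have h7 : x + T.L - y = 0 := by
        have h8 : ((x + T.L - y : ℝ) : ℂ) = 0 := neg_eq_zero.1 h6
        exact_mod_cast h8
      linarith
    · exact ex_ne _ h6

private theorem Geo_sq (z : ℂ) (a l : ℝ) (hl : 0 < l) (hz : ‖z‖ = l) :
    (-(z * ex a).re / l) ^ 2 + ((z * ex a).im / l) ^ 2 = 1 := by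
  have h1 : ‖z * ex a‖ = l := by rw [norm_mul, ex_norm, mul_one, hz]
  have h2 : (z * ex a).re ^ 2 + (z * ex a).im ^ 2 = l ^ 2 := by
    rw [← h1, Complex.sq_norm, Complex.normSq_apply]
    ring
  have h3 : l ≠ 0 := hl.ne'
  rw [div_pow, div_pow, ← add_div, neg_sq, h2]
  exact div_self (pow_ne_zero 2 h3)

theorem l1_sq {x y : ℝ} (h : x < y) (h' : y < x + T.L) : l1 T x y ^ 2 + (hx T x y / len T x y) ^ 2 = 1 :=
  Geo_sq (T.γ y - T.γ x) (-(T.τ x)) (len T x y) (len_pos h h') rfl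

theorem l2_sq {x y : ℝ} (h : x < y) (h' : y < x + T.L) : l2 T x y ^ 2 + (hy T x y / len T x y) ^ 2 = 1 := by
  have h1 := Geo_sq (T.γ y - T.γ x) (-(T.τ y)) (len T x y) (len_pos h h') rfl
  have h2 : l2 T x y ^ 2 = (-((T.γ y - T.γ x) * ex (-(T.τ y))).re / len T x y) ^ 2 := by
    unfold l2
    rw [div_pow, div_pow, neg_sq]
  have h3 : (hy T x y / len T x y) ^ 2 = (((T.γ y - T.γ x) * ex (-(T.τ y))).im / len T x y) ^ 2 := by
    unfold hy
    rw [div_pow, div_pow, neg_sq]
  rw [h2, h3]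
  exact h1

theorem l12_pos {x y : ℝ} (h : Tw T x y) : 0 < l12 T x y := by
  obtain ⟨h1, h2⟩ := tw_lt h
  exact div_pos (mul_pos (hx_pos h) (hy_pos h)) (pow_pos (len_pos h1 h2) 3)

theorem l12_nonneg {x y : ℝ} (h : x < y) (h' : y < x + T.L) : 0 ≤ l12 T x y :=
  div_nonneg (mul_nonneg (hx_nonneg h.le h'.le) (hy_nonneg h.le h'.le)) (pow_pos (len_pos h h') 3).le

/-- flat chords -/
theorem l_flat {x y : ℝ} (h : x < y) (he : T.τ y = T.τ x) : l1 T x y = -1 ∧ l2 T x y = 1 := by
  have h1 := (flat (T := T) h.le he).2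
  have h2 : T.γ y - T.γ x = ((y - x : ℝ) : ℂ) * ex (T.τ x) := by rw [h1]; ring
  have h3 : (T.γ y - T.γ x) * ex (-(T.τ x)) = ((y - x : ℝ) : ℂ) := by
    rw [h2, mul_assoc, Geo_ex_neg, mul_one]
  have h4 : len T x y = y - x := by
    unfold len
    rw [h2, norm_mul, ex_norm, mul_one, Complex.norm_real, Real.norm_eq_abs,
      abs_of_pos (by linarith)]
  have h5 : y - x ≠ 0 := by intro h6; linarith
  constructor
  · unfold l1
    rw [h3, h4, Complex.ofReal_re, neg_div, div_self h5]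
  · unfold l2
    rw [he, h3, h4, Complex.ofReal_re, div_self h5]

theorem l_flat' {x y : ℝ} (h : y < x + T.L) (he : T.τ y = T.τ x + 2 * Real.pi) :
    l1 T x y = 1 ∧ l2 T x y = -1 := by
  have h2 := Geo_flat' h he
  have h3 : (T.γ y - T.γ x) * ex (-(T.τ x)) = ((-(x + T.L - y) : ℝ) : ℂ) := by
    rw [h2, mul_assoc, Geo_ex_neg, mul_one]
    push_cast
    ring
  have h4 : len T x y = x + T.L - y := by
    unfold len
    rw [h2, norm_mul, ex_norm, mul_one, norm_neg, Complex.norm_real, Real.norm_eq_abs,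
      abs_of_pos (by linarith)]
  have h5 : x + T.L - y ≠ 0 := by intro h6; linarith
  constructor
  · unfold l1
    rw [h3, h4, Complex.ofReal_re, neg_neg, div_self h5]
  · unfold l2
    rw [he, Geo_ex_neg_per, h3, h4, Complex.ofReal_re, neg_div, div_self h5]

private theorem Geo_abs {a b : ℝ} (h : a ^ 2 + b ^ 2 = 1) (hb : 0 < b) : -1 < a ∧ a < 1 := by
  have h1 : 0 < b ^ 2 := pow_pos hb 2
  constructor <;> nlinarith

theorem l1_abs {x y : ℝ} (h : x < y) (h' : y < x + T.L) (hn : Tw T x y) : -1 < l1 T x y ∧ l1 T x y < 1 :=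
  Geo_abs (l1_sq h h') (div_pos (hx_pos hn) (len_pos h h'))

theorem l2_abs {x y : ℝ} (h : x < y) (h' : y < x + T.L) (hn : Tw T x y) : -1 < l2 T x y ∧ l2 T x y < 1 :=
  Geo_abs (l2_sq h h') (div_pos (hy_pos hn) (len_pos h h'))

private theorem Geo_dtau (x : ℝ) : deriv T.τ (x + T.L) = deriv T.τ x := by
  rw [← deriv_comp_add_const]
  have h1 : (fun y => T.τ (y + T.L)) = fun y => T.τ y + 2 * Real.pi := by
    funext y; exact T.turning y
  rw [h1, deriv_add_const]

/-- periodicity -/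
theorem shiftL (x y : ℝ) : len T (x + T.L) (y + T.L) = len T x y ∧ hx T (x + T.L) (y + T.L) = hx T x y ∧
    hy T (x + T.L) (y + T.L) = hy T x y ∧ l1 T (x + T.L) (y + T.L) = l1 T x y ∧
    l2 T (x + T.L) (y + T.L) = l2 T x y ∧ l12 T (x + T.L) (y + T.L) = l12 T x y ∧
    l11 T (x + T.L) (y + T.L) = l11 T x y ∧ l22 T (x + T.L) (y + T.L) = l22 T x y ∧
    (Tw T (x + T.L) (y + T.L) ↔ Tw T x y) := by
  have a1 : len T (x + T.L) (y + T.L) = len T x y := by
    unfold len; rw [T.periodic, T.periodic]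
  have a2 : hx T (x + T.L) (y + T.L) = hx T x y := by
    unfold hx; rw [T.periodic, T.periodic, T.turning, Geo_ex_neg_per]
  have a3 : hy T (x + T.L) (y + T.L) = hy T x y := by
    unfold hy; rw [T.periodic, T.periodic, T.turning, Geo_ex_neg_per]
  refine ⟨a1, a2, a3, ?_, ?_, ?_, ?_, ?_, ?_⟩
  · unfold l1; rw [a1, T.periodic, T.periodic, T.turning, Geo_ex_neg_per]
  · unfold l2; rw [a1, T.periodic, T.periodic, T.turning, Geo_ex_neg_per]
  · unfold l12; rw [a1, a2, a3]
  · unfold l11; rw [a1, a2, Geo_dtau]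
  · unfold l22; rw [a1, a3, Geo_dtau]
  · unfold Tw
    rw [T.turning, T.turning]
    constructor
    · rintro ⟨h1, h2⟩
      exact ⟨by linarith, by linarith⟩
    · rintro ⟨h1, h2⟩
      exact ⟨by linarith, by linarith⟩

theorem len_per (x y : ℝ) : len T x (y + T.L) = len T x y ∧ len T (x + T.L) y = len T x y := by
  unfold len
  rw [T.periodic, T.periodic]
  exact ⟨rfl, rfl⟩

end Pool.Agent.H1.BR
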