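import Pool.Agent.H1.BR.Lde

/-
ROW Sup.  Supermodularity (twist).  l12 >= 0 where x<y<x+L, > 0 on Tw chords.
sup_le: rectangle [a,a'] x [b,b'] inside {a <= b <= a + L}.  Phi(t) = len a t - len a' t on [b,b'] is continuous; on the open interval (b,b') (there a <= a' < t < a + L <= a'+L; note a' <= b < t, t < b' <= a+L) it has derivative
 l2 a t - l2 a' t <= 0, because u -> l2 u t has derivative l12 u t >= 0 on [a,a'] (u <= a' < t < a + L <= u + L).  So Phi b' <= Phi b: len a b' - len a' b' <= len a b - len a' b.
sup_lt: all points of the rectangle are Tw (tau u <= tau a' < tau b <= tau t and tau t <= tau b' < tau a + 2 pi <= tau u + 2 pi), strict monotonicity.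
l1_lt: t -> l1 a t has derivative l12 > 0 on [b,b'] (Tw a t for all t between).  l2_lt: u -> l2 u b has derivative l12 > 0 on [a,a'].
-/

set_option autoImplicit false
open Set Pool.Agent.H46.BL

namespace Pool.Agent.H1.BR

variable {T : Table}

theorem sup_tw {a a' b b' u t : ℝ} (ht : Tw T a' b) (ht' : Tw T a b')
    (hu : u ∈ Icc a a') (hs : t ∈ Icc b b') : Tw T u t := by
  have m := tau_mono (T := T)
  have e1 := m hu.1
  have e2 := m hu.2
  have e3 := m hs.1
  have e4 := m hs.2
  obtain ⟨h1, _⟩ := ht
  obtain ⟨_, h2⟩ := ht'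
  exact ⟨by linarith, by linarith⟩

/-- `l2` is monotone in the first argument -/
theorem l2_mono1 {a a' t : ℝ} (h1 : a ≤ a') (h2 : a' < t) (h3 : t < a + T.L) : l2 T a t ≤ l2 T a' t := by
  have hd : ∀ u ∈ Icc a a', HasDerivAt (fun x => l2 T x t) (l12 T u t) u := by
    intro u hu
    exact l2_d1 (lt_of_le_of_lt hu.2 h2) (by linarith [hu.1])
  have hm : MonotoneOn (fun x => l2 T x t) (Icc a a') := by
    apply monotoneOn_of_deriv_nonneg (convex_Icc a a')
    · intro u hu
      exact (hd u hu).continuousAt.continuousWithinAt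
    · intro u hu
      exact (hd u (interior_subset hu)).differentiableAt.differentiableWithinAt
    · intro u hu
      have hu' := interior_subset hu
      rw [(hd u hu').deriv]
      exact l12_nonneg (lt_of_le_of_lt hu'.2 h2) (by linarith [hu'.1])
  exact hm (left_mem_Icc.2 h1) (right_mem_Icc.2 h1) h1

theorem l2_lt {a a' b : ℝ} (h : a < a') (ht : Tw T a b) (ht' : Tw T a' b) : l2 T a b < l2 T a' b := by
  have htw : ∀ u ∈ Icc a a', Tw T u b := fun u hu =>
    sup_tw ht' ht hu (left_mem_Icc.2 le_rfl)
  have hd : ∀ u ∈ Icc a a', HasDerivAt (fun x => l2 T x b) (l12 T u b) u := by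
    intro u hu
    exact l2_d1 (tw_lt (htw u hu)).1 (tw_lt (htw u hu)).2
  have hm : StrictMonoOn (fun x => l2 T x b) (Icc a a') := by
    apply strictMonoOn_of_deriv_pos (convex_Icc a a')
    · intro u hu
      exact (hd u hu).continuousAt.continuousWithinAt
    · intro u hu
      have hu' := interior_subset hu
      rw [(hd u hu').deriv]
      exact l12_pos (htw u hu')
  exact hm (left_mem_Icc.2 h.le) (right_mem_Icc.2 h.le) h

theorem l1_lt {a b b' : ℝ} (h : b < b') (ht : Tw T a b) (ht' : Tw T a b') : l1 T a b < l1 T a b' := by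
  have htw : ∀ t ∈ Icc b b', Tw T a t := fun t hs =>
    sup_tw ht ht' (left_mem_Icc.2 le_rfl) hs
  have hd : ∀ t ∈ Icc b b', HasDerivAt (fun y => l1 T a y) (l12 T a t) t := by
    intro t hs
    exact l1_d2 (tw_lt (htw t hs)).1 (tw_lt (htw t hs)).2
  have hm : StrictMonoOn (fun y => l1 T a y) (Icc b b') := by
    apply strictMonoOn_of_deriv_pos (convex_Icc b b')
    · intro t hs
      exact (hd t hs).continuousAt.continuousWithinAt
    · intro t hs
      have hs' := interior_subset hs
      rw [(hd t hs').deriv]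
      exact l12_pos (htw t hs')
  exact hm (left_mem_Icc.2 h.le) (right_mem_Icc.2 h.le) h

theorem len_cont2 (a : ℝ) : Continuous (fun y => len T a y) :=
  len_cont.comp (continuous_const.prodMk continuous_id)

theorem sup_le {a a' b b' : ℝ} (h1 : a ≤ a') (h2 : a' ≤ b) (h3 : b ≤ b') (h4 : b' ≤ a + T.L) :
    len T a b' + len T a' b ≤ len T a b + len T a' b' := by
  have hd : ∀ t ∈ Ioo b b', HasDerivAt (fun y => len T a y - len T a' y) (l2 T a t - l2 T a' t) t := by
    intro t ht
    exact (len_d2 (by linarith [ht.1]) (by linarith [ht.2])).sub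
      (len_d2 (by linarith [ht.1]) (by linarith [ht.2]))
  have hm : AntitoneOn (fun y => len T a y - len T a' y) (Icc b b') := by
    apply antitoneOn_of_deriv_nonpos (convex_Icc b b')
    · exact ((len_cont2 a).sub (len_cont2 a')).continuousOn
    · intro t ht
      rw [interior_Icc] at ht
      exact (hd t ht).differentiableAt.differentiableWithinAt
    · intro t ht
      rw [interior_Icc] at ht
      rw [(hd t ht).deriv]
      have := l2_mono1 (T := T) h1 (t := t) (by linarith [ht.1]) (by linarith [ht.2])
      linarith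
  have := hm (left_mem_Icc.2 h3) (right_mem_Icc.2 h3) h3
  simp only at this
  linarith

theorem sup_lt {a a' b b' : ℝ} (h1 : a < a') (h3 : b < b') (ht : Tw T a' b) (ht' : Tw T a b') :
    len T a b' + len T a' b < len T a b + len T a' b' := by
  have hd : ∀ t ∈ Icc b b', HasDerivAt (fun y => len T a y - len T a' y) (l2 T a t - l2 T a' t) t := by
    intro t hs
    have e1 := tw_lt (sup_tw ht ht' (left_mem_Icc.2 h1.le) hs)
    have e2 := tw_lt (sup_tw ht ht' (right_mem_Icc.2 h1.le) hs)
    exact (len_d2 e1.1 e1.2).sub (len_d2 e2.1 e2.2)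
  have hm : StrictAntiOn (fun y => len T a y - len T a' y) (Icc b b') := by
    apply strictAntiOn_of_deriv_neg (convex_Icc b b')
    · exact ((len_cont2 a).sub (len_cont2 a')).continuousOn
    · intro t hs
      have hs' := interior_subset hs
      rw [(hd t hs').deriv]
      have := l2_lt h1 (sup_tw ht ht' (left_mem_Icc.2 h1.le) hs')
        (sup_tw ht ht' (right_mem_Icc.2 h1.le) hs')
      linarith
  have := hm (left_mem_Icc.2 h3.le) (right_mem_Icc.2 h3.le) h3
  simp only at this
  linarith

end Pool.Agent.H1.BR
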