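import Pool.Agent.H1.BR.Lde
import Pool.Agent.H1.BR.Sup
import Pool.Agent.H1.BR.Fha

/-
ROW Jac.  The derivatives of Fh along a trajectory.  (x,y,z) with Tw x y, Tw y z, l2 x y + l1 y z = 0.
jac1: fix y. For x' near x there is z' = Z(x') near z with l2 x' y + l1 y z' = 0, Z differentiable at x with Z' = - l12 x y / l12 y z (implicit/inverse function theorem in one variable: z' -> l1 y z' is C^1 with derivative l12 > 0 : local inverse;
   HasStrictDerivAt.localInverse or OpenPartialHomeomorph; or monotone inverse).  fh_inv: Fh x' y = Fh y Z(x'); differentiate: F1 x y = F2 y z * Z'.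
jac2: fix x. y' near y, z' = Z(y'): l2 x y' + l1 y' z' = 0, Z' = - (l22 x y + l11 y z)/l12 y z.  Fh x y' = Fh y' Z(y'): F2 x y = F1 y z + F2 y z * Z'.
   (two-variable implicit function theorem for G(y',z') = l2 x y' + l1 y' z', C^1 by l1_C1, l2_C1, with partial derivative l12 y z > 0 in z'.)
jac: put beta = F2 / l12 on chords: F1 x y = - l12 x y * beta(y,z), so F1 (y,z) = - l12 y z * beta(z,w) for the next chord; jac2 becomes
   l12 x y beta(x,y) + (l22 x y + l11 y z) beta(y,z) + l12 y z beta(z,w) = 0.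
-/

set_option autoImplicit false
open Set Filter Topology Pool.Agent.H46.BL

namespace Pool.Agent.H1.BR

variable {T : Table} {F : ℂ → ℂ → ℝ}

/-- the two partial derivatives of a differentiable function -/
private theorem Jac_par {G : ℝ × ℝ → ℝ} {s0 z0 a b c : ℝ} (hG : DifferentiableAt ℝ G (s0, z0))
    (h1 : HasDerivAt (fun s => G (s, z0)) a s0) (h2 : HasDerivAt (fun z => G (s0, z)) b z0)
    {Z : ℝ → ℝ} (hZ0 : Z s0 = z0) (hZ : HasDerivAt Z c s0) :
    HasDerivAt (fun s => G (s, Z s)) (a + b * c) s0 := by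
  have hF : HasFDerivAt G (fderiv ℝ G (s0, z0)) (s0, z0) := hG.hasFDerivAt
  have e1 : fderiv ℝ G (s0, z0) (1, 0) = a := by
    have h3 : HasDerivAt (fun s : ℝ => (s, z0)) ((1 : ℝ), (0 : ℝ)) s0 :=
      (hasDerivAt_id s0).prodMk (hasDerivAt_const s0 z0)
    have h4 := hF.comp_hasDerivAt (f := fun s : ℝ => (s, z0)) s0 h3
    exact h4.unique h1
  have e2 : fderiv ℝ G (s0, z0) (0, 1) = b := by
    have h3 : HasDerivAt (fun z : ℝ => (s0, z)) ((0 : ℝ), (1 : ℝ)) z0 :=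
      (hasDerivAt_const z0 s0).prodMk (hasDerivAt_id z0)
    have h4 := hF.comp_hasDerivAt (f := fun z : ℝ => (s0, z)) z0 h3
    exact h4.unique h2
  have h5 : HasDerivAt (fun s : ℝ => (s, Z s)) ((1 : ℝ), c) s0 :=
    (hasDerivAt_id s0).prodMk hZ
  have hF' : HasFDerivAt G (fderiv ℝ G (s0, z0)) (s0, Z s0) := by
    rw [hZ0]
    exact hF
  have h6 := hF'.comp_hasDerivAt (f := fun s : ℝ => (s, Z s)) s0 h5
  have e3 : ((1 : ℝ), c) = ((1 : ℝ), (0 : ℝ)) + c • ((0 : ℝ), (1 : ℝ)) := by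
    ext <;> simp
  have e4 : fderiv ℝ G (s0, z0) ((1 : ℝ), c) = a + b * c := by
    rw [e3, map_add, map_smul, e1, e2, smul_eq_mul, mul_comm]
  rw [← e4]
  exact h6

/-- implicit function theorem -/
private theorem Jac_imp {G : ℝ × ℝ → ℝ} {s0 z0 a b : ℝ} (hG : ContDiffAt ℝ 1 G (s0, z0))
    (h1 : HasDerivAt (fun s => G (s, z0)) a s0) (h2 : HasDerivAt (fun z => G (s0, z)) b z0)
    (hb : b ≠ 0) (h0 : G (s0, z0) = 0) :
    ∃ Z : ℝ → ℝ, Z s0 = z0 ∧ HasDerivAt Z (-a / b) s0 ∧ ∀ᶠ s in 𝓝 s0, G (s, Z s) = 0 := by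
  have hd : DifferentiableAt ℝ G (s0, z0) := hG.differentiableAt one_ne_zero
  have hs : HasStrictFDerivAt G (fderiv ℝ G (s0, z0)) (s0, z0) := hG.hasStrictFDerivAt one_ne_zero
  have e2 : fderiv ℝ G (s0, z0) (0, 1) = b := by
    have h3 : HasDerivAt (fun z : ℝ => (s0, z)) ((0 : ℝ), (1 : ℝ)) z0 :=
      (hasDerivAt_const z0 s0).prodMk (hasDerivAt_id z0)
    have h4 := hd.hasFDerivAt.comp_hasDerivAt (f := fun z : ℝ => (s0, z)) z0 h3
    exact h4.unique h2
  have hinv : ((fderiv ℝ G (s0, z0)).comp (ContinuousLinearMap.inr ℝ ℝ ℝ)).IsInvertible := by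
    refine ⟨ContinuousLinearEquiv.unitsEquivAut ℝ (Units.mk0 b hb), ?_⟩
    ext
    simp [e2]
  obtain ⟨Z, hZ⟩ : ∃ Z : ℝ → ℝ, Z = hs.implicitFunctionOfProdDomain hinv := ⟨_, rfl⟩
  have hZ0 : Z s0 = z0 := by
    rw [hZ]
    exact (hs.eventually_apply_eq_iff_implicitFunctionOfProdDomain hinv).self_of_nhds.mp rfl
  have hZe : ∀ᶠ s in 𝓝 s0, G (s, Z s) = 0 := by
    have := hs.eventually_apply_implicitFunctionOfProdDomain hinv
    rw [← hZ, h0] at this
    exact this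
  have hZd : DifferentiableAt ℝ Z s0 := by
    rw [hZ]
    exact (hs.hasStrictFDerivAt_implicitFunctionOfProdDomain hinv).hasFDerivAt.differentiableAt
  have h5 := Jac_par hd h1 h2 hZ0 hZd.hasDerivAt
  have h6 : HasDerivAt (fun s => G (s, Z s)) 0 s0 :=
    (hasDerivAt_const s0 (0 : ℝ)).congr_of_eventuallyEq hZe
  have h7 := h5.unique h6
  refine ⟨Z, hZ0, ?_, hZe⟩
  have h8 : deriv Z s0 = -a / b := by
    rw [eq_div_iff hb]
    linarith
  rw [← h8]
  exact hZd.hasDerivAt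

private theorem Jac_cont : Continuous T.τ := T.smooth.continuous

private theorem Jac_tw {x y : ℝ} (h : Tw T x y) {f g : ℝ → ℝ} {s0 : ℝ} (hf : ContinuousAt f s0)
    (hg : ContinuousAt g s0) (hf0 : f s0 = x) (hg0 : g s0 = y) : ∀ᶠ s in 𝓝 s0, Tw T (f s) (g s) := by
  have c1 : ContinuousAt (fun s => T.τ (f s)) s0 := (Jac_cont (T := T)).continuousAt.comp hf
  have c2 : ContinuousAt (fun s => T.τ (g s)) s0 := (Jac_cont (T := T)).continuousAt.comp hg
  have h1 : T.τ (f s0) < T.τ (g s0) := by rw [hf0, hg0]; exact h.1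
  have h2 : T.τ (g s0) < T.τ (f s0) + 2 * Real.pi := by rw [hf0, hg0]; exact h.2
  filter_upwards [c1.eventually_lt c2 h1, c2.eventually_lt (c1.add_const _) h2] with s a b
  exact ⟨a, b⟩

private theorem Jac_F1 (hF : T.Integral F) {x y : ℝ} (h : Tw T x y) :
    DifferentiableAt ℝ (fun z : ℝ × ℝ => Fh T F z.1 z.2) (x, y) ∧
    HasDerivAt (fun s => Fh T F s y) (F1 T F x y) x ∧
    HasDerivAt (fun z => Fh T F x z) (F2 T F x y) y := by
  have h1 : DifferentiableAt ℝ (fun z : ℝ × ℝ => Fh T F z.1 z.2) (x, y) :=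
    (fh_smooth hF (tw_lt h).1 (tw_lt h).2).differentiableAt (by simp)
  refine ⟨h1, ?_, ?_⟩
  · have h2 : DifferentiableAt ℝ (fun s => Fh T F s y) x := by
      have h3 : DifferentiableAt ℝ (fun s : ℝ => (s, y)) x :=
        differentiableAt_id.prodMk (differentiableAt_const y)
      exact DifferentiableAt.comp x (g := fun z : ℝ × ℝ => Fh T F z.1 z.2) h1 h3
    exact h2.hasDerivAt
  · have h2 : DifferentiableAt ℝ (fun z => Fh T F x z) y := by
      have h3 : DifferentiableAt ℝ (fun z : ℝ => (x, z)) y :=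
        (differentiableAt_const x).prodMk differentiableAt_id
      exact DifferentiableAt.comp y (g := fun z : ℝ × ℝ => Fh T F z.1 z.2) h1 h3
    exact h2.hasDerivAt

theorem jac1 (hF : T.Integral F) {x y z : ℝ} (h : Tw T x y) (h' : Tw T y z) (he : l2 T x y + l1 T y z = 0) :
    F1 T F x y = - l12 T x y * (F2 T F y z / l12 T y z) := by
  obtain ⟨a1, a2⟩ := tw_lt h
  obtain ⟨b1, b2⟩ := tw_lt h'
  have hb := l12_pos h'
  have hG : ContDiffAt ℝ 1 (fun p : ℝ × ℝ => l2 T p.1 y + l1 T y p.2) (x, z) := by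
    have g1 : ContDiffAt ℝ 1 (fun p : ℝ × ℝ => l2 T p.1 y) (x, z) := by
      have k1 : ContDiffAt ℝ 1 (fun p : ℝ × ℝ => (p.1, y)) (x, z) :=
        contDiffAt_fst.prodMk contDiffAt_const
      exact ContDiffAt.comp (x, z) (g := fun p : ℝ × ℝ => l2 T p.1 p.2) (l2_C1 a1 a2) k1
    have g2 : ContDiffAt ℝ 1 (fun p : ℝ × ℝ => l1 T y p.2) (x, z) := by
      have k1 : ContDiffAt ℝ 1 (fun p : ℝ × ℝ => (y, p.2)) (x, z) :=
        contDiffAt_const.prodMk contDiffAt_snd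
      exact ContDiffAt.comp (x, z) (g := fun p : ℝ × ℝ => l1 T p.1 p.2) (l1_C1 b1 b2) k1
    exact g1.add g2
  have h1 : HasDerivAt (fun s => l2 T s y + l1 T y z) (l12 T x y) x := (l2_d1 a1 a2).add_const _
  have h2 : HasDerivAt (fun w => l2 T x y + l1 T y w) (l12 T y z) z := (l1_d2 b1 b2).const_add _
  obtain ⟨Z, hZ0, hZ, hZe⟩ := Jac_imp hG h1 h2 hb.ne' he
  have hZ' : HasDerivAt Z (-l12 T x y / l12 T y z) x := hZ
  obtain ⟨-, d1, -⟩ := Jac_F1 hF h
  obtain ⟨-, -, d2⟩ := Jac_F1 hF h'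
  rw [← hZ0] at d2
  have d3 := d2.comp x hZ'
  have t1 := Jac_tw h (f := fun s => s) (g := fun _ => y) (s0 := x) continuousAt_id
    continuousAt_const rfl rfl
  have t2 := Jac_tw h' (f := fun _ => y) (g := Z) (s0 := x) continuousAt_const
    hZ'.continuousAt rfl hZ0
  have d4 : HasDerivAt (fun s => Fh T F s y) (F2 T F y z * (-l12 T x y / l12 T y z)) x := by
    rw [hZ0] at d3
    refine d3.congr_of_eventuallyEq ?_
    filter_upwards [t1, t2, hZe] with s s1 s2 s3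
    exact fh_inv hF s1 s2 s3
  rw [d1.unique d4]
  ring

theorem jac2 (hF : T.Integral F) {x y z : ℝ} (h : Tw T x y) (h' : Tw T y z) (he : l2 T x y + l1 T y z = 0) :
    F2 T F x y = F1 T F y z - F2 T F y z * ((l22 T x y + l11 T y z) / l12 T y z) := by
  obtain ⟨a1, a2⟩ := tw_lt h
  obtain ⟨b1, b2⟩ := tw_lt h'
  have hb := l12_pos h'
  have hG : ContDiffAt ℝ 1 (fun p : ℝ × ℝ => l2 T x p.1 + l1 T p.1 p.2) (y, z) := by
    have g1 : ContDiffAt ℝ 1 (fun p : ℝ × ℝ => l2 T x p.1) (y, z) := by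
      have k1 : ContDiffAt ℝ 1 (fun p : ℝ × ℝ => (x, p.1)) (y, z) :=
        contDiffAt_const.prodMk contDiffAt_fst
      exact ContDiffAt.comp (y, z) (g := fun p : ℝ × ℝ => l2 T p.1 p.2) (l2_C1 a1 a2) k1
    exact g1.add (l1_C1 b1 b2)
  have h1 : HasDerivAt (fun s => l2 T x s + l1 T s z) (l22 T x y + l11 T y z) y :=
    (l2_d2 a1 a2).add (l1_d1 b1 b2)
  have h2 : HasDerivAt (fun w => l2 T x y + l1 T y w) (l12 T y z) z := (l1_d2 b1 b2).const_add _
  obtain ⟨Z, hZ0, hZ, hZe⟩ := Jac_imp hG h1 h2 hb.ne' he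
  have hZ' : HasDerivAt Z (-(l22 T x y + l11 T y z) / l12 T y z) y := hZ
  obtain ⟨-, -, d1⟩ := Jac_F1 hF h
  obtain ⟨c1, c2, c3⟩ := Jac_F1 hF h'
  have d3 : HasDerivAt (fun s => Fh T F s (Z s))
      (F1 T F y z + F2 T F y z * (-(l22 T x y + l11 T y z) / l12 T y z)) y :=
    Jac_par c1 c2 c3 hZ0 hZ'
  have t1 := Jac_tw h (f := fun _ => x) (g := fun s => s) (s0 := y) continuousAt_const
    continuousAt_id rfl rfl
  have t2 := Jac_tw h' (f := fun s => s) (g := Z) (s0 := y) continuousAt_id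
    hZ'.continuousAt rfl hZ0
  have d4 : HasDerivAt (fun s => Fh T F x s)
      (F1 T F y z + F2 T F y z * (-(l22 T x y + l11 T y z) / l12 T y z)) y := by
    refine d3.congr_of_eventuallyEq ?_
    filter_upwards [t1, t2, hZe] with s s1 s2 s3
    exact fh_inv hF s1 s2 s3
  rw [d1.unique d4]
  ring

theorem jac (hF : T.Integral F) {x y z w : ℝ} (h : Tw T x y) (h' : Tw T y z) (h'' : Tw T z w)
    (he : l2 T x y + l1 T y z = 0) (he' : l2 T y z + l1 T z w = 0) :
    l12 T x y * (F2 T F x y / l12 T x y) + (l22 T x y + l11 T y z) * (F2 T F y z / l12 T y z)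
      + l12 T y z * (F2 T F z w / l12 T z w) = 0 := by
  have h1 := jac2 hF h h' he
  have h2 := jac1 hF h' h'' he'
  have h3 : l12 T x y * (F2 T F x y / l12 T x y) = F2 T F x y :=
    mul_div_cancel₀ _ (l12_pos h).ne'
  rw [h3, h1, h2]
  ring

end Pool.Agent.H1.BR
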