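import Mathlib

/-
ROW Ker.  Kernel vectors of a periodic Jacobi form <= 0 with positive off-diagonal entries have no zeros.
Q(xi) = sum_{i<q} (A i xi_i^2 + 2 R i xi_i xi_{i+1} + B i xi_{i+1}^2) <= 0 for all q-periodic xi (A, R, B q-periodic, R > 0), and b is q-periodic with R i b_i + (B i + A (i+1)) b_{i+1} + R (i+1) b_{i+2} = 0 for all i.
Then Q(b) = 0 (sum b_{i+1} * equation, periodic reindexing).  |b|: Q(|b|) - Q(b) = 2 sum R i (|b_i b_{i+1}| - b_i b_{i+1}) >= 0 so Q(|b|) = 0, and Q <= 0 gives (Q(|b| + t e) <= 0 for all real t and q-periodic e, derivative at t=0)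
 the Jacobi equation for |b|.  If b_{j} = 0 for some j, take the equation centred at j (index j + q if j = 0): R |b_{j-1}| + R |b_{j+1}| = 0, so b_{j+1} = 0, and so all b = 0.
-/

set_option autoImplicit false
open Set Filter Topology

namespace Pool.Agent.H1.BR

theorem Ker_shift (q : ℕ) (g : ℕ → ℝ) (hg : ∀ i, g (i + q) = g i) :
    ∑ i ∈ Finset.range q, g (i + 1) = ∑ i ∈ Finset.range q, g i := by
  have h1 := Finset.sum_range_succ g q
  have h2 := Finset.sum_range_succ' g q
  have h3 : g q = g 0 := by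
    have := hg 0
    rwa [zero_add] at this
  linarith

/-- the polar form, tested with `e` -/
theorem Ker_polar (q : ℕ) (A B R c e : ℕ → ℝ) (hA : ∀ i, A (i + q) = A i)
    (hR : ∀ i, R (i + q) = R i) (hc : ∀ i, c (i + q) = c i) (he : ∀ i, e (i + q) = e i) :
    ∑ i ∈ Finset.range q, (A i * (c i * e i) + R i * (c i * e (i + 1) + e i * c (i + 1)) +
      B i * (c (i + 1) * e (i + 1))) =
    ∑ i ∈ Finset.range q, e (i + 1) *
      (R i * c i + (B i + A (i + 1)) * c (i + 1) + R (i + 1) * c (i + 2)) := by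
  have h1 := Ker_shift q (fun i => A i * (c i * e i)) (fun i => by
    simp only [hA, hc, he])
  have h2 := Ker_shift q (fun i => R i * (e i * c (i + 1))) (fun i => by
    have : c (i + q + 1) = c (i + 1) := by
      rw [show i + q + 1 = (i + 1) + q by ring, hc]
    simp only [hR, he, this])
  have e1 : ∑ i ∈ Finset.range q, (A i * (c i * e i) + R i * (c i * e (i + 1) + e i * c (i + 1)) +
      B i * (c (i + 1) * e (i + 1))) = ∑ i ∈ Finset.range q, A i * (c i * e i) +
      ∑ i ∈ Finset.range q, R i * (e i * c (i + 1)) +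
      ∑ i ∈ Finset.range q, (R i * (c i * e (i + 1)) + B i * (c (i + 1) * e (i + 1))) := by
    rw [← Finset.sum_add_distrib, ← Finset.sum_add_distrib]
    exact Finset.sum_congr rfl fun i _ => by ring
  rw [e1, ← h1, ← h2, ← Finset.sum_add_distrib, ← Finset.sum_add_distrib]
  refine Finset.sum_congr rfl fun i _ => ?_
  have : i + 1 + 1 = i + 2 := by ring
  rw [this]
  ring

theorem Ker_lin (L K : ℝ) (h : ∀ t : ℝ, 2 * t * L + t ^ 2 * K ≤ 0) : L = 0 := by
  by_contra hL
  have hK : 0 < |K| + 1 := by positivity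
  have h1 := h (L / (|K| + 1))
  have h2 : 0 < L ^ 2 := by positivity
  have h3 : -|K| ≤ K := neg_abs_le K
  have e1 : 2 * (L / (|K| + 1)) * L + (L / (|K| + 1)) ^ 2 * K =
      (L ^ 2 / (|K| + 1) ^ 2) * (2 * (|K| + 1) + K) := by
    field_simp
  rw [e1] at h1
  have h4 : 0 < L ^ 2 / (|K| + 1) ^ 2 := by positivity
  have h5 : 0 < 2 * (|K| + 1) + K := by
    have := abs_nonneg K
    linarith
  exact absurd h1 (not_le.mpr (mul_pos h4 h5))

theorem nodeless (q : ℕ) (hq : 0 < q) (A B R b : ℕ → ℝ) (hA : ∀ i, A (i + q) = A i) (hB : ∀ i, B (i + q) = B i)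
    (hR : ∀ i, R (i + q) = R i) (hb : ∀ i, b (i + q) = b i) (hRp : ∀ i, 0 < R i)
    (hQ : ∀ ξ : ℕ → ℝ, (∀ i, ξ (i + q) = ξ i) →
      ∑ i ∈ Finset.range q, (A i * ξ i ^ 2 + 2 * R i * (ξ i * ξ (i + 1)) + B i * ξ (i + 1) ^ 2) ≤ 0)
    (hJ : ∀ i, R i * b i + (B i + A (i + 1)) * b (i + 1) + R (i + 1) * b (i + 2) = 0)
    (hne : ∃ i, b i ≠ 0) : ∀ i, b i ≠ 0 := by
  set Q : (ℕ → ℝ) → ℝ := fun ξ => ∑ i ∈ Finset.range q,
    (A i * ξ i ^ 2 + 2 * R i * (ξ i * ξ (i + 1)) + B i * ξ (i + 1) ^ 2) with hQdef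
  set J : (ℕ → ℝ) → ℕ → ℝ := fun c i =>
    R i * c i + (B i + A (i + 1)) * c (i + 1) + R (i + 1) * c (i + 2) with hJdef
  -- periodicity of J
  have hJper : ∀ c : ℕ → ℝ, (∀ i, c (i + q) = c i) → ∀ i, J c (i + q) = J c i := by
    intro c hc i
    have s1 : A (i + q + 1) = A (i + 1) := by rw [show i + q + 1 = (i + 1) + q by ring, hA]
    have s2 : R (i + q + 1) = R (i + 1) := by rw [show i + q + 1 = (i + 1) + q by ring, hR]
    have s3 : c (i + q + 1) = c (i + 1) := by rw [show i + q + 1 = (i + 1) + q by ring, hc]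
    have s4 : c (i + q + 2) = c (i + 2) := by rw [show i + q + 2 = (i + 2) + q by ring, hc]
    simp only [hJdef, s1, s2, s3, s4, hR, hB, hc]
  -- Q(b) = 0
  have hQb : Q b = 0 := by
    have h1 := Ker_polar q A B R b b hA hR hb hb
    have h2 : ∑ i ∈ Finset.range q, b (i + 1) *
      (R i * b i + (B i + A (i + 1)) * b (i + 1) + R (i + 1) * b (i + 2)) = 0 := by
      refine Finset.sum_eq_zero fun i _ => ?_
      rw [hJ i, mul_zero]
    rw [h2] at h1
    rw [← h1]
    simp only [hQdef]
    exact Finset.sum_congr rfl fun i _ => by ring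
  set c : ℕ → ℝ := fun i => |b i| with hcdef
  have hc : ∀ i, c (i + q) = c i := fun i => by simp only [hcdef, hb]
  have hQc : Q c = 0 := by
    refine le_antisymm (hQ c hc) ?_
    have h1 : Q c - Q b = ∑ i ∈ Finset.range q,
        2 * R i * (|b i * b (i + 1)| - b i * b (i + 1)) := by
      simp only [hQdef, hcdef]
      rw [← Finset.sum_sub_distrib]
      refine Finset.sum_congr rfl fun i _ => ?_
      rw [sq_abs, sq_abs, ← abs_mul]
      ring
    have h2 : 0 ≤ ∑ i ∈ Finset.range q, 2 * R i * (|b i * b (i + 1)| - b i * b (i + 1)) := by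
      refine Finset.sum_nonneg fun i _ => ?_
      have h3 := le_abs_self (b i * b (i + 1))
      have h4 := hRp i
      exact mul_nonneg (by linarith) (by linarith)
    rw [hQb, sub_zero] at h1
    rw [h1]
    exact h2
  -- the Jacobi equation for |b|
  have hJc : ∀ i, J c i = 0 := by
    set e : ℕ → ℝ := fun i => J c (i + (q - 1)) with hedef
    have he : ∀ i, e (i + q) = e i := by
      intro i
      simp only [hedef]
      rw [show i + q + (q - 1) = (i + (q - 1)) + q by omega, hJper c hc]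
    have he1 : ∀ i, e (i + 1) = J c i := by
      intro i
      simp only [hedef]
      rw [show i + 1 + (q - 1) = i + q by omega, hJper c hc]
    have hL : ∑ i ∈ Finset.range q, (A i * (c i * e i) + R i * (c i * e (i + 1) + e i * c (i + 1)) +
      B i * (c (i + 1) * e (i + 1))) = 0 := by
      refine Ker_lin _ (Q e) fun t => ?_
      have h1 : Q (fun i => c i + t * e i) ≤ 0 := hQ _ (fun i => by simp only [hc, he])
      have h2 : Q (fun i => c i + t * e i) = Q c + 2 * t *
          (∑ i ∈ Finset.range q, (A i * (c i * e i) + R i * (c i * e (i + 1) + e i * c (i + 1)) +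
            B i * (c (i + 1) * e (i + 1)))) + t ^ 2 * Q e := by
        simp only [hQdef]
        rw [Finset.mul_sum, Finset.mul_sum, ← Finset.sum_add_distrib, ← Finset.sum_add_distrib]
        refine Finset.sum_congr rfl fun i _ => ?_
        ring
      rw [h2, hQc, zero_add] at h1
      exact h1
    rw [Ker_polar q A B R c e hA hR hc he] at hL
    have h3 : ∑ i ∈ Finset.range q, J c i ^ 2 = 0 := by
      rw [← hL]
      refine Finset.sum_congr rfl fun i _ => ?_
      rw [he1 i, pow_two]
    have h4 : ∀ i ∈ Finset.range q, J c i ^ 2 = 0 :=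
      (Finset.sum_eq_zero_iff_of_nonneg fun i _ => sq_nonneg _).1 h3
    have h5 : ∀ n i, J c (i + n * q) = J c i := by
      intro n
      induction n with
      | zero => intro i; rw [zero_mul, add_zero]
      | succ n ih => intro i; rw [show i + (n + 1) * q = (i + n * q) + q by ring, hJper c hc, ih]
    intro i
    have h6 := h4 (i % q) (Finset.mem_range.2 (Nat.mod_lt i hq))
    have h7 := h5 (i / q) (i % q)
    rw [show i % q + i / q * q = i from by rw [mul_comm]; exact Nat.mod_add_div i q] at h7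
    rw [h7]
    exact pow_eq_zero_iff two_ne_zero |>.1 h6
  -- propagation of zeros
  have hstep : ∀ i, c (i + 1) = 0 → c (i + 2) = 0 := by
    intro i hi
    have h1 : R i * c i + (B i + A (i + 1)) * c (i + 1) + R (i + 1) * c (i + 2) = 0 := hJc i
    rw [hi, mul_zero, add_zero] at h1
    have h2 : 0 ≤ R i * c i := mul_nonneg (hRp i).le (abs_nonneg _)
    have h3 : 0 ≤ R (i + 1) * c (i + 2) := mul_nonneg (hRp (i + 1)).le (abs_nonneg _)
    have h4 : R (i + 1) * c (i + 2) = 0 := by linarith
    exact (mul_eq_zero.1 h4).resolve_left (hRp (i + 1)).ne'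
  have hbn : ∀ n i, b (i + n * q) = b i := by
    intro n
    induction n with
    | zero => intro i; rw [zero_mul, add_zero]
    | succ n ih => intro i; rw [show i + (n + 1) * q = (i + n * q) + q by ring, hb, ih]
  intro j hj
  obtain ⟨k, hk⟩ := hne
  apply hk
  have hz : ∀ n, c (j + q + n) = 0 := by
    intro n
    induction n with
    | zero =>
      rw [add_zero, hc]
      simp only [hcdef, hj, abs_zero]
    | succ n ih =>
      obtain ⟨m, hm⟩ : ∃ m, j + q + n = m + 1 := ⟨j + q + n - 1, by omega⟩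
      rw [hm] at ih
      rw [show j + q + (n + 1) = m + 2 by omega]
      exact hstep m ih
  have hbig : j + q ≤ k + (j + q) * q := by
    have : (j + q) * 1 ≤ (j + q) * q := Nat.mul_le_mul_left _ hq
    omega
  obtain ⟨n, hn⟩ : ∃ n, k + (j + q) * q = j + q + n := ⟨_, (Nat.add_sub_cancel' hbig).symm⟩
  have h1 := hz n
  rw [← hn] at h1
  have h2 : b (k + (j + q) * q) = 0 := abs_eq_zero.1 h1
  rw [hbn] at h2
  exact h2

end Pool.Agent.H1.BR
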