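import Pool.Agent.H1.BR.Geo

/-
ROW Lde.  Derivatives of the chord length l(x,y) = |g y - g x| where x < y < x + L (len_pos).
D = g y - g x = l e^{i phi}, theta = phi - tau x, theta' = tau y - phi, kappa = tau'.
d/dx D = - e^{i tau x}, d/dy D = e^{i tau y} (T.tangent); d/dx e^{-i tau x} = - i kappa(x) e^{-i tau x}.
 l_x = - Re(e^{-i tau x} D)/l = -cos theta = l1;  l_y = cos theta' = l2.
 (l1)_x = sin^2 theta/l - kappa(x) sin theta = l11;  (l1)_y = sin theta sin theta'/l = l12 = (l2)_x;  (l2)_y = sin^2 theta'/l - kappa(y) sin theta' = l22.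
 [e.g. d/dx Re(e^{-i tau x} D) = kappa Im(e^{-i tau x} D) - 1;  d/dy Re(e^{-i tau x}D) = Re e^{i(tau y - tau x)} = cos(theta+theta') and cos th cos th' - cos(th+th') = sin th sin th';
  all polynomial identities in re and im parts of D e^{-i tau x}, D e^{-i tau y} with |.|^2 = l^2.]
T.γ_smooth (H46.BL.Bas), T.smooth, ex_smooth give ContDiff infinity of everything; norm is smooth away from 0.
-/

set_option autoImplicit false
open Set Pool.Agent.H46.BL

namespace Pool.Agent.H1.BR

variable {T : Table}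

/-! ### auxiliary facts -/

private theorem ex_hd (a : ℝ) : HasDerivAt ex (ex a * Complex.I) a := by
  unfold ex
  have h1 : HasDerivAt (fun s : ℝ => (s : ℂ)) 1 a := Complex.ofRealCLM.hasDerivAt
  have h2 := (h1.mul_const Complex.I).cexp
  refine h2.congr_deriv ?_
  rw [one_mul]

private theorem tau_hd (T : Table) (x : ℝ) : HasDerivAt T.τ (deriv T.τ x) x :=
  (T.smooth.differentiable (by simp) x).hasDerivAt

private theorem exn_hd (T : Table) (x : ℝ) :
    HasDerivAt (fun x => ex (-(T.τ x))) (-((deriv T.τ x : ℝ) : ℂ) * (ex (-(T.τ x)) * Complex.I)) x := by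
  have h1 : HasDerivAt (fun x => -(T.τ x)) (-(deriv T.τ x)) x := (tau_hd T x).neg
  have h2 := HasDerivAt.scomp x (ex_hd (-(T.τ x))) h1
  refine h2.congr_deriv ?_
  rw [Complex.real_smul]
  push_cast
  ring

private theorem re_hd {f : ℝ → ℂ} {f' : ℂ} {s : ℝ} (h : HasDerivAt f f' s) :
    HasDerivAt (fun s => (f s).re) f'.re s :=
  (Complex.reCLM.hasFDerivAt (x := f s)).comp_hasDerivAt s h

private theorem im_hd {f : ℝ → ℂ} {f' : ℂ} {s : ℝ} (h : HasDerivAt f f' s) :
    HasDerivAt (fun s => (f s).im) f'.im s :=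
  (Complex.imCLM.hasFDerivAt (x := f s)).comp_hasDerivAt s h

private theorem ex_mul_neg (a : ℝ) : ex a * ex (-a) = 1 := by
  rw [← ex_add, add_neg_cancel]
  unfold ex
  simp

/-- the real part of the chord in the frame of `x` and of `y` -/
private noncomputable def pA (T : Table) (x y : ℝ) : ℝ := ((T.γ y - T.γ x) * ex (-(T.τ x))).re
private noncomputable def pQ (T : Table) (x y : ℝ) : ℝ := ((T.γ y - T.γ x) * ex (-(T.τ y))).re

private theorem l1_eq (T : Table) (x y : ℝ) : l1 T x y = -(pA T x y) / len T x y := rfl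
private theorem l2_eq (T : Table) (x y : ℝ) : l2 T x y = pQ T x y / len T x y := rfl

/-- `x` derivatives -/
private theorem wx_hd (T : Table) (x y : ℝ) :
    HasDerivAt (fun x => (T.γ y - T.γ x) * ex (-(T.τ x)))
      (-1 - ((deriv T.τ x : ℝ) : ℂ) * Complex.I * ((T.γ y - T.γ x) * ex (-(T.τ x)))) x := by
  have h1 : HasDerivAt (fun x => T.γ y - T.γ x) (-(ex (T.τ x))) x := (T.tangent x).const_sub _
  have h2 := h1.mul (exn_hd T x)
  refine h2.congr_deriv ?_
  have h3 := ex_mul_neg (T.τ x)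
  linear_combination (-1 : ℂ) * h3

private theorem wy_hd (T : Table) (x y : ℝ) :
    HasDerivAt (fun y => (T.γ y - T.γ x) * ex (-(T.τ y)))
      (1 - ((deriv T.τ y : ℝ) : ℂ) * Complex.I * ((T.γ y - T.γ x) * ex (-(T.τ y)))) y := by
  have h1 : HasDerivAt (fun y => T.γ y - T.γ x) (ex (T.τ y)) y := (T.tangent y).sub_const _
  have h2 := h1.mul (exn_hd T y)
  refine h2.congr_deriv ?_
  have h3 := ex_mul_neg (T.τ y)
  linear_combination h3

private theorem wyx_hd (T : Table) (x y : ℝ) :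
    HasDerivAt (fun y => (T.γ y - T.γ x) * ex (-(T.τ x))) (ex (T.τ y - T.τ x)) y := by
  have h1 : HasDerivAt (fun y => T.γ y - T.γ x) (ex (T.τ y)) y := (T.tangent y).sub_const _
  have h2 := h1.mul_const (ex (-(T.τ x)))
  refine h2.congr_deriv ?_
  rw [← ex_add]
  congr 1

private theorem wxy_hd (T : Table) (x y : ℝ) :
    HasDerivAt (fun x => (T.γ y - T.γ x) * ex (-(T.τ y))) (-(ex (T.τ x - T.τ y))) x := by
  have h1 : HasDerivAt (fun x => T.γ y - T.γ x) (-(ex (T.τ x))) x := (T.tangent x).const_sub _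
  have h2 := h1.mul_const (ex (-(T.τ y)))
  refine h2.congr_deriv ?_
  rw [neg_mul, ← ex_add]
  congr 2

private theorem ex_re (a : ℝ) : (ex a).re = Real.cos a := by
  unfold ex
  exact Complex.exp_ofReal_mul_I_re a

private theorem ex_im (a : ℝ) : (ex a).im = Real.sin a := by
  unfold ex
  exact Complex.exp_ofReal_mul_I_im a

private theorem pA_x (T : Table) (x y : ℝ) :
    HasDerivAt (fun x => pA T x y) (-1 + deriv T.τ x * hx T x y) x := by
  have h := re_hd (wx_hd T x y)
  refine h.congr_deriv ?_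
  unfold hx
  simp only [Complex.sub_re, Complex.neg_re, Complex.one_re, Complex.mul_re, Complex.mul_im,
    Complex.ofReal_re, Complex.ofReal_im, Complex.I_re, Complex.I_im, Complex.sub_im]
  ring

private theorem hx_x (T : Table) (x y : ℝ) :
    HasDerivAt (fun x => hx T x y) (-(deriv T.τ x * pA T x y)) x := by
  have h := im_hd (wx_hd T x y)
  refine h.congr_deriv ?_
  unfold pA
  simp only [Complex.sub_re, Complex.neg_im, Complex.one_im, Complex.mul_re, Complex.mul_im,
    Complex.ofReal_re, Complex.ofReal_im, Complex.I_re, Complex.I_im, Complex.sub_im]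
  ring

private theorem pA_y (T : Table) (x y : ℝ) :
    HasDerivAt (fun y => pA T x y) (Real.cos (T.τ y - T.τ x)) y := by
  have h := re_hd (wyx_hd T x y)
  rw [ex_re] at h
  exact h

private theorem pQ_x (T : Table) (x y : ℝ) :
    HasDerivAt (fun x => pQ T x y) (-(Real.cos (T.τ y - T.τ x))) x := by
  have h := re_hd (wxy_hd T x y)
  rw [Complex.neg_re, ex_re, ← Real.cos_neg, neg_sub] at h
  exact h

private theorem pQ_y (T : Table) (x y : ℝ) :
    HasDerivAt (fun y => pQ T x y) (1 - deriv T.τ y * hy T x y) y := by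
  have h := re_hd (wy_hd T x y)
  refine h.congr_deriv ?_
  unfold hy
  simp only [Complex.sub_re, Complex.one_re, Complex.mul_re, Complex.mul_im,
    Complex.ofReal_re, Complex.ofReal_im, Complex.I_re, Complex.I_im, Complex.sub_im]
  ring

private theorem len_sq (T : Table) (x y : ℝ) : len T x y ^ 2 = pA T x y ^ 2 + hx T x y ^ 2 := by
  have h1 : Complex.normSq ((T.γ y - T.γ x) * ex (-(T.τ x))) = len T x y ^ 2 := by
    rw [Complex.normSq_mul, Complex.normSq_eq_norm_sq (ex _), ex_norm, Complex.normSq_eq_norm_sq]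
    unfold len
    ring
  rw [← h1, Complex.normSq_apply]
  unfold pA hx
  ring

private theorem len_sq' (T : Table) (x y : ℝ) : len T x y ^ 2 = pQ T x y ^ 2 + hy T x y ^ 2 := by
  have h1 : Complex.normSq ((T.γ y - T.γ x) * ex (-(T.τ y))) = len T x y ^ 2 := by
    rw [Complex.normSq_mul, Complex.normSq_eq_norm_sq (ex _), ex_norm, Complex.normSq_eq_norm_sq]
    unfold len
    ring
  rw [← h1, Complex.normSq_apply]
  unfold pQ hy
  ring

private theorem fr_rel (T : Table) (x y : ℝ) :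
    pQ T x y = pA T x y * Real.cos (T.τ y - T.τ x) + hx T x y * Real.sin (T.τ y - T.τ x) ∧
    hy T x y = pA T x y * Real.sin (T.τ y - T.τ x) - hx T x y * Real.cos (T.τ y - T.τ x) := by
  have h1 : (T.γ y - T.γ x) * ex (-(T.τ y)) =
      ((T.γ y - T.γ x) * ex (-(T.τ x))) * ex (-(T.τ y - T.τ x)) := by
    rw [mul_assoc, ← ex_add]
    congr 2
    ring
  have h2 : (ex (-(T.τ y - T.τ x))).re = Real.cos (T.τ y - T.τ x) := by
    rw [ex_re, Real.cos_neg]
  have h3 : (ex (-(T.τ y - T.τ x))).im = -Real.sin (T.τ y - T.τ x) := by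
    rw [ex_im, Real.sin_neg]
  constructor
  · unfold pQ pA hx
    rw [h1, Complex.mul_re, h2, h3]
    ring
  · unfold hy pA hx
    rw [h1, Complex.mul_im, h2, h3]
    ring

private theorem key (T : Table) (x y : ℝ) : pA T x y * pQ T x y -
    Real.cos (T.τ y - T.τ x) * len T x y ^ 2 = hx T x y * hy T x y := by
  obtain ⟨h1, h2⟩ := fr_rel T x y
  rw [h1, h2, len_sq]
  ring

private theorem len_sqrt (T : Table) (x y : ℝ) :
    len T x y = Real.sqrt (Complex.normSq (T.γ y - T.γ x)) := by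
  rw [Complex.normSq_eq_norm_sq, Real.sqrt_sq (norm_nonneg _)]
  rfl

theorem len_cont : Continuous (fun z : ℝ × ℝ => len T z.1 z.2) := by
  have hg := T.γ_smooth.continuous
  unfold len
  exact ((hg.comp continuous_snd).sub (hg.comp continuous_fst)).norm

theorem len_d1 {x y : ℝ} (h : x < y) (h' : y < x + T.L) : HasDerivAt (fun x => len T x y) (l1 T x y) x := by
  have hl := len_pos h h'
  have h1 : HasDerivAt (fun x => T.γ y - T.γ x) (-(ex (T.τ x))) x := (T.tangent x).const_sub _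
  have h2 := ((re_hd h1).pow 2).add ((im_hd h1).pow 2)
  have hn : ∀ x', (T.γ y - T.γ x').re ^ 2 + (T.γ y - T.γ x').im ^ 2 =
      Complex.normSq (T.γ y - T.γ x') := by
    intro x'
    rw [Complex.normSq_apply]
    ring
  have hne : (T.γ y - T.γ x).re ^ 2 + (T.γ y - T.γ x).im ^ 2 ≠ 0 := by
    rw [hn, Complex.normSq_eq_norm_sq]
    exact (pow_pos hl 2).ne'
  have h3 := HasDerivAt.sqrt h2 hne
  have h4 : (fun x => len T x y) = fun x' => Real.sqrt ((T.γ y - T.γ x').re ^ 2 + (T.γ y - T.γ x').im ^ 2) := by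
    funext x'
    rw [hn, len_sqrt]
  rw [h4]
  refine h3.congr_deriv ?_
  have h5 : Real.sqrt ((T.γ y - T.γ x).re ^ 2 + (T.γ y - T.γ x).im ^ 2) = len T x y := by
    rw [hn, ← len_sqrt]
  have h6 : pA T x y = (T.γ y - T.γ x).re * Real.cos (T.τ x) + (T.γ y - T.γ x).im * Real.sin (T.τ x) := by
    unfold pA
    rw [Complex.mul_re, ex_re, ex_im, Real.cos_neg, Real.sin_neg]
    ring
  change _ / (2 * Real.sqrt ((T.γ y - T.γ x).re ^ 2 + (T.γ y - T.γ x).im ^ 2)) = _
  rw [l1_eq, h5, h6, Complex.neg_re, Complex.neg_im, ex_re, ex_im]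
  field_simp
  push_cast
  ring

theorem len_d2 {x y : ℝ} (h : x < y) (h' : y < x + T.L) : HasDerivAt (fun y => len T x y) (l2 T x y) y := by
  have hl := len_pos h h'
  have h1 : HasDerivAt (fun y => T.γ y - T.γ x) (ex (T.τ y)) y := (T.tangent y).sub_const _
  have h2 := ((re_hd h1).pow 2).add ((im_hd h1).pow 2)
  have hn : ∀ y', (T.γ y' - T.γ x).re ^ 2 + (T.γ y' - T.γ x).im ^ 2 =
      Complex.normSq (T.γ y' - T.γ x) := by
    intro x'
    rw [Complex.normSq_apply]
    ring
  have hne : (T.γ y - T.γ x).re ^ 2 + (T.γ y - T.γ x).im ^ 2 ≠ 0 := by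
    rw [hn, Complex.normSq_eq_norm_sq]
    exact (pow_pos hl 2).ne'
  have h3 := HasDerivAt.sqrt h2 hne
  have h4 : (fun y => len T x y) = fun y' => Real.sqrt ((T.γ y' - T.γ x).re ^ 2 + (T.γ y' - T.γ x).im ^ 2) := by
    funext y'
    rw [hn, len_sqrt]
  rw [h4]
  refine h3.congr_deriv ?_
  have h5 : Real.sqrt ((T.γ y - T.γ x).re ^ 2 + (T.γ y - T.γ x).im ^ 2) = len T x y := by
    rw [hn, ← len_sqrt]
  have h6 : pQ T x y = (T.γ y - T.γ x).re * Real.cos (T.τ y) + (T.γ y - T.γ x).im * Real.sin (T.τ y) := by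
    unfold pQ
    rw [Complex.mul_re, ex_re, ex_im, Real.cos_neg, Real.sin_neg]
    ring
  change _ / (2 * Real.sqrt ((T.γ y - T.γ x).re ^ 2 + (T.γ y - T.γ x).im ^ 2)) = _
  rw [l2_eq, h5, h6, ex_re, ex_im]
  field_simp
  push_cast
  ring

theorem l1_d1 {x y : ℝ} (h : x < y) (h' : y < x + T.L) : HasDerivAt (fun x => l1 T x y) (l11 T x y) x := by
  have hl := len_pos h h'
  have h1 := (pA_x T x y).neg.div (len_d1 h h') hl.ne'
  refine h1.congr_deriv ?_
  have h2 := len_sq T x y
  unfold l11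
  rw [l1_eq]
  simp only [Pi.neg_apply]
  have hl0 : len T x y ≠ 0 := hl.ne'
  field_simp
  linear_combination h2

theorem l1_d2 {x y : ℝ} (h : x < y) (h' : y < x + T.L) : HasDerivAt (fun y => l1 T x y) (l12 T x y) y := by
  have hl := len_pos h h'
  have h1 := (pA_y T x y).neg.div (len_d2 h h') hl.ne'
  refine h1.congr_deriv ?_
  have h2 := key T x y
  unfold l12
  rw [l2_eq]
  simp only [Pi.neg_apply]
  have hl0 : len T x y ≠ 0 := hl.ne'
  field_simp
  linear_combination h2

theorem l2_d1 {x y : ℝ} (h : x < y) (h' : y < x + T.L) : HasDerivAt (fun x => l2 T x y) (l12 T x y) x := by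
  have hl := len_pos h h'
  have h1 := (pQ_x T x y).div (len_d1 h h') hl.ne'
  refine h1.congr_deriv ?_
  have h2 := key T x y
  unfold l12
  rw [l1_eq]
  have hl0 : len T x y ≠ 0 := hl.ne'
  field_simp
  linear_combination h2

theorem l2_d2 {x y : ℝ} (h : x < y) (h' : y < x + T.L) : HasDerivAt (fun y => l2 T x y) (l22 T x y) y := by
  have hl := len_pos h h'
  have h1 := (pQ_y T x y).div (len_d2 h h') hl.ne'
  refine h1.congr_deriv ?_
  have h2 := len_sq' T x y
  unfold l22
  rw [l2_eq]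
  have hl0 : len T x y ≠ 0 := hl.ne'
  field_simp
  linear_combination h2

private theorem D_smooth (T : Table) : ContDiff ℝ 1 (fun z : ℝ × ℝ => T.γ z.2 - T.γ z.1) := by
  have hg : ContDiff ℝ 1 T.γ := T.γ_smooth.of_le (by exact_mod_cast le_top)
  exact (hg.comp contDiff_snd).sub (hg.comp contDiff_fst)

private theorem ex1_smooth (T : Table) : ContDiff ℝ 1 (fun z : ℝ × ℝ => ex (-(T.τ z.1))) := by
  have hg : ContDiff ℝ 1 T.τ := T.smooth.of_le (by exact_mod_cast le_top)
  have he : ContDiff ℝ 1 ex := ex_smooth.of_le (by exact_mod_cast le_top)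
  exact he.comp (hg.comp contDiff_fst).neg

private theorem ex2_smooth (T : Table) : ContDiff ℝ 1 (fun z : ℝ × ℝ => ex (-(T.τ z.2))) := by
  have hg : ContDiff ℝ 1 T.τ := T.smooth.of_le (by exact_mod_cast le_top)
  have he : ContDiff ℝ 1 ex := ex_smooth.of_le (by exact_mod_cast le_top)
  exact he.comp (hg.comp contDiff_snd).neg

private theorem pA_smooth (T : Table) : ContDiff ℝ 1 (fun z : ℝ × ℝ => pA T z.1 z.2) :=
  Complex.reCLM.contDiff.comp ((D_smooth T).mul (ex1_smooth T))

private theorem pQ_smooth (T : Table) : ContDiff ℝ 1 (fun z : ℝ × ℝ => pQ T z.1 z.2) :=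
  Complex.reCLM.contDiff.comp ((D_smooth T).mul (ex2_smooth T))

private theorem hx_smooth (T : Table) : ContDiff ℝ 1 (fun z : ℝ × ℝ => hx T z.1 z.2) :=
  Complex.imCLM.contDiff.comp ((D_smooth T).mul (ex1_smooth T))

private theorem hy_smooth (T : Table) : ContDiff ℝ 1 (fun z : ℝ × ℝ => hy T z.1 z.2) :=
  (Complex.imCLM.contDiff.comp ((D_smooth T).mul (ex2_smooth T))).neg

private theorem len_C1 {x y : ℝ} (h : x < y) (h' : y < x + T.L) :
    ContDiffAt ℝ 1 (fun z : ℝ × ℝ => len T z.1 z.2) (x, y) := by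
  have hl := len_pos h h'
  have hne : T.γ y - T.γ x ≠ 0 := norm_pos_iff.1 hl
  exact (D_smooth T).contDiffAt.norm ℝ hne

theorem l1_C1 {x y : ℝ} (h : x < y) (h' : y < x + T.L) :
    ContDiffAt ℝ 1 (fun z : ℝ × ℝ => l1 T z.1 z.2) (x, y) := by
  have hl := len_pos h h'
  exact (pA_smooth T).contDiffAt.neg.div (len_C1 h h') hl.ne'

theorem l2_C1 {x y : ℝ} (h : x < y) (h' : y < x + T.L) :
    ContDiffAt ℝ 1 (fun z : ℝ × ℝ => l2 T z.1 z.2) (x, y) := by
  have hl := len_pos h h'
  exact (pQ_smooth T).contDiffAt.div (len_C1 h h') hl.ne'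

private theorem dtau_cont (T : Table) : Continuous (deriv T.τ) := by
  have hg : ContDiff ℝ 1 T.τ := T.smooth.of_le (by exact_mod_cast le_top)
  exact hg.continuous_deriv le_rfl

theorem l11_cont {x y : ℝ} (h : x < y) (h' : y < x + T.L) :
    ContinuousAt (fun z : ℝ × ℝ => l11 T z.1 z.2) (x, y) := by
  have hl := len_pos h h'
  have h1 : ContinuousAt (fun z : ℝ × ℝ => hx T z.1 z.2) (x, y) := (hx_smooth T).continuous.continuousAt
  have h2 : ContinuousAt (fun z : ℝ × ℝ => len T z.1 z.2) (x, y) := (len_cont (T := T)).continuousAt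
  have h3 : ContinuousAt (fun z : ℝ × ℝ => deriv T.τ z.1) (x, y) :=
    ((dtau_cont T).comp continuous_fst).continuousAt
  exact ((h1.pow 2).div (h2.pow 3) (pow_pos hl 3).ne').sub ((h3.mul h1).div h2 hl.ne')

theorem l22_cont {x y : ℝ} (h : x < y) (h' : y < x + T.L) :
    ContinuousAt (fun z : ℝ × ℝ => l22 T z.1 z.2) (x, y) := by
  have hl := len_pos h h'
  have h1 : ContinuousAt (fun z : ℝ × ℝ => hy T z.1 z.2) (x, y) := (hy_smooth T).continuous.continuousAt
  have h2 : ContinuousAt (fun z : ℝ × ℝ => len T z.1 z.2) (x, y) := (len_cont (T := T)).continuousAt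
  have h3 : ContinuousAt (fun z : ℝ × ℝ => deriv T.τ z.2) (x, y) :=
    ((dtau_cont T).comp continuous_snd).continuousAt
  exact ((h1.pow 2).div (h2.pow 3) (pow_pos hl 3).ne').sub ((h3.mul h1).div h2 hl.ne')

theorem l12_cont {x y : ℝ} (h : x < y) (h' : y < x + T.L) :
    ContinuousAt (fun z : ℝ × ℝ => l12 T z.1 z.2) (x, y) := by
  have hl := len_pos h h'
  have h0 : ContinuousAt (fun z : ℝ × ℝ => hx T z.1 z.2) (x, y) := (hx_smooth T).continuous.continuousAt
  have h1 : ContinuousAt (fun z : ℝ × ℝ => hy T z.1 z.2) (x, y) := (hy_smooth T).continuous.continuousAt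
  have h2 : ContinuousAt (fun z : ℝ × ℝ => len T z.1 z.2) (x, y) := (len_cont (T := T)).continuousAt
  exact (h0.mul h1).div (h2.pow 3) (pow_pos hl 3).ne'

end Pool.Agent.H1.BR
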