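import Pool.Agent.H1.BR.Main
import Pool.Agent.H50.BQ.Lim

/-
The bridge from circles of longest polygons to the invariant leaves of BQ.
-/

set_option autoImplicit false
open Set Filter Topology Pool.Agent.H46.BL

namespace Pool.Agent.H1.BR

variable {T : Table}

theorem bou_angles {s s' θ θ' : ℝ} (hb : T.Bounce s θ s' θ') :
    l1 T s s' = -Real.cos θ ∧ l2 T s s' = Real.cos θ' := by
  have h1 : s < s' := hb.2.2.1
  have h2 : s' < s + T.L := hb.2.2.2.1
  constructor
  · have a1 := len_left T hb
    have a2 := len_d1 (T := T) h1 h2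
    unfold len at a2
    exact a2.unique a1
  · have a1 := len_right T hb
    have a2 := len_d2 (T := T) h1 h2
    unfold len at a2
    exact a2.unique a1

theorem lf_of_circ (hκ : ∀ s, 0 < deriv T.τ s) {φ : ℝ → ℝ} (hc : Circ T φ) :
    ∃ g, Pool.Agent.H50.BQ.Lf T g φ := by
  have hlt : ∀ s, s < φ s ∧ φ s < s + T.L := fun s => tw_lt (hc.tw s)
  let g : ℝ → ℝ := fun s => Real.arccos (-l1 T s (φ s))
  have hgθ : ∀ {s θ θ'}, T.Bounce s θ (φ s) θ' → g s = θ := by
    intro s θ θ' hb
    have h1 := (bou_angles hb).1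
    show Real.arccos (-l1 T s (φ s)) = θ
    rw [h1, neg_neg]
    exact Real.arccos_cos hb.1.1.le hb.1.2.le
  have hbou : ∀ s, T.Bounce s (g s) (φ s) (g (φ s)) := by
    intro s
    obtain ⟨θ, θ', hb⟩ := exists_angles T hκ (hlt s).1 (hlt s).2
    have h1 := hgθ hb
    have h2 : g (φ s) = θ' := by
      show Real.arccos (-l1 T (φ s) (φ (φ s))) = θ'
      have h3 := hc.el s
      have h4 : -l1 T (φ s) (φ (φ s)) = Real.cos θ' := by
        have := (bou_angles hb).2
        linarith
      rw [h4]
      exact Real.arccos_cos hb.2.1.1.le hb.2.1.2.le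
    rw [h1, h2]
    exact hb
  have hcont : Continuous g := by
    apply Real.continuous_arccos.comp
    apply Continuous.neg
    rw [continuous_iff_continuousAt]
    intro s
    have h1 := (l1_C1 (T := T) (hlt s).1 (hlt s).2).continuousAt
    have h2 : ContinuousAt (fun s => (s, φ s)) s := (continuous_id.prodMk hc.cont).continuousAt
    exact ContinuousAt.comp (f := fun s => (s, φ s)) (g := fun z : ℝ × ℝ => l1 T z.1 z.2) h1 h2
  have hper : ∀ s, g (s + T.L) = g s := by
    intro s
    show Real.arccos (-l1 T (s + T.L) (φ (s + T.L))) = Real.arccos (-l1 T s (φ s))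
    rw [hc.per, (shiftL (T := T) s (φ s)).2.2.2.1]
  have hmem : ∀ s, g s ∈ Ioo 0 Real.pi := fun s => (hbou s).1
  have hleaf : T.Leaf g := by
    refine Pool.Agent.H50.BQ.leaf_of_fwd hκ hcont hper hmem ?_
    intro s s' θ' hb
    have h1 : s' = φ s := Per_next T hκ hb (hbou s)
    rw [h1] at hb ⊢
    exact (angles_unique T hb (hbou s)).2
  have hsurj : Function.Surjective φ := by
    intro y
    have h1 : φ (y - T.L) ≤ y := by
      have := (hlt (y - T.L)).2
      linarith
    have h2 : y ≤ φ y := (hlt y).1.le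
    have h3 : y - T.L ≤ y := by linarith [T.Lpos]
    obtain ⟨x, -, hx⟩ := intermediate_value_Icc h3 hc.cont.continuousOn ⟨h1, h2⟩
    exact ⟨x, hx⟩
  exact ⟨g, hleaf, hc.cont, hc.mono, hsurj, hbou⟩

end Pool.Agent.H1.BR
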