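import Pool.Agent.H1.BR.Cro
import Pool.Agent.H1.BR.Fha

/-
ROW Lo1.  Pinned polygons near a longest polygon x with F2 (x 0) (x 1) /= 0 have no corner.
(1) For every d > 0 there is e > 0 such that |xi - x 0| < e and Pinned xi y imply |y i - x i| < d for i <= q+1: otherwise a sequence xi_n -> x 0, y_n Pinned not d-close; pin_limit: a subsequence converges to a Pinned z at x 0; peri z >= peri x, so z Longest, z 0 = x 0,
    cross_eq: z = x. Contradiction.
(2) For d small, all (y i, y (i+1)) are Tw for i <= q (openness of Tw, nde) hence for all i (periodicity); pin_el gives el at the vertices 1..q-1, so fh_inv: Fh (y 0) (y 1) = Fh (y (q-1)) (y q).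
(3) There is z near x (q+1) with l2 (y (q-1)) (y q) + l1 (y q) z = 0: l1 (x q) . is strictly increasing near x (q+1) (l1_lt), l1 (x q) (x (q+1)) = - l2 (x (q-1)) (x q); by continuity and IVT (l1_C1, l2_C1 continuity).  fh_inv: Fh (y (q-1)) (y q) = Fh (y q) z = Fh (y 0) (z - pL).
(4) F2 is continuous and nonzero near (x 0, x 1) (fh_smooth), so Fh (y 0) . is injective near x 1: y 1 = z - p L, so z = y (q+1).
-/

set_option autoImplicit false
open Set Filter Topology Pool.Agent.H46.BL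

namespace Pool.Agent.H1.BR

variable {T : Table} {F : ℂ → ℂ → ℝ} {p q : ℕ}

private theorem lo1_tau (n : ℕ) (s : ℝ) : T.τ (s + n * T.L) = T.τ s + n * (2 * Real.pi) := by
  induction n with
  | zero => simp
  | succ n ih =>
    have h1 : s + ((n + 1 : ℕ) : ℝ) * T.L = (s + n * T.L) + T.L := by push_cast; ring
    rw [h1, T.turning, ih]
    push_cast
    ring

private theorem lo1_tw (n : ℕ) (a b : ℝ) : Tw T (a + n * T.L) (b + n * T.L) ↔ Tw T a b := by
  unfold Tw
  rw [lo1_tau, lo1_tau]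
  constructor
  · rintro ⟨h1, h2⟩
    constructor <;> linarith
  · rintro ⟨h1, h2⟩
    constructor <;> linarith

private theorem lo1_fh (n : ℕ) (a b : ℝ) :
    Fh T F (a + n * T.L) (b + n * T.L) = Fh T F a b := by
  induction n with
  | zero => simp
  | succ n ih =>
    have h1 : a + ((n + 1 : ℕ) : ℝ) * T.L = (a + n * T.L) + T.L := by push_cast; ring
    have h2 : b + ((n + 1 : ℕ) : ℝ) * T.L = (b + n * T.L) + T.L := by push_cast; ring
    rw [h1, h2, fh_per, ih]

/-- local injectivity in the second variable -/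
private theorem lo1_inj (hF : T.Integral F) {a b : ℝ} (h : a < b) (h' : b < a + T.L)
    (hne : F2 T F a b ≠ 0) :
    ∃ r > 0, ∀ u v w : ℝ, |u - a| < r → |v - b| < r → |w - b| < r →
      Fh T F u v = Fh T F u w → v = w := by
  have h1 := fh_smooth hF h h'
  have h2 := h1.hasStrictFDerivAt (by simp)
  have h3 : F2 T F a b = fderiv ℝ (fun z : ℝ × ℝ => Fh T F z.1 z.2) (a, b) (0, 1) := by
    have h4 : HasDerivAt (fun y : ℝ => ((a, y) : ℝ × ℝ)) ((0, 1) : ℝ × ℝ) b :=
      (hasDerivAt_const b a).prodMk (hasDerivAt_id b)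
    exact (h2.hasFDerivAt.comp_hasDerivAt b h4).deriv
  rw [h3] at hne
  generalize fderiv ℝ (fun z : ℝ × ℝ => Fh T F z.1 z.2) (a, b) = f' at h2 hne
  have hc : 0 < |f' (0, 1)| / 2 := by
    have := abs_pos.2 hne
    linarith
  have h5 := h2.isLittleO.def hc
  obtain ⟨r, hr, h6⟩ := Metric.eventually_nhds_iff.1 h5
  refine ⟨r, hr, fun u v w hu hv hw he => ?_⟩
  have h7 := @h6 ((u, v), (u, w)) (by
    simp only [Prod.dist_eq, Real.dist_eq, sup_lt_iff]
    exact ⟨⟨hu, hv⟩, hu, hw⟩)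
  simp only at h7
  have h8 : ((u, v) : ℝ × ℝ) - (u, w) = (v - w) • ((0, 1) : ℝ × ℝ) := by
    ext
    · simp
    · simp
  rw [he, h8, map_smul, sub_self, zero_sub, norm_neg, norm_smul, norm_smul, Real.norm_eq_abs,
    Real.norm_eq_abs] at h7
  have h9 : ‖((0, 1) : ℝ × ℝ)‖ = 1 := by
    simp [Prod.norm_def]
  rw [h9, mul_one] at h7
  by_contra hcon
  have h10 : 0 < |v - w| := abs_pos.2 (sub_ne_zero.2 hcon)
  have h11 := abs_pos.2 hne
  nlinarith [mul_pos h10 h11]

/-- openness of `Tw` along sequences -/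
private theorem lo1_tw_lim {u v : ℕ → ℝ} {a b : ℝ} (hu : Tendsto u atTop (𝓝 a))
    (hv : Tendsto v atTop (𝓝 b)) (h : Tw T a b) : ∀ᶠ n in atTop, Tw T (u n) (v n) := by
  have hu' : Tendsto (fun n => T.τ (u n)) atTop (𝓝 (T.τ a)) :=
    (T.smooth.continuous.tendsto a).comp hu
  have hv' : Tendsto (fun n => T.τ (v n)) atTop (𝓝 (T.τ b)) :=
    (T.smooth.continuous.tendsto b).comp hv
  filter_upwards [hu'.eventually_lt hv' h.1, hv'.eventually_lt (hu'.add_const (2 * Real.pi)) h.2]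
    with n h1 h2
  exact ⟨h1, h2⟩

private theorem lo1_lim {f : ℝ × ℝ → ℝ} {a b : ℝ} (hf : ContinuousAt f (a, b)) {u v : ℕ → ℝ}
    (hu : Tendsto u atTop (𝓝 a)) (hv : Tendsto v atTop (𝓝 b)) :
    Tendsto (fun n => f (u n, v n)) atTop (𝓝 (f (a, b))) :=
  hf.tendsto.comp (hu.prodMk_nhds hv)

theorem loc1 (hF : T.Integral F) (hp : 0 < p) (hpq : p < q) {x : ℕ → ℝ} (hx : Longest T p q x)
    (hne : F2 T F (x 0) (x 1) ≠ 0) {δ : ℝ} (hδ : 0 < δ) :
    ∃ ε > 0, ∀ ξ y, |ξ - x 0| < ε → Pinned T p q ξ y →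
      (∀ i, Tw T (y i) (y (i + 1))) ∧ (∀ i ≤ q + 1, |y i - x i| < δ) ∧
      l2 T (y (q - 1)) (y q) + l1 T (y q) (y (q + 1)) = 0 := by
  by_contra hcon
  have hseq : ∀ n : ℕ, ∃ ξ : ℝ, ∃ y : ℕ → ℝ, |ξ - x 0| < 1 / ((n : ℝ) + 1) ∧ Pinned T p q ξ y ∧
      ¬ ((∀ i, Tw T (y i) (y (i + 1))) ∧ (∀ i ≤ q + 1, |y i - x i| < δ) ∧
      l2 T (y (q - 1)) (y q) + l1 T (y q) (y (q + 1)) = 0) := by
    intro n
    by_contra h
    refine hcon ⟨1 / ((n : ℝ) + 1), by positivity, fun ξ y h1 h2 => ?_⟩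
    by_contra h3
    exact h ⟨ξ, y, h1, h2, h3⟩
  choose ξ Y h1 h2 h3 using hseq
  have hξ : Tendsto ξ atTop (𝓝 (x 0)) := by
    rw [tendsto_iff_dist_tendsto_zero]
    refine squeeze_zero (fun n => dist_nonneg) (fun n => ?_)
      tendsto_one_div_add_atTop_nhds_zero_nat
    rw [Real.dist_eq]
    exact (h1 n).le
  obtain ⟨k, x₀, hk, hx₀, hlim⟩ := pin_limit (by omega) hξ h2
  have hL : Longest T p q x₀ := ⟨hx₀.1, fun z hz => (hx.2 z hz).trans (hx₀.2.2 x hx.1 rfl)⟩
  have hxx : x₀ = x := cross_eq hp hpq hL hx hx₀.2.1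
  rw [hxx] at hlim
  obtain ⟨htw, hel⟩ := nde hp hpq hx
  have hq1 : q - 1 + 1 = q := by omega
  have hq2 : q - 1 + 2 = q + 1 := by omega
  -- injectivity radius
  obtain ⟨h01, h01'⟩ := tw_lt (htw 0)
  obtain ⟨r, hr, hinj⟩ := lo1_inj hF h01 h01' hne
  -- the interval around `x (q + 1)`
  have hopen : ∀ᶠ t in 𝓝 (x (q + 1)), Tw T (x q) t := by
    have ht : Tendsto T.τ (𝓝 (x (q + 1))) (𝓝 (T.τ (x (q + 1)))) := T.smooth.continuous.tendsto _
    filter_upwards [ht.eventually (lt_mem_nhds (htw q).1), ht.eventually (gt_mem_nhds (htw q).2)]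
      with t h4 h5
    exact ⟨h4, h5⟩
  obtain ⟨e, he, hopen⟩ := Metric.eventually_nhds_iff.1 hopen
  obtain ⟨ρ, hρ, hρr, hρe⟩ : ∃ ρ : ℝ, 0 < ρ ∧ ρ < r ∧ ρ < e := by
    refine ⟨min r e / 2, by positivity, ?_, ?_⟩
    · have := min_le_left r e
      have := lt_min hr he
      linarith
    · have := min_le_right r e
      have := lt_min hr he
      linarith
  have htm : Tw T (x q) (x (q + 1) - ρ) := hopen (by
    rw [Real.dist_eq, sub_sub_cancel_left, abs_neg, abs_of_pos hρ]
    exact hρe)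
  have htp : Tw T (x q) (x (q + 1) + ρ) := hopen (by
    rw [Real.dist_eq, add_sub_cancel_left, abs_of_pos hρ]
    exact hρe)
  have helq : l2 T (x (q - 1)) (x q) + l1 T (x q) (x (q + 1)) = 0 := by
    have h4 := hel (q - 1)
    rw [hq1, hq2] at h4
    exact h4
  have hneg : l2 T (x (q - 1)) (x q) + l1 T (x q) (x (q + 1) - ρ) < 0 := by
    have h4 := l1_lt (show x (q + 1) - ρ < x (q + 1) by linarith) htm (htw q)
    linarith
  have hpos : 0 < l2 T (x (q - 1)) (x q) + l1 T (x q) (x (q + 1) + ρ) := by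
    have h4 := l1_lt (show x (q + 1) < x (q + 1) + ρ by linarith) (htw q) htp
    linarith
  have htq : Tw T (x (q - 1)) (x q) := by
    have h4 := htw (q - 1)
    rw [hq1] at h4
    exact h4
  -- limits
  have hl2 : Tendsto (fun n => l2 T (Y (k n) (q - 1)) (Y (k n) q)) atTop
      (𝓝 (l2 T (x (q - 1)) (x q))) := by
    obtain ⟨h4, h5⟩ := tw_lt htq
    exact lo1_lim (f := fun z : ℝ × ℝ => l2 T z.1 z.2) (l2_C1 h4 h5).continuousAt
      (hlim (q - 1)) (hlim q)
  have hl1 : ∀ t, Tw T (x q) t → Tendsto (fun n => l1 T (Y (k n) q) t) atTop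
      (𝓝 (l1 T (x q) t)) := by
    intro t ht
    obtain ⟨h4, h5⟩ := tw_lt ht
    exact lo1_lim (f := fun z : ℝ × ℝ => l1 T z.1 z.2) (l1_C1 h4 h5).continuousAt
      (hlim q) tendsto_const_nhds
  have hE1 : ∀ᶠ n in atTop, ∀ i ∈ Finset.range (q + 2), Tw T (Y (k n) i) (Y (k n) (i + 1)) :=
    (Filter.eventually_all_finset _).2 fun i _ => lo1_tw_lim (hlim i) (hlim (i + 1)) (htw i)
  have hE2 : ∀ᶠ n in atTop, ∀ i ∈ Finset.range (q + 2), |Y (k n) i - x i| < min δ r := by
    refine (Filter.eventually_all_finset _).2 fun i _ => ?_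
    have h4 := Metric.tendsto_nhds.1 (hlim i) (min δ r) (lt_min hδ hr)
    simpa only [Real.dist_eq] using h4
  have hE3 := (hl2.add (hl1 _ htm)).eventually (gt_mem_nhds hneg)
  have hE4 := (hl2.add (hl1 _ htp)).eventually (lt_mem_nhds hpos)
  have hE5 := lo1_tw_lim (hlim q) (tendsto_const_nhds (x := x (q + 1) - ρ)) htm
  have hE6 := lo1_tw_lim (hlim q) (tendsto_const_nhds (x := x (q + 1) + ρ)) htp
  obtain ⟨n, hn1, hn2, hn3, hn4, hn5, hn6⟩ :=
    (hE1.and (hE2.and (hE3.and (hE4.and (hE5.and hE6))))).exists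
  apply h3 (k n)
  have hPin := h2 (k n)
  generalize Y (k n) = y at hn1 hn2 hn3 hn4 hn5 hn6 hPin
  have hper := hPin.1.per
  -- all chords are non-flat
  have hall : ∀ i, Tw T (y i) (y (i + 1)) := by
    intro i
    induction i using Nat.strong_induction_on with
    | _ i ih =>
      rcases Nat.lt_or_ge i q with hi | hi
      · exact hn1 i (Finset.mem_range.2 (by omega))
      · have h4 := ih (i - q) (by omega)
        have h5 := hper (i - q)
        have h6 := hper (i - q + 1)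
        have h7 : i - q + q = i := by omega
        have h8 : i - q + 1 + q = i + 1 := by omega
        rw [h7] at h5
        rw [h8] at h6
        rw [h5, h6]
        exact (lo1_tw p _ _).2 h4
  refine ⟨hall, fun i hi => (hn2 i (Finset.mem_range.2 (by omega))).trans_le (min_le_left _ _), ?_⟩
  -- the point `z`
  have hbt : ∀ t ∈ Icc (x (q + 1) - ρ) (x (q + 1) + ρ), Tw T (y q) t := by
    intro t ht
    exact ⟨hn5.1.trans_le (tau_mono ht.1), (tau_mono ht.2).trans_lt hn6.2⟩
  have hcont : ContinuousOn (fun t => l2 T (y (q - 1)) (y q) + l1 T (y q) t)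
      (Icc (x (q + 1) - ρ) (x (q + 1) + ρ)) := by
    intro t ht
    obtain ⟨h4, h5⟩ := tw_lt (hbt t ht)
    exact (continuousAt_const.add (l1_d2 h4 h5).continuousAt).continuousWithinAt
  obtain ⟨z, hz, hz0⟩ := intermediate_value_Icc (by linarith) hcont ⟨hn3.le, hn4.le⟩
  simp only at hz0
  have hchain : ∀ j, j < q → Fh T F (y 0) (y 1) = Fh T F (y j) (y (j + 1)) := by
    intro j
    induction j with
    | zero => intro _; rfl
    | succ j ih =>
      intro hj
      rw [ih (by omega)]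
      exact fh_inv hF (hall j) (hall (j + 1)) (pin_el hp hpq hPin hall j hj)
  have h4 := hchain (q - 1) (by omega)
  rw [hq1] at h4
  have h5 : Tw T (y (q - 1)) (y q) := by
    have h6 := hall (q - 1)
    rw [hq1] at h6
    exact h6
  have h6 := fh_inv hF h5 (hbt z hz) hz0
  have h7 : y q = y 0 + p * T.L := by
    have h8 := hper 0
    rw [Nat.zero_add] at h8
    exact h8
  have h8 : y (q + 1) = y 1 + p * T.L := by
    have h9 := hper 1
    rw [Nat.add_comm 1 q] at h9
    exact h9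
  have h9 : x (q + 1) = x 1 + p * T.L := by
    have h10 := hx.1.per 1
    rw [Nat.add_comm 1 q] at h10
    exact h10
  have h10 : Fh T F (y q) z = Fh T F (y 0) (z - p * T.L) := by
    have h11 := lo1_fh (T := T) (F := F) p (y 0) (z - p * T.L)
    rw [sub_add_cancel, ← h7] at h11
    exact h11
  have h11 : y 1 = z - p * T.L := by
    refine hinj (y 0) (y 1) (z - p * T.L)
      ((hn2 0 (Finset.mem_range.2 (by omega))).trans_le (min_le_right _ _))
      ((hn2 1 (Finset.mem_range.2 (by omega))).trans_le (min_le_right _ _)) ?_ ?_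
    · rw [abs_lt]
      have := hz.1
      have := hz.2
      constructor <;> linarith
    · rw [h4, h6, h10]
  have h12 : y (q + 1) = z := by linarith
  rw [h12]
  exact hz0

end Pool.Agent.H1.BR
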