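import Pool.Agent.H1.BR.Lo1

/-
ROW Lo2.  Then all pinned polygons near x are longest.
m(xi) := peri of a pinned polygon at xi (pin_exists; independent of the choice).  Choose d so small that the chords stay in a compact part of {x<y<x+L} : there |l11|, |l22| <= C (continuity) and the gaps of y are in (g, L - g).
For xi, xi' close (|xi'-xi| < g) in the neighbourhood, y Pinned at xi: y' := y with the vertices of the residue class 0 mod q moved by xi' - xi: Poly, first vertex xi', peri y' - peri y = G(xi') - G(xi), G(t) = len t (y 1) + len (y (q-1)) (t + pL)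
 (q >= 2), G'(xi) = l1 (y 0) (y 1) + l2 (y (q-1)) (y q) = 0 by loc1 and periodicity (l1 (y q) (y (q+1)) = l1 (y 0) (y 1)), |G''| <= 2C: so m(xi') >= m(xi) - C |xi' - xi|^2.  Symmetric. So |m(xi') - m(xi)| <= C |xi'-xi|^2 for close xi, xi': m is differentiable with derivative 0
 on an interval around x 0 : constant = m(x 0) = peri x.  So pinned polygons there have peri = peri x: Longest.
-/

set_option autoImplicit false
open Set Filter Topology Pool.Agent.H46.BL

namespace Pool.Agent.H1.BR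

variable {T : Table} {F : ℂ → ℂ → ℝ} {p q : ℕ}

/-- iterated periodicity of `l1` -/
lemma lo2_l1_per (n : ℕ) (x y : ℝ) : l1 T (x + n * T.L) (y + n * T.L) = l1 T x y := by
  induction n with
  | zero => simp
  | succ n ih =>
    have h := (shiftL (T := T) (x + n * T.L) (y + n * T.L)).2.2.2.1
    rw [ih] at h
    rw [← h]
    have e1 : x + ((n + 1 : ℕ) : ℝ) * T.L = x + n * T.L + T.L := by push_cast; ring
    have e2 : y + ((n + 1 : ℕ) : ℝ) * T.L = y + n * T.L + T.L := by push_cast; ring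
    rw [e1, e2]

lemma lo2_per_mul {y : ℕ → ℝ} (h : Poly T p q y) (k i : ℕ) : y (i + k * q) = y i + k * (p * T.L) := by
  induction k with
  | zero => simp
  | succ k ih =>
    have e : i + (k + 1) * q = (i + k * q) + q := by ring
    rw [e, h.per, ih]; push_cast; ring

/-- move the vertices of the residue class `0` -/
noncomputable def lo2mv (q : ℕ) (c : ℝ) (y : ℕ → ℝ) : ℕ → ℝ := fun j => y j + if j % q = 0 then c else 0

lemma lo2mv_poly (hq : 2 ≤ q) {y : ℕ → ℝ} (h : Poly T p q y) {c : ℝ} (h1 : y 0 + c ≤ y 1)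
    (h2 : y 1 ≤ y 0 + c + T.L) (h3 : y (q - 1) ≤ y 0 + c + p * T.L)
    (h4 : y 0 + c + p * T.L ≤ y (q - 1) + T.L) : Poly T p q (lo2mv q c y) := by
  have key : ∀ i, lo2mv q c y i ≤ lo2mv q c y (i + 1) ∧ lo2mv q c y (i + 1) ≤ lo2mv q c y i + T.L := by
    intro i
    have hlo := h.lo i
    have hhi := h.hi i
    unfold lo2mv
    by_cases ha : i % q = 0
    · have hb : (i + 1) % q ≠ 0 := by
        rw [Nat.add_mod, ha, Nat.mod_eq_of_lt (show 1 < q by omega), Nat.zero_add,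
          Nat.mod_eq_of_lt (show 1 < q by omega)]
        omega
      rw [if_pos ha, if_neg hb]
      obtain ⟨k, hk⟩ := Nat.dvd_of_mod_eq_zero ha
      have e0 : y i = y 0 + k * (p * T.L) := by
        have := lo2_per_mul h k 0
        rw [Nat.zero_add, Nat.mul_comm k q, ← hk] at this
        exact this
      have e1 : y (i + 1) = y 1 + k * (p * T.L) := by
        have := lo2_per_mul h k 1
        rw [Nat.mul_comm k q, ← hk, Nat.add_comm 1 i] at this
        exact this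
      rw [e0, e1]
      constructor <;> linarith
    · by_cases hb : (i + 1) % q = 0
      · rw [if_neg ha, if_pos hb]
        obtain ⟨k, hk⟩ := Nat.dvd_of_mod_eq_zero hb
        have hk0 : k ≠ 0 := by
          rintro rfl
          simp at hk
        obtain ⟨k, rfl⟩ := Nat.exists_eq_succ_of_ne_zero hk0
        have e1 : y (i + 1) = y 0 + (k + 1) * (p * T.L) := by
          have := lo2_per_mul h (k + 1) 0
          rw [Nat.zero_add, Nat.mul_comm (k + 1) q, ← hk] at this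
          rw [this]; push_cast; ring
        have e0 : y i = y (q - 1) + k * (p * T.L) := by
          have := lo2_per_mul h k (q - 1)
          have e : q - 1 + k * q = i := by
            have : (k + 1) * q = k * q + q := by ring
            have hk' : i + 1 = (k + 1) * q := by rw [hk, Nat.mul_comm]
            omega
          rw [e] at this
          exact this
        rw [e0, e1]
        constructor <;> linarith
      · rw [if_neg ha, if_neg hb]
        constructor <;> linarith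
  refine ⟨fun i => (key i).1, fun i => (key i).2, ?_⟩
  intro i
  unfold lo2mv
  rw [Nat.add_mod_right, h.per]
  ring

lemma lo2mv_zero (hq : 2 ≤ q) (c : ℝ) (y : ℕ → ℝ) : lo2mv q c y 0 = y 0 + c := by
  unfold lo2mv; simp

lemma lo2mv_peri (hq : 2 ≤ q) {y : ℕ → ℝ} (h : Poly T p q y) (c : ℝ) :
    peri T q (lo2mv q c y) = peri T q y + (len T (y 0 + c) (y 1) - len T (y 0) (y 1))
      + (len T (y (q - 1)) (y 0 + c + p * T.L) - len T (y (q - 1)) (y 0 + p * T.L)) := by
  obtain ⟨k, rfl⟩ : ∃ k, q = k + 2 := ⟨q - 2, by omega⟩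
  have hq1 : k + 2 - 1 = k + 1 := by omega
  have hper : y (k + 2) = y 0 + p * T.L := by
    have := h.per 0
    rwa [Nat.zero_add] at this
  unfold peri
  rw [Finset.sum_range_succ, Finset.sum_range_succ', Finset.sum_range_succ (fun i => len T (y i) (y (i + 1))),
    Finset.sum_range_succ' (fun i => len T (y i) (y (i + 1)))]
  have hmid : ∑ i ∈ Finset.range k, len T (lo2mv (k + 2) c y (i + 1)) (lo2mv (k + 2) c y (i + 1 + 1))
      = ∑ i ∈ Finset.range k, len T (y (i + 1)) (y (i + 1 + 1)) := by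
    refine Finset.sum_congr rfl fun i hi => ?_
    rw [Finset.mem_range] at hi
    unfold lo2mv
    have m1 : (i + 1) % (k + 2) ≠ 0 := by rw [Nat.mod_eq_of_lt (by omega)]; omega
    have m2 : (i + 1 + 1) % (k + 2) ≠ 0 := by rw [Nat.mod_eq_of_lt (by omega)]; omega
    rw [if_neg m1, if_neg m2]
    simp
  have e0 : lo2mv (k + 2) c y 0 = y 0 + c := lo2mv_zero hq c y
  have e1 : lo2mv (k + 2) c y (0 + 1) = y 1 := by
    unfold lo2mv
    rw [if_neg (by rw [Nat.mod_eq_of_lt (by omega)]; omega)]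
    simp
  have ek : lo2mv (k + 2) c y (k + 1) = y (k + 1) := by
    unfold lo2mv
    rw [if_neg (by rw [Nat.mod_eq_of_lt (by omega)]; omega)]
    simp
  have ek2 : lo2mv (k + 2) c y (k + 1 + 1) = y 0 + c + p * T.L := by
    unfold lo2mv
    have : (k + 1 + 1) % (k + 2) = 0 := by
      rw [show k + 1 + 1 = k + 2 by rfl, Nat.mod_self]
    rw [if_pos this, show k + 1 + 1 = k + 2 by rfl, hper]
    ring
  rw [hmid, e0, e1, ek, ek2, hq1, show k + 1 + 1 = k + 2 by rfl, hper, Nat.zero_add]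
  ring

/-- the quadratic estimate for one move -/
lemma lo2_quad {a b C ξ ξ' : ℝ} {n : ℕ}
    (h1 : ∀ t ∈ uIcc ξ ξ', t < a ∧ a < t + T.L) (h2 : ∀ t ∈ uIcc ξ ξ', b < t + n * T.L ∧ t + n * T.L < b + T.L)
    (hC1 : ∀ t ∈ uIcc ξ ξ', |l11 T t a| ≤ C) (hC2 : ∀ t ∈ uIcc ξ ξ', |l22 T b (t + n * T.L)| ≤ C)
    (h0 : l1 T ξ a + l2 T b (ξ + n * T.L) = 0) :
    |(len T ξ' a - len T ξ a) + (len T b (ξ' + n * T.L) - len T b (ξ + n * T.L))| ≤ 2 * C * |ξ' - ξ| ^ 2 := by
  set G : ℝ → ℝ := fun t => len T t a + len T b (t + n * T.L) with hG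
  set G1 : ℝ → ℝ := fun t => l1 T t a + l2 T b (t + n * T.L) with hG1
  set G2 : ℝ → ℝ := fun t => l11 T t a + l22 T b (t + n * T.L) with hG2
  have hL : ∀ t : ℝ, HasDerivAt (fun t : ℝ => t + n * T.L) 1 t := fun t => (hasDerivAt_id t).add_const _
  have dG : ∀ t ∈ uIcc ξ ξ', HasDerivWithinAt G (G1 t) (uIcc ξ ξ') t := by
    intro t ht
    have d1 := len_d1 (h1 t ht).1 (h1 t ht).2
    have d2 := (len_d2 (h2 t ht).1 (h2 t ht).2).comp t (hL t)
    rw [mul_one] at d2
    exact (d1.add d2).hasDerivWithinAt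
  have dG1 : ∀ t ∈ uIcc ξ ξ', HasDerivWithinAt G1 (G2 t) (uIcc ξ ξ') t := by
    intro t ht
    have d1 := l1_d1 (h1 t ht).1 (h1 t ht).2
    have d2 := (l2_d2 (h2 t ht).1 (h2 t ht).2).comp t (hL t)
    rw [mul_one] at d2
    exact (d1.add d2).hasDerivWithinAt
  have hb2 : ∀ t ∈ uIcc ξ ξ', ‖G2 t‖ ≤ 2 * C := by
    intro t ht
    rw [Real.norm_eq_abs]
    calc |G2 t| ≤ |l11 T t a| + |l22 T b (t + n * T.L)| := abs_add_le _ _
      _ ≤ 2 * C := by linarith [hC1 t ht, hC2 t ht]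
  have hCnn : 0 ≤ C := le_trans (abs_nonneg _) (hC1 ξ left_mem_uIcc)
  have hb1 : ∀ t ∈ uIcc ξ ξ', ‖G1 t‖ ≤ 2 * C * |ξ' - ξ| := by
    intro t ht
    have h := (convex_uIcc ξ ξ').norm_image_sub_le_of_norm_hasDerivWithin_le dG1 hb2 left_mem_uIcc ht
    have e : G1 ξ = 0 := h0
    rw [e, sub_zero, Real.norm_eq_abs (t - ξ)] at h
    have h3 : |t - ξ| ≤ |ξ' - ξ| := by
      rcases le_total ξ ξ' with hl | hl
      · rw [uIcc_of_le hl] at ht
        rw [abs_of_nonneg (by linarith [ht.1]), abs_of_nonneg (by linarith)]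
        linarith [ht.2]
      · rw [uIcc_of_ge hl] at ht
        rw [abs_of_nonpos (by linarith [ht.2]), abs_of_nonpos (by linarith)]
        linarith [ht.1]
    calc ‖G1 t‖ ≤ 2 * C * |t - ξ| := h
      _ ≤ 2 * C * |ξ' - ξ| := by
        refine mul_le_mul_of_nonneg_left h3 (by linarith)
  have h := (convex_uIcc ξ ξ').norm_image_sub_le_of_norm_hasDerivWithin_le dG hb1 left_mem_uIcc right_mem_uIcc
  rw [Real.norm_eq_abs, Real.norm_eq_abs] at h
  have e : (len T ξ' a - len T ξ a) + (len T b (ξ' + n * T.L) - len T b (ξ + n * T.L)) = G ξ' - G ξ := by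
    simp only [hG]; ring
  rw [e]
  calc |G ξ' - G ξ| ≤ 2 * C * |ξ' - ξ| * |ξ' - ξ| := h
    _ = 2 * C * |ξ' - ξ| ^ 2 := by ring

/-- local bounds -/
lemma lo2_bd {f : ℝ × ℝ → ℝ} {a b : ℝ} (hf : ContinuousAt f (a, b)) (hab : a < b) (hab' : b < a + T.L) :
    ∃ d > 0, ∃ C, ∀ s t, |s - a| < d → |t - b| < d → s < t ∧ t < s + T.L ∧ |f (s, t)| ≤ C := by
  have h1 : ∀ᶠ z : ℝ × ℝ in 𝓝 (a, b), |f z - f (a, b)| < 1 := by
    have := Metric.tendsto_nhds.1 hf 1 one_pos
    simpa only [Real.dist_eq] using this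
  have h2 : ∀ᶠ z : ℝ × ℝ in 𝓝 (a, b), z.1 < z.2 :=
    (isOpen_lt continuous_fst continuous_snd).mem_nhds hab
  have h3 : ∀ᶠ z : ℝ × ℝ in 𝓝 (a, b), z.2 < z.1 + T.L :=
    (isOpen_lt continuous_snd (continuous_fst.add continuous_const)).mem_nhds hab'
  obtain ⟨d, hd, hd'⟩ := Metric.eventually_nhds_iff.1 (h1.and (h2.and h3))
  refine ⟨d, hd, |f (a, b)| + 1, fun s t hs ht => ?_⟩
  have hdist : dist ((s, t) : ℝ × ℝ) (a, b) < d := by
    rw [Prod.dist_eq, Real.dist_eq, Real.dist_eq]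
    exact max_lt hs ht
  obtain ⟨g1, g2, g3⟩ := hd' hdist
  refine ⟨g2, g3, ?_⟩
  have := abs_sub_abs_le_abs_sub (f (s, t)) (f (a, b))
  linarith

theorem loc2 (hF : T.Integral F) (hp : 0 < p) (hpq : p < q) {x : ℕ → ℝ} (hx : Longest T p q x)
    (hne : F2 T F (x 0) (x 1) ≠ 0) :
    ∃ ε > 0, ∀ ξ, |ξ - x 0| < ε → ∃ y, Longest T p q y ∧ y 0 = ξ := by
  have hq : 2 ≤ q := by omega
  have hq1 : q - 1 + 1 = q := by omega
  obtain ⟨htw, -⟩ := nde hp hpq hx
  have hxq : x q = x 0 + p * T.L := by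
    have := hx.1.per 0
    rwa [Nat.zero_add] at this
  obtain ⟨c1, c2⟩ := tw_lt (htw 0)
  rw [Nat.zero_add] at c1 c2
  obtain ⟨c3, c4⟩ := tw_lt (htw (q - 1))
  rw [hq1] at c3 c4
  obtain ⟨d1, hd1, C1, hC1⟩ := lo2_bd (T := T) (l11_cont c1 c2) c1 c2
  obtain ⟨d2, hd2, C2, hC2⟩ := lo2_bd (T := T) (l22_cont c3 c4) c3 c4
  obtain ⟨ε₀, hε₀, hloc⟩ := loc1 hF hp hpq hx hne (δ := min d1 d2) (lt_min hd1 hd2)
  set ε := min ε₀ (min d1 d2) with hε
  have hεpos : 0 < ε := lt_min hε₀ (lt_min hd1 hd2)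
  set C := max C1 C2 with hC
  choose P hP using fun ξ : ℝ => pin_exists (T := T) (p := p) (q := q) (by omega) hpq.le ξ
  -- one-sided estimate
  have hone : ∀ ξ ξ', |ξ - x 0| < ε → |ξ' - x 0| < ε →
      peri T q (P ξ) - 2 * C * |ξ' - ξ| ^ 2 ≤ peri T q (P ξ') := by
    intro ξ ξ' h h'
    obtain ⟨hyP, hy0, -⟩ := hP ξ
    obtain ⟨-, hcl, hel⟩ := hloc ξ (P ξ) (lt_of_lt_of_le h (min_le_left _ _)) (hP ξ)
    set y := P ξ with hy
    have hyq : y q = y 0 + p * T.L := by
      have := hyP.per 0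
      rwa [Nat.zero_add] at this
    have hyq1 : y (q + 1) = y 1 + p * T.L := by
      have := hyP.per 1
      rwa [Nat.add_comm 1 q] at this
    have hI : ∀ t ∈ uIcc ξ ξ', |t - x 0| < ε := by
      intro t ht
      rw [abs_lt] at h h' ⊢
      rcases le_total ξ ξ' with hl | hl
      · rw [uIcc_of_le hl] at ht
        constructor <;> linarith [ht.1, ht.2]
      · rw [uIcc_of_ge hl] at ht
        constructor <;> linarith [ht.1, ht.2]
    have hy1 : |y 1 - x 1| < min d1 d2 := hcl 1 (by omega)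
    have hyq' : |y (q - 1) - x (q - 1)| < min d1 d2 := hcl (q - 1) (by omega)
    have hA : ∀ t ∈ uIcc ξ ξ', t < y 1 ∧ y 1 < t + T.L ∧ |l11 T t (y 1)| ≤ C1 := fun t ht =>
      hC1 t (y 1) (lt_of_lt_of_le (hI t ht) ((min_le_right _ _).trans (min_le_left _ _)))
        (lt_of_lt_of_le hy1 (min_le_left _ _))
    have hB : ∀ t ∈ uIcc ξ ξ', y (q - 1) < t + p * T.L ∧ t + p * T.L < y (q - 1) + T.L ∧
        |l22 T (y (q - 1)) (t + p * T.L)| ≤ C2 := fun t ht =>
      hC2 (y (q - 1)) (t + p * T.L) (lt_of_lt_of_le hyq' (min_le_right _ _))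
        (by
          rw [hxq, show t + p * T.L - (x 0 + p * T.L) = t - x 0 by ring]
          exact lt_of_lt_of_le (hI t ht) ((min_le_right _ _).trans (min_le_right _ _)))
    have hzero : l1 T ξ (y 1) + l2 T (y (q - 1)) (ξ + p * T.L) = 0 := by
      rw [hyq, hyq1, lo2_l1_per, hy0] at hel
      linarith
    have hquad := lo2_quad (T := T) (a := y 1) (b := y (q - 1)) (C := C) (ξ := ξ) (ξ' := ξ') (n := p)
      (fun t ht => ⟨(hA t ht).1, (hA t ht).2.1⟩) (fun t ht => ⟨(hB t ht).1, (hB t ht).2.1⟩)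
      (fun t ht => (hA t ht).2.2.trans (le_max_left _ _)) (fun t ht => (hB t ht).2.2.trans (le_max_right _ _)) hzero
    have e0 : y 0 + (ξ' - ξ) = ξ' := by rw [hy0]; ring
    have hA' := hA ξ' right_mem_uIcc
    have hB' := hB ξ' right_mem_uIcc
    have hpoly : Poly T p q (lo2mv q (ξ' - ξ) y) := by
      refine lo2mv_poly hq hyP ?_ ?_ ?_ ?_
      · rw [e0]; exact hA'.1.le
      · rw [e0]; exact hA'.2.1.le
      · rw [e0]; exact hB'.1.le
      · rw [e0]; exact hB'.2.1.le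
    have hperi := lo2mv_peri hq hyP (ξ' - ξ)
    rw [e0, hy0] at hperi
    have hmax := (hP ξ').2.2 _ hpoly (by rw [lo2mv_zero hq, e0])
    have := (abs_le.1 hquad).1
    rw [hperi] at hmax
    linarith
  have hboth : ∀ ξ ξ', |ξ - x 0| < ε → |ξ' - x 0| < ε →
      |peri T q (P ξ') - peri T q (P ξ)| ≤ 2 * C * |ξ' - ξ| ^ 2 := by
    intro ξ ξ' h h'
    have g1 := hone ξ ξ' h h'
    have g2 := hone ξ' ξ h' h
    rw [abs_sub_comm ξ ξ'] at g2
    rw [abs_le]
    constructor <;> linarith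
  -- derivative zero
  set m : ℝ → ℝ := fun ξ => peri T q (P ξ) with hm
  set I : Set ℝ := {ξ | |ξ - x 0| < ε} with hIdef
  have hIball : I = Metric.ball (x 0) ε := by
    ext ξ; simp [hIdef, Real.dist_eq]
  have hconv : Convex ℝ I := by rw [hIball]; exact convex_ball _ _
  have hopen : IsOpen I := by rw [hIball]; exact Metric.isOpen_ball
  have hder : ∀ ξ ∈ I, HasDerivWithinAt m 0 I ξ := by
    intro ξ hξ
    have hlit : HasDerivAt m 0 ξ := by
      rw [hasDerivAt_iff_isLittleO]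
      have hO : (fun x' => m x' - m ξ - (x' - ξ) • (0 : ℝ)) =O[𝓝 ξ] fun x' => ‖x' - ξ‖ ^ 2 := by
        refine Asymptotics.IsBigO.of_bound (2 * C) ?_
        filter_upwards [hopen.mem_nhds hξ] with x' hx'
        rw [smul_zero, sub_zero, Real.norm_eq_abs, Real.norm_eq_abs (‖x' - ξ‖ ^ 2), Real.norm_eq_abs,
          abs_of_nonneg (by positivity : (0 : ℝ) ≤ |x' - ξ| ^ 2)]
        exact hboth ξ x' hξ hx'
      exact hO.trans_isLittleO (Asymptotics.isLittleO_pow_sub_sub ξ (by norm_num))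
    exact hlit.hasDerivWithinAt
  have hx0 : x 0 ∈ I := by
    show |x 0 - x 0| < ε
    rw [sub_self, abs_zero]; exact hεpos
  have hconst : ∀ ξ ∈ I, m ξ = m (x 0) := by
    intro ξ hξ
    have h := hconv.norm_image_sub_le_of_norm_hasDerivWithin_le (C := 0) hder (fun t _ => by simp) hx0 hξ
    rw [zero_mul] at h
    have := norm_le_zero_iff.1 h
    linarith
  have hm0 : peri T q x ≤ m (x 0) := (hP (x 0)).2.2 x hx.1 rfl
  refine ⟨ε, hεpos, fun ξ hξ => ⟨P ξ, ⟨(hP ξ).1, fun y hy => ?_⟩, (hP ξ).2.1⟩⟩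
  have h1 := hx.2 y hy
  have h2 := hconst ξ hξ
  have h3 : m ξ = peri T q (P ξ) := rfl
  linarith

end Pool.Agent.H1.BR
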