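import Pool.Agent.H1.BR.Nde

/-
ROW Vr2.  Second variation of a longest polygon, and positive curvature at its vertices.
var2: for a q-periodic xi and small t the polygon x + t xi is Poly (gaps are strictly inside (0,L), finitely many modulo q), so peri (x + t xi) <= peri x, the function G(t) = peri (x + t xi) has a local maximum at 0, G'(0)=0,
 G'(t) = sum [l1 (..) xi i + l2 (..) xi (i+1)], differentiable at 0 with derivative the sum below, so it is <= 0 (second derivative test: if G''(0) > 0 and G'(0) = 0 then 0 would be a strict local minimum; or use a Taylor argument).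
curv_pos: apply it to xi = indicator of the residue class of i+1 mod q (q >= 2; or directly the one-variable function t -> len (x i) t + len t (x (i+2)), which has a local maximum at x (i+1)): l22 (x i) (x (i+1)) + l11 (x (i+1)) (x (i+2)) <= 0.
 If deriv tau (x (i+1)) = 0 the left side is hy^2/len^3 + hx^2/len^3 > 0 (hx_pos, hy_pos, len_pos): contradiction. For index 0 use index q and the periodicity of deriv tau.
-/

set_option autoImplicit false
open Set Filter Topology Pool.Agent.H46.BL

namespace Pool.Agent.H1.BR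

variable {T : Table} {p q : ℕ}

/-- chain rule along a line -/
private theorem line_deriv {f : ℝ × ℝ → ℝ} {a b fa fb ξ η t : ℝ}
    (hf : DifferentiableAt ℝ f (a + t * ξ, b + t * η))
    (h1 : HasDerivAt (fun x => f (x, b + t * η)) fa (a + t * ξ))
    (h2 : HasDerivAt (fun y => f (a + t * ξ, y)) fb (b + t * η)) :
    HasDerivAt (fun s => f (a + s * ξ, b + s * η)) (fa * ξ + fb * η) t := by
  have hF := hf.hasFDerivAt
  have e1 : (fderiv ℝ f (a + t * ξ, b + t * η)) ((1 : ℝ), (0 : ℝ)) = fa := by
    have h3 : HasDerivAt (fun x : ℝ => (x, b + t * η)) ((1 : ℝ), (0 : ℝ)) (a + t * ξ) :=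
      (hasDerivAt_id _).prodMk (hasDerivAt_const _ _)
    exact (HasFDerivAt.comp_hasDerivAt (a + t * ξ) hF h3).unique h1
  have e2 : (fderiv ℝ f (a + t * ξ, b + t * η)) ((0 : ℝ), (1 : ℝ)) = fb := by
    have h3 : HasDerivAt (fun y : ℝ => (a + t * ξ, y)) ((0 : ℝ), (1 : ℝ)) (b + t * η) :=
      (hasDerivAt_const _ _).prodMk (hasDerivAt_id _)
    exact (HasFDerivAt.comp_hasDerivAt (b + t * η) hF h3).unique h2
  have u1 : HasDerivAt (fun s : ℝ => a + s * ξ) ξ t := by
    have := ((hasDerivAt_id t).mul_const ξ).const_add a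
    simpa using this
  have u2 : HasDerivAt (fun s : ℝ => b + s * η) η t := by
    have := ((hasDerivAt_id t).mul_const η).const_add b
    simpa using this
  have h6 := HasFDerivAt.comp_hasDerivAt t hF (u1.prodMk u2)
  have h7 : (fderiv ℝ f (a + t * ξ, b + t * η)) (ξ, η) = fa * ξ + fb * η := by
    have h8 : (ξ, η) = ξ • ((1 : ℝ), (0 : ℝ)) + η • ((0 : ℝ), (1 : ℝ)) := by ext <;> simp
    rw [h8, map_add, map_smul, map_smul, e1, e2, smul_eq_mul, smul_eq_mul]
    ring
  rw [h7] at h6
  exact h6

private theorem len_diff {x y : ℝ} (h : x < y) (h' : y < x + T.L) :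
    DifferentiableAt ℝ (fun z : ℝ × ℝ => len T z.1 z.2) (x, y) := by
  have g : Differentiable ℝ T.γ := fun s => (T.tangent s).differentiableAt
  have h1 : DifferentiableAt ℝ (fun z : ℝ × ℝ => T.γ z.2 - T.γ z.1) (x, y) :=
    ((g.comp differentiable_snd).sub (g.comp differentiable_fst)).differentiableAt
  have h2 := len_pos h h'
  unfold len at h2 ⊢
  exact h1.norm ℝ (norm_pos_iff.1 h2)

/-- second derivative test, necessary condition -/
private theorem second_test {G g : ℝ → ℝ} {c : ℝ} (hmax : ∀ᶠ t in 𝓝 (0 : ℝ), G t ≤ G 0)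
    (hd : ∀ᶠ t in 𝓝 (0 : ℝ), HasDerivAt G (g t) t) (hg : HasDerivAt g c 0) : c ≤ 0 := by
  by_contra hc
  rw [not_le] at hc
  have h1 : deriv G =ᶠ[𝓝 0] g := hd.mono fun t ht => ht.deriv
  have h2 : deriv (deriv G) 0 = c := by rw [h1.deriv_eq, hg.deriv]
  have h3 : IsLocalMax G 0 := hmax
  have h4 : deriv G 0 = 0 := h3.deriv_eq_zero
  have h5 : ContinuousAt G 0 := hd.self_of_nhds.continuousAt
  have h6 := isLocalMin_of_deriv_deriv_pos (by rw [h2]; exact hc) h4 h5
  have h7 : G =ᶠ[𝓝 0] fun _ => G 0 := by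
    filter_upwards [hmax, h6] with t a b using le_antisymm a b
  have h8 : deriv G =ᶠ[𝓝 0] deriv (fun _ : ℝ => G 0) := h7.deriv
  have h9 : deriv (deriv G) 0 = 0 := by
    rw [h8.deriv_eq]
    simp
  rw [h2] at h9
  exact absurd h9 hc.ne'

theorem var2 (hp : 0 < p) (hpq : p < q) {x : ℕ → ℝ} (hx : Longest T p q x) (ξ : ℕ → ℝ)
    (hξ : ∀ i, ξ (i + q) = ξ i) :
    ∑ i ∈ Finset.range q, (l11 T (x i) (x (i + 1)) * ξ i ^ 2 + 2 * l12 T (x i) (x (i + 1)) * (ξ i * ξ (i + 1))
      + l22 T (x i) (x (i + 1)) * ξ (i + 1) ^ 2) ≤ 0 := by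
  obtain ⟨hTw, -⟩ := nde hp hpq hx
  obtain ⟨hP, hmax⟩ := hx
  have hlt := fun i => tw_lt (hTw i)
  have hS : ∀ᶠ t in 𝓝 (0 : ℝ), ∀ j, x j + t * ξ j < x (j + 1) + t * ξ (j + 1) ∧
      x (j + 1) + t * ξ (j + 1) < x j + t * ξ j + T.L := by
    have h1 : ∀ᶠ t in 𝓝 (0 : ℝ), ∀ j ∈ Finset.range q,
        x j + t * ξ j < x (j + 1) + t * ξ (j + 1) ∧
        x (j + 1) + t * ξ (j + 1) < x j + t * ξ j + T.L := by
      rw [Filter.eventually_all_finset]
      intro j _
      have c1 : Continuous (fun t : ℝ => x j + t * ξ j) := by fun_prop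
      have c2 : Continuous (fun t : ℝ => x (j + 1) + t * ξ (j + 1)) := by fun_prop
      have c3 : Continuous (fun t : ℝ => x j + t * ξ j + T.L) := by fun_prop
      refine Filter.Eventually.and ?_ ?_
      · refine c1.continuousAt.eventually_lt c2.continuousAt ?_
        simpa using (hlt j).1
      · refine c2.continuousAt.eventually_lt c3.continuousAt ?_
        simpa using (hlt j).2
    filter_upwards [h1] with t ht
    intro j
    induction j using Nat.strong_induction_on with
    | _ j ih =>
      by_cases hj : j < q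
      · exact ht j (Finset.mem_range.2 hj)
      · have hj' : j - q + q = j := by omega
        have h2 := ih (j - q) (by omega)
        have e1 : x j = x (j - q) + p * T.L := by
          have := hP.per (j - q)
          rwa [hj'] at this
        have e2 : x (j + 1) = x (j - q + 1) + p * T.L := by
          have := hP.per (j - q + 1)
          rwa [show j - q + 1 + q = j + 1 by omega] at this
        have e3 : ξ j = ξ (j - q) := by
          have := hξ (j - q)
          rwa [hj'] at this
        have e4 : ξ (j + 1) = ξ (j - q + 1) := by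
          have := hξ (j - q + 1)
          rwa [show j - q + 1 + q = j + 1 by omega] at this
        rw [e1, e2, e3, e4]
        constructor
        · linarith [h2.1]
        · linarith [h2.2]
  have hc : HasDerivAt (fun t : ℝ => ∑ i ∈ Finset.range q,
      (l1 T (x i + t * ξ i) (x (i + 1) + t * ξ (i + 1)) * ξ i
        + l2 T (x i + t * ξ i) (x (i + 1) + t * ξ (i + 1)) * ξ (i + 1)))
      (∑ i ∈ Finset.range q, ((l11 T (x i) (x (i + 1)) * ξ i + l12 T (x i) (x (i + 1)) * ξ (i + 1)) * ξ i
        + (l12 T (x i) (x (i + 1)) * ξ i + l22 T (x i) (x (i + 1)) * ξ (i + 1)) * ξ (i + 1))) 0 := by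
    refine HasDerivAt.fun_sum fun i _ => ?_
    have z1 : x i + 0 * ξ i = x i := by ring
    have z2 : x (i + 1) + 0 * ξ (i + 1) = x (i + 1) := by ring
    have A := line_deriv (f := fun z : ℝ × ℝ => l1 T z.1 z.2) (a := x i) (b := x (i + 1)) (t := 0)
      (ξ := ξ i) (η := ξ (i + 1)) (fa := l11 T (x i) (x (i + 1))) (fb := l12 T (x i) (x (i + 1)))
      (by rw [z1, z2]; exact (l1_C1 (hlt i).1 (hlt i).2).differentiableAt (by norm_num))
      (by simp only [z1, z2]; exact l1_d1 (hlt i).1 (hlt i).2)
      (by simp only [z1, z2]; exact l1_d2 (hlt i).1 (hlt i).2)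
    have B := line_deriv (f := fun z : ℝ × ℝ => l2 T z.1 z.2) (a := x i) (b := x (i + 1)) (t := 0)
      (ξ := ξ i) (η := ξ (i + 1)) (fa := l12 T (x i) (x (i + 1))) (fb := l22 T (x i) (x (i + 1)))
      (by rw [z1, z2]; exact (l2_C1 (hlt i).1 (hlt i).2).differentiableAt (by norm_num))
      (by simp only [z1, z2]; exact l2_d1 (hlt i).1 (hlt i).2)
      (by simp only [z1, z2]; exact l2_d2 (hlt i).1 (hlt i).2)
    exact (A.mul_const (ξ i)).add (B.mul_const (ξ (i + 1)))
  have hG : ∀ᶠ t in 𝓝 (0 : ℝ), HasDerivAt (fun t : ℝ => peri T q (fun j => x j + t * ξ j))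
      (∑ i ∈ Finset.range q,
      (l1 T (x i + t * ξ i) (x (i + 1) + t * ξ (i + 1)) * ξ i
        + l2 T (x i + t * ξ i) (x (i + 1) + t * ξ (i + 1)) * ξ (i + 1))) t := by
    filter_upwards [hS] with t ht
    unfold peri
    refine HasDerivAt.fun_sum fun i _ => ?_
    exact line_deriv (f := fun z : ℝ × ℝ => len T z.1 z.2) (a := x i) (b := x (i + 1)) (t := t)
      (ξ := ξ i) (η := ξ (i + 1)) (len_diff (ht i).1 (ht i).2) (len_d1 (ht i).1 (ht i).2)
      (len_d2 (ht i).1 (ht i).2)
  have hM : ∀ᶠ t in 𝓝 (0 : ℝ), peri T q (fun j => x j + t * ξ j) ≤ peri T q (fun j => x j + 0 * ξ j) := by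
    filter_upwards [hS] with t ht
    have h0 : (fun j => x j + 0 * ξ j) = x := by
      funext j; ring
    rw [h0]
    refine hmax _ ⟨fun i => (ht i).1.le, fun i => (ht i).2.le, fun i => ?_⟩
    show x (i + q) + t * ξ (i + q) = x i + t * ξ i + p * T.L
    rw [hP.per, hξ]
    ring
  have key := second_test hM hG hc
  refine le_trans (le_of_eq (Finset.sum_congr rfl fun i _ => ?_)) key
  ring

private theorem tau_per (s : ℝ) : deriv T.τ (s + T.L) = deriv T.τ s := by
  have h2 := deriv_comp_add_const T.τ T.L s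
  rw [← h2]
  have h3 : (fun x => T.τ (x + T.L)) = fun x => T.τ x + 2 * Real.pi := funext T.turning
  rw [h3, deriv_add_const]

private theorem tau_per_nat (s : ℝ) (k : ℕ) : deriv T.τ (s + k * T.L) = deriv T.τ s := by
  induction k with
  | zero => simp
  | succ k ih =>
    rw [← ih, ← tau_per (s + k * T.L)]
    congr 1
    push_cast
    ring

private theorem tau_mod {x : ℕ → ℝ} (hper : ∀ i, x (i + q) = x i + p * T.L) (r k : ℕ) :
    deriv T.τ (x (r + q * k)) = deriv T.τ (x r) := by
  induction k with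
  | zero => simp
  | succ k ih =>
    rw [← ih, show r + q * (k + 1) = r + q * k + q by ring, hper, tau_per_nat]

private theorem l11_pos {x y : ℝ} (ht : Tw T x y) (h0 : deriv T.τ x = 0) : 0 < l11 T x y := by
  unfold l11
  rw [h0]
  have a := hx_pos ht
  have b := len_pos (tw_lt ht).1 (tw_lt ht).2
  have : 0 < hx T x y ^ 2 / len T x y ^ 3 := by positivity
  simpa using this

private theorem l22_pos {x y : ℝ} (ht : Tw T x y) (h0 : deriv T.τ y = 0) : 0 < l22 T x y := by
  unfold l22
  rw [h0]
  have a := hy_pos ht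
  have b := len_pos (tw_lt ht).1 (tw_lt ht).2
  have : 0 < hy T x y ^ 2 / len T x y ^ 3 := by positivity
  simpa using this

theorem curv_pos (hp : 0 < p) (hpq : p < q) {x : ℕ → ℝ} (hx : Longest T p q x) (i : ℕ) :
    0 < deriv T.τ (x i) := by
  by_contra hcon
  have h0 : deriv T.τ (x i) = 0 := le_antisymm (not_lt.1 hcon) (T.curv _)
  obtain ⟨hTw, -⟩ := nde hp hpq hx
  have hlt := fun i => tw_lt (hTw i)
  have hall : ∀ j, j % q = i % q → deriv T.τ (x j) = 0 := by
    intro j hj
    have e1 := tau_mod (T := T) hx.1.per (j % q) (j / q)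
    have e2 := tau_mod (T := T) hx.1.per (i % q) (i / q)
    rw [Nat.mod_add_div] at e1 e2
    rw [e1, hj, ← e2, h0]
  have hv := var2 hp hpq hx (fun j => if j % q = i % q then 1 else 0) (by
    intro j
    simp only [Nat.add_mod_right])
  have hpos : 0 < ∑ j ∈ Finset.range q, (l11 T (x j) (x (j + 1)) * (if j % q = i % q then (1 : ℝ) else 0) ^ 2
      + 2 * l12 T (x j) (x (j + 1)) * ((if j % q = i % q then (1 : ℝ) else 0)
        * (if (j + 1) % q = i % q then (1 : ℝ) else 0))
      + l22 T (x j) (x (j + 1)) * (if (j + 1) % q = i % q then (1 : ℝ) else 0) ^ 2) := by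
    have a1 : ∀ j, j % q = i % q → 0 < l11 T (x j) (x (j + 1)) := fun j hj => l11_pos (hTw j) (hall j hj)
    have a2 : ∀ j, (j + 1) % q = i % q → 0 < l22 T (x j) (x (j + 1)) := fun j hj =>
      l22_pos (hTw j) (hall (j + 1) hj)
    refine Finset.sum_pos' ?_ ⟨i % q, Finset.mem_range.2 (Nat.mod_lt _ (by omega)), ?_⟩
    · intro j _
      have b := l12_pos (hTw j)
      by_cases c1 : j % q = i % q
      · by_cases c2 : (j + 1) % q = i % q
        · have := a1 j c1
          have := a2 j c2
          rw [if_pos c1, if_pos c2]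
          positivity
        · have := a1 j c1
          rw [if_pos c1, if_neg c2]
          simp only [one_pow, mul_one, mul_zero, add_zero, ne_eq, OfNat.ofNat_ne_zero, not_false_eq_true,
            zero_pow]
          exact this.le
      · by_cases c2 : (j + 1) % q = i % q
        · have := a2 j c2
          rw [if_neg c1, if_pos c2]
          simp only [one_pow, mul_one, mul_zero, zero_add, ne_eq, OfNat.ofNat_ne_zero,
            not_false_eq_true, zero_pow]
          exact this.le
        · rw [if_neg c1, if_neg c2]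
          simp
    · have c1 : i % q % q = i % q := Nat.mod_mod _ _
      have d1 := a1 (i % q) c1
      have b := l12_pos (hTw (i % q))
      by_cases c2 : (i % q + 1) % q = i % q
      · have := a2 (i % q) c2
        rw [if_pos c1, if_pos c2]
        positivity
      · rw [if_pos c1, if_neg c2]
        simp only [one_pow, mul_one, mul_zero, add_zero, ne_eq, OfNat.ofNat_ne_zero, not_false_eq_true,
          zero_pow]
        exact d1
  exact absurd hv (not_le.2 hpos)

end Pool.Agent.H1.BR
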