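import Pool.Agent.H1.BR.Cro
import Pool.Agent.H1.BR.Vr2

/-
ROW Phi.  The circle of longest polygons.  For s choose (uniquely, cross_eq) the Longest x^s with x^s 0 = s; phi s := x^s 1.  x^{phi s} = x^s (. + 1) (longest_shift), so phi^[i] s = x^s i; in particular phi^[q] s = x^s q = s + pL.
StrictMono: cross_lt at index 1.  phi (s+L) = phi s + L: longest_addL.  Surjective: phi (x^s (q-1) - pL) = s (shift x^s by q-1 and translate by -pL, p as integer multiple); so continuous (Monotone.continuous_of_surjective / StrictMono).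
tw, el: nde.   curvature: curv_pos with i = 0.
-/

set_option autoImplicit false
open Set Filter Topology Pool.Agent.H46.BL

namespace Pool.Agent.H1.BR

variable {T : Table} {p q : ℕ}

theorem circle_of_longest (hp : 0 < p) (hpq : p < q) (hall : ∀ s : ℝ, ∃ x, Longest T p q x ∧ x 0 = s) :
    (∃ φ : ℝ → ℝ, Circ T φ ∧ ∀ s, φ^[q] s = s + p * T.L) ∧ ∀ s, 0 < deriv T.τ s := by
  choose X hX using hall
  have key : ∀ x : ℕ → ℝ, Longest T p q x → X (x 0) = x := fun x hx =>
    cross_eq hp hpq (hX (x 0)).1 hx (hX (x 0)).2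
  have hshift : ∀ s k, X (X s k) = fun i => X s (i + k) := by
    intro s k
    have h := key (fun i => X s (i + k)) (longest_shift (hX s).1 k)
    rw [Nat.zero_add] at h
    exact h
  have hadd : ∀ s (m : ℤ), X (s + m * T.L) = fun i => X s i + m * T.L := by
    intro s m
    have h := key (fun i => X s i + m * T.L) (longest_addL (hX s).1 m)
    rw [(hX s).2] at h
    exact h
  have hmono : StrictMono (fun s => X s 1) := by
    intro s t hst
    refine cross_lt hp hpq (hX s).1 (hX t).1 ?_ 1
    rw [(hX s).2, (hX t).2]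
    exact hst
  have hsurj : Function.Surjective (fun s => X s 1) := by
    intro t
    refine ⟨X t (q - 1) + ((-(p : ℤ) : ℤ) : ℝ) * T.L, ?_⟩
    show X (X t (q - 1) + ((-(p : ℤ) : ℤ) : ℝ) * T.L) 1 = t
    rw [hadd, hshift]
    show X t (1 + (q - 1)) + ((-(p : ℤ) : ℤ) : ℝ) * T.L = t
    have hq : 1 + (q - 1) = 0 + q := by omega
    rw [hq, (hX t).1.1.per 0, (hX t).2]
    push_cast
    ring
  have hiter : ∀ i s, (fun s => X s 1)^[i] s = X s i := by
    intro i
    induction i with
    | zero =>
      intro s
      exact (hX s).2.symm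
    | succ i ih =>
      intro s
      rw [Function.iterate_succ_apply', ih s]
      show X (X s i) 1 = X s (i + 1)
      rw [hshift]
      show X s (1 + i) = X s (i + 1)
      rw [Nat.add_comm]
  refine ⟨⟨fun s => X s 1, ⟨hmono.monotone.continuous_of_surjective hsurj, hmono, ?_, ?_, ?_⟩, ?_⟩, ?_⟩
  · intro s
    show X (s + T.L) 1 = X s 1 + T.L
    have h := hadd s 1
    have e : ((1 : ℤ) : ℝ) * T.L = T.L := by push_cast; ring
    rw [e] at h
    rw [h]
  · intro s
    have h := (nde hp hpq (hX s).1).1 0
    rw [(hX s).2] at h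
    exact h
  · intro s
    show l2 T s (X s 1) + l1 T (X s 1) (X (X s 1) 1) = 0
    have h := (nde hp hpq (hX s).1).2 0
    rw [(hX s).2] at h
    rw [hshift s 1]
    exact h
  · intro s
    rw [hiter q s]
    have h := (hX s).1.1.per 0
    rw [Nat.zero_add, (hX s).2] at h
    exact h
  · intro s
    have h := curv_pos hp hpq (hX s).1 0
    rw [(hX s).2] at h
    exact h

end Pool.Agent.H1.BR
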