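import Pool.Agent.H1.BR.Fha

/-
ROW Rgl.  If dF, dH are linearly independent at a state on the chord x-y (Tw x y) then (F1, F2) /= 0 there.
interior: q = g x + t (g y - g x), 0<t<1, is an interior point of Y: otherwise there is a nonzero real linear functional f with f <= f q on Y (geometric Hahn-Banach, Y convex with nonempty interior); then f (g x) = f (g y) = f q (q is a strict convex
  combination), so f o g has a maximum at x: f (ex (tau x)) = 0, so f p = c * Im(p * ex(-tau x)) for some real c, and 0 = f (g y - g x) = c * hx x y with hx x y > 0 (hx_pos): c = 0, f = 0, contradiction.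
main: Phi(x,y,t) = (g x + t (g y - g x), uc x y), F(Phi(x,y,t)) = Fh x y (hF.flow: q = g x, p = uc x y, time t * len). Suppose F1 x y = F2 x y = 0. Then the derivative of F o Phi at (x,y,t) is 0.  The image of D Phi(x,y,t) contains:
  d/dt: (l u, 0), u = uc x y;  d/dx: ((1-t) ex(tau x), (hx/l^2) * (-?) i u)...: with u = ex phi: d u/dx = (sin theta / l) i u, d u/dy = (sin theta'/l) i u (theta = phi - tau x, theta' = tau y - phi; d phi/dx = sin theta/l, d phi/dy = sin theta'/l).
  d/dx: ((1-t) ex(tau x), (sin theta/l) i u), ex(tau x) = cos theta u - sin theta i u;   d/dy: (t ex(tau y), (sin theta'/l) i u), ex(tau y) = cos theta' u + sin theta' i u.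
  Modulo (u,0): (-(1-t) sin theta i u, (sin theta/l) i u), (t sin theta' i u, (sin theta'/l) i u): these two are independent (sin theta, sin theta' > 0): together they span (iu R) x (iu R). So dF vanishes on C x (i u R), as does dH = <u, .> on the second factor:
  dF = c dH with c = dF(0,u): contradiction to linear independence.
-/

set_option autoImplicit false
open Set Filter Topology Pool.Agent.H46.BL

namespace Pool.Agent.H1.BR

variable {T : Table} {F : ℂ → ℂ → ℝ}

open scoped ContDiff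

private theorem Rgl_lin0 (f : ℂ →L[ℝ] ℝ) {e v : ℂ} (he : f e = 0) (hv : f v = 0)
    (hi : (v * (starRingEnd ℂ) e).im ≠ 0) : ∀ w, f w = 0 := by
  -- `e` and `v` are independent
  have hd : (v * (starRingEnd ℂ) e).im = v.im * e.re - v.re * e.im := by
    simp [Complex.mul_im]
    ring
  rw [hd] at hi
  have h1 : ∀ w : ℂ, f w = w.re * f 1 + w.im * f Complex.I := by
    intro w
    conv_lhs => rw [← Complex.re_add_im w]
    have e1 : ((w.re : ℂ) + (w.im : ℂ) * Complex.I) = w.re • (1 : ℂ) + w.im • Complex.I := by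
      rw [Complex.real_smul, Complex.real_smul, mul_one]
    rw [e1, map_add, map_smul, map_smul, smul_eq_mul, smul_eq_mul]
  have h2 := h1 e
  have h3 := h1 v
  rw [he] at h2
  rw [hv] at h3
  have h4 : f 1 = 0 := by
    have : (v.im * e.re - v.re * e.im) * f 1 = 0 := by
      linear_combination (-v.im) * h2 + e.im * h3
    exact (mul_eq_zero.1 this).resolve_left hi
  have h5 : f Complex.I = 0 := by
    have : (v.im * e.re - v.re * e.im) * f Complex.I = 0 := by
      linear_combination v.re * h2 - e.re * h3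
    exact (mul_eq_zero.1 this).resolve_left hi
  intro w
  rw [h1 w, h4, h5]
  ring

theorem chord_interior {x y t : ℝ} (h : Tw T x y) (ht : t ∈ Ioo (0 : ℝ) 1) : (stt T x y t).1 ∈ interior T.Y := by
  by_contra hq
  obtain ⟨f, hf⟩ := geometric_hahn_banach_open_point T.convex.interior isOpen_interior hq
  have hfY : ∀ a ∈ T.Y, f a ≤ f (stt T x y t).1 := by
    intro a ha
    have h1 : a ∈ closure (interior T.Y) := by
      rw [T.convex.closure_interior_eq_closure_of_nonempty_interior T.inter]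
      exact subset_closure ha
    have h2 : closure (interior T.Y) ⊆ {b | f b ≤ f (stt T x y t).1} := by
      refine closure_minimal (fun b hb => (hf b hb).le) ?_
      exact isClosed_le f.continuous continuous_const
    exact h2 h1
  have hq2 : f (stt T x y t).1 = (1 - t) * f (T.γ x) + t * f (T.γ y) := by
    have e1 : (stt T x y t).1 = (1 - t) • T.γ x + t • T.γ y := by
      unfold stt
      simp only [Complex.real_smul]
      push_cast
      ring
    rw [e1, map_add, map_smul, map_smul, smul_eq_mul, smul_eq_mul]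
  have hx1 := hfY _ (T.γ_mem x)
  have hy1 := hfY _ (T.γ_mem y)
  have hxq : f (T.γ x) = f (stt T x y t).1 := by
    rw [hq2] at hx1 hy1 ⊢
    have h3 : t * (f (T.γ x) - f (T.γ y)) ≤ 0 := by linarith
    have h4 : (1 - t) * (f (T.γ y) - f (T.γ x)) ≤ 0 := by linarith
    have h5 : f (T.γ x) - f (T.γ y) ≤ 0 := by
      by_contra h6
      exact absurd (mul_pos ht.1 (not_le.1 h6)) (not_lt.2 h3)
    have h7 : f (T.γ y) - f (T.γ x) ≤ 0 := by
      by_contra h6
      exact absurd (mul_pos (sub_pos.2 ht.2) (not_le.1 h6)) (not_lt.2 h4)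
    have h8 : f (T.γ x) = f (T.γ y) := by linarith
    rw [h8]
    ring
  have hyx : f (T.γ y - T.γ x) = 0 := by
    rw [hq2] at hxq
    rw [map_sub]
    have : t * (f (T.γ y) - f (T.γ x)) = 0 := by linarith
    exact (mul_eq_zero.1 this).resolve_left ht.1.ne'
  have hmax : IsLocalMax (fun s => f (T.γ s)) x :=
    Filter.Eventually.of_forall fun s => by
      show f (T.γ s) ≤ f (T.γ x)
      rw [hxq]
      exact hfY _ (T.γ_mem s)
  have hder : HasDerivAt (fun s => f (T.γ s)) (f (ex (T.τ x))) x :=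
    f.hasFDerivAt.comp_hasDerivAt x (T.tangent x)
  have he : f (ex (T.τ x)) = 0 := hmax.hasDerivAt_eq_zero hder
  have hp := hx_pos h
  unfold hx at hp
  rw [← ex_conj] at hp
  have h0 := Rgl_lin0 f he hyx hp.ne'
  obtain ⟨a, ha⟩ := T.inter
  have := hf a ha
  rw [h0, h0] at this
  exact lt_irrefl _ this

private theorem Rgl_dir {G U : ℝ → ℂ} {G' U' : ℂ} {s l0 : ℝ} (hG : HasDerivAt G G' s)
    (hU : HasDerivAt U U' s) (h1 : ∀ᶠ r in 𝓝 s, ‖U r‖ = 1) (h2 : ∀ᶠ r in 𝓝 s, ∃ l : ℝ, G r = (l : ℂ) * U r)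
    (hl : 0 < l0) (h0 : G s = (l0 : ℂ) * U s) :
    U' = (((G' * (starRingEnd ℂ) (U s)).im / l0 : ℝ) : ℂ) * (Complex.I * U s) := by
  have hUr : HasDerivAt (fun r => (U r).re) U'.re s := Complex.reCLM.hasFDerivAt.comp_hasDerivAt s hU
  have hUi : HasDerivAt (fun r => (U r).im) U'.im s := Complex.imCLM.hasFDerivAt.comp_hasDerivAt s hU
  have hGr : HasDerivAt (fun r => (G r).re) G'.re s := Complex.reCLM.hasFDerivAt.comp_hasDerivAt s hG
  have hGi : HasDerivAt (fun r => (G r).im) G'.im s := Complex.imCLM.hasFDerivAt.comp_hasDerivAt s hG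
  have a1 : HasDerivAt (fun r => (U r).re * (U r).re + (U r).im * (U r).im)
      (U'.re * (U s).re + (U s).re * U'.re + (U'.im * (U s).im + (U s).im * U'.im)) s :=
    (hUr.mul hUr).add (hUi.mul hUi)
  have a2 : HasDerivAt (fun r => (U r).re * (U r).re + (U r).im * (U r).im) 0 s := by
    refine (hasDerivAt_const s (1 : ℝ)).congr_of_eventuallyEq ?_
    filter_upwards [h1] with r hr
    have h3 : Complex.normSq (U r) = 1 := by rw [Complex.normSq_eq_norm_sq, hr]; norm_num
    rw [Complex.normSq_apply] at h3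
    exact h3
  have a3 := a1.unique a2
  have b1 : HasDerivAt (fun r => (U r).re * (G r).im - (U r).im * (G r).re)
      (U'.re * (G s).im + (U s).re * G'.im - (U'.im * (G s).re + (U s).im * G'.re)) s :=
    (hUr.mul hGi).sub (hUi.mul hGr)
  have b2 : HasDerivAt (fun r => (U r).re * (G r).im - (U r).im * (G r).re) 0 s := by
    refine (hasDerivAt_const s (0 : ℝ)).congr_of_eventuallyEq ?_
    filter_upwards [h2] with r hr
    obtain ⟨l, hl⟩ := hr
    rw [hl]
    simp
    ring
  have b3 := b1.unique b2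
  have c1 : (U s).re * (U s).re + (U s).im * (U s).im = 1 := by
    have h3 : Complex.normSq (U s) = 1 := by
      rw [Complex.normSq_eq_norm_sq, h1.self_of_nhds]; norm_num
    rw [Complex.normSq_apply] at h3
    exact h3
  have g1 : (G s).re = l0 * (U s).re := by rw [h0]; simp
  have g2 : (G s).im = l0 * (U s).im := by rw [h0]; simp
  rw [g1, g2] at b3
  have hr : (G' * (starRingEnd ℂ) (U s)).im = (U s).re * G'.im - (U s).im * G'.re := by
    simp [Complex.mul_im]
    ring
  rw [hr]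
  obtain ⟨k, hk⟩ : ∃ k : ℝ, k = ((U s).re * G'.im - (U s).im * G'.re) / l0 := ⟨_, rfl⟩
  have hk2 : k * l0 = (U s).re * G'.im - (U s).im * G'.re := by
    rw [hk]
    field_simp
  rw [← hk]
  have e1 : (U s).re * U'.im - (U s).im * U'.re = k := by
    have : l0 * ((U s).re * U'.im - (U s).im * U'.re - k) = 0 := by
      linear_combination (-1) * b3 + (-1) * hk2
    have := (mul_eq_zero.1 this).resolve_left hl.ne'
    linarith
  have e2 : (U s).re * U'.re + (U s).im * U'.im = 0 := by linarith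
  apply Complex.ext
  · simp
    linear_combination (-U'.re) * c1 + (U s).re * e2 - (U s).im * e1
  · simp
    linear_combination (-U'.im) * c1 + (U s).im * e2 + (U s).re * e1

theorem regular_chord (hF : T.Integral F) {x y t : ℝ} (h : Tw T x y) (ht : t ∈ Ioo (0 : ℝ) 1)
    (hr : Regular F (stt T x y t)) : F1 T F x y ≠ 0 ∨ F2 T F x y ≠ 0 := by
  by_contra hcon
  push Not at hcon
  obtain ⟨hF1, hF2⟩ := hcon
  obtain ⟨hxy, hyx⟩ := tw_lt h
  have hlen := len_pos hxy hyx
  obtain ⟨l, hl⟩ : ∃ l, l = len T x y := ⟨_, rfl⟩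
  obtain ⟨u, hu⟩ : ∃ u, u = uc T x y := ⟨_, rfl⟩
  rw [← hl] at hlen
  have hl0 : (l : ℂ) ≠ 0 := by exact_mod_cast hlen.ne'
  have hG : T.γ y - T.γ x = (l : ℂ) * u := by
    rw [hu, uc, ← hl]
    field_simp
  have hun : ‖u‖ = 1 := by rw [hu]; exact uc_norm hxy hyx
  -- the value of `F` along the chords
  have hval : ∀ x' y' t' : ℝ, x' < y' → y' < x' + T.L → t' ∈ Ioo (0 : ℝ) 1 →
      F (T.γ x' + (t' : ℂ) * (T.γ y' - T.γ x')) (uc T x' y') = Fh T F x' y' := by
    intro x' y' t' h1 h2 h3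
    have h4 := len_pos h1 h2
    have h5 : ((len T x' y' : ℝ) : ℂ) ≠ 0 := by exact_mod_cast h4.ne'
    have h6 : T.γ x' + (t' : ℂ) * (T.γ y' - T.γ x')
        = T.γ x' + ((t' * len T x' y' : ℝ) : ℂ) * uc T x' y' := by
      unfold uc
      push_cast
      field_simp
    have h7 : uc T x' y' ≠ 0 := by
      intro h8
      have := uc_norm h1 h2
      rw [h8, norm_zero] at this
      exact zero_ne_one this
    unfold Fh
    rw [h6]
    refine hF.flow _ (T.γ_mem x') _ h7 _ ?_
    rw [← h6]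
    have h8 : T.γ x' + (t' : ℂ) * (T.γ y' - T.γ x') = (1 - t') • T.γ x' + t' • T.γ y' := by
      simp only [Complex.real_smul]
      push_cast
      ring
    rw [h8]
    exact T.convex (T.γ_mem x') (T.γ_mem y') (sub_nonneg.2 h3.2.le) h3.1.le (by ring)
  -- the differential
  have hz : stt T x y t = (T.γ x + (t : ℂ) * (T.γ y - T.γ x), u) := by rw [hu]; rfl
  have hu0 : u ≠ 0 := by
    intro h8
    rw [h8, norm_zero] at hun
    exact zero_ne_one hun
  have hD : HasFDerivAt (fun w : ℂ × ℂ => F w.1 w.2)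
      (fderiv ℝ (fun w : ℂ × ℂ => F w.1 w.2) (stt T x y t)) (stt T x y t) := by
    have h1 : T.Y ×ˢ {p : ℂ | p ≠ 0} ∈ 𝓝 (stt T x y t) := by
      have h2 : (stt T x y t).1 ∈ interior T.Y := chord_interior h ht
      rw [show stt T x y t = ((stt T x y t).1, (stt T x y t).2) from rfl]
      refine prod_mem_nhds (mem_interior_iff_mem_nhds.1 h2) ?_
      refine isOpen_ne.mem_nhds ?_
      rw [hz]
      exact hu0
    exact ((hF.smooth.contDiffAt h1).differentiableAt (by simp)).hasFDerivAt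
  obtain ⟨D, hDd⟩ : ∃ D, D = fderiv ℝ (fun w : ℂ × ℂ => F w.1 w.2) (stt T x y t) := ⟨_, rfl⟩
  rw [← hDd] at hD
  have hcd := uc_smooth hxy hyx
  -- derivative in x
  have hUx : HasDerivAt (fun x' => uc T x' y) (deriv (fun x' => uc T x' y) x) x := by
    have h1 : ContDiffAt ℝ ∞ (fun x' : ℝ => uc T x' y) x :=
      ContDiffAt.comp x (f := fun x' : ℝ => (x', y)) (g := fun z : ℝ × ℝ => uc T z.1 z.2) hcd
        (contDiffAt_id.prodMk contDiffAt_const)
    exact (h1.differentiableAt (by simp)).hasDerivAt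
  have hUy : HasDerivAt (fun y' => uc T x y') (deriv (fun y' => uc T x y') y) y := by
    have h1 : ContDiffAt ℝ ∞ (fun y' : ℝ => uc T x y') y :=
      ContDiffAt.comp y (f := fun y' : ℝ => (x, y')) (g := fun z : ℝ × ℝ => uc T z.1 z.2) hcd
        (contDiffAt_const.prodMk contDiffAt_id)
    exact (h1.differentiableAt (by simp)).hasDerivAt
  have evx : ∀ᶠ x' in 𝓝 x, x' < y ∧ y < x' + T.L := by
    have h1 : ∀ᶠ x' in 𝓝 x, x' < y := Iio_mem_nhds hxy
    have h2 : ∀ᶠ x' in 𝓝 x, y - T.L < x' := Ioi_mem_nhds (by linarith)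
    filter_upwards [h1, h2] with x' a b
    exact ⟨a, by linarith⟩
  have evy : ∀ᶠ y' in 𝓝 y, x < y' ∧ y' < x + T.L := by
    have h1 : ∀ᶠ y' in 𝓝 y, x < y' := Ioi_mem_nhds hxy
    have h2 : ∀ᶠ y' in 𝓝 y, y' < x + T.L := Iio_mem_nhds hyx
    filter_upwards [h1, h2] with y' a b
    exact ⟨a, b⟩
  have hpar : ∀ x' y' : ℝ, x' < y' → y' < x' + T.L → ∃ k : ℝ, T.γ y' - T.γ x' = (k : ℂ) * uc T x' y' := by
    intro x' y' h1 h2
    have h4 := len_pos h1 h2
    have h5 : ((len T x' y' : ℝ) : ℂ) ≠ 0 := by exact_mod_cast h4.ne'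
    refine ⟨len T x' y', ?_⟩
    unfold uc
    field_simp
  have dx := Rgl_dir (G := fun x' => T.γ y - T.γ x') (U := fun x' => uc T x' y) (s := x) (l0 := l)
    ((T.tangent x).const_sub (T.γ y)) hUx (evx.mono fun x' hx' => uc_norm hx'.1 hx'.2)
    (evx.mono fun x' hx' => hpar x' y hx'.1 hx'.2) hlen (by rw [← hu]; exact hG)
  have dy := Rgl_dir (G := fun y' => T.γ y' - T.γ x) (U := fun y' => uc T x y') (s := y) (l0 := l)
    ((T.tangent y).sub_const (T.γ x)) hUy (evy.mono fun y' hy' => uc_norm hy'.1 hy'.2)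
    (evy.mono fun y' hy' => hpar x y' hy'.1 hy'.2) hlen (by rw [← hu]; exact hG)
  rw [dx] at hUx
  rw [dy] at hUy
  rw [← hu] at hUx hUy
  -- the imaginary parts
  obtain ⟨a, ha⟩ : ∃ a, a = hx T x y := ⟨_, rfl⟩
  obtain ⟨b, hb⟩ : ∃ b, b = hy T x y := ⟨_, rfl⟩
  have ha0 : 0 < a := by rw [ha]; exact hx_pos h
  have hb0 : 0 < b := by rw [hb]; exact hy_pos h
  have hcj : ∀ z w : ℂ, (z * (starRingEnd ℂ) w).im = -(w * (starRingEnd ℂ) z).im := by
    intro z w
    simp [Complex.mul_im]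
    ring
  have ix : (ex (T.τ x) * (starRingEnd ℂ) u).im = -(a / l) := by
    rw [hcj, ex_conj]
    have h1 : a = l * (u * ex (-(T.τ x))).im := by
      rw [ha, hx, hG, mul_assoc, Complex.im_ofReal_mul]
    rw [h1]
    field_simp
  have iy : (ex (T.τ y) * (starRingEnd ℂ) u).im = b / l := by
    rw [hcj, ex_conj]
    have h1 : b = -(l * (u * ex (-(T.τ y))).im) := by
      rw [hb, hy, hG, mul_assoc, Complex.im_ofReal_mul]
    rw [h1]
    field_simp
  -- the decomposition with respect to `u, i u`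
  have huu : (starRingEnd ℂ) u * u = 1 := by
    rw [mul_comm, Complex.mul_conj, Complex.normSq_eq_norm_sq, hun]
    norm_num
  have hdec : ∀ w : ℂ, w = (w * (starRingEnd ℂ) u).re • u + (w * (starRingEnd ℂ) u).im • (Complex.I * u) := by
    intro w
    have h1 : w = (w * (starRingEnd ℂ) u) * u := by rw [mul_assoc, huu, mul_one]
    conv_lhs => rw [h1]
    obtain ⟨c, hc⟩ : ∃ c, c = w * (starRingEnd ℂ) u := ⟨_, rfl⟩
    rw [← hc, Complex.real_smul, Complex.real_smul]
    conv_lhs => rw [← Complex.re_add_im c]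
    ring
  -- (a)
  have hA : D (u, 0) = 0 := by
    have h1 : HasDerivAt (fun t' : ℝ => (T.γ x + (t' : ℂ) * (T.γ y - T.γ x), uc T x y))
        ((1 : ℂ) * (T.γ y - T.γ x), (0 : ℂ)) t := by
      refine HasDerivAt.prodMk ?_ (hasDerivAt_const _ _)
      exact (Complex.ofRealCLM.hasDerivAt.mul_const (T.γ y - T.γ x)).const_add (T.γ x)
    have h2 : HasDerivAt (fun t' : ℝ => F (T.γ x + (t' : ℂ) * (T.γ y - T.γ x)) (uc T x y))
        (D ((1 : ℂ) * (T.γ y - T.γ x), (0 : ℂ))) t := by
      have hD2 : HasFDerivAt (fun w : ℂ × ℂ => F w.1 w.2) D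
        ((fun t' : ℝ => (T.γ x + (t' : ℂ) * (T.γ y - T.γ x), uc T x y)) t) := hD
      exact hD2.comp_hasDerivAt t h1
    have h3 : HasDerivAt (fun t' : ℝ => F (T.γ x + (t' : ℂ) * (T.γ y - T.γ x)) (uc T x y)) 0 t := by
      refine (hasDerivAt_const t (Fh T F x y)).congr_of_eventuallyEq ?_
      filter_upwards [isOpen_Ioo.mem_nhds ht] with t' ht'
      exact hval x y t' hxy hyx ht'
    have h4 := h2.unique h3
    have h5 : ((1 : ℂ) * (T.γ y - T.γ x), (0 : ℂ)) = l • ((u, 0) : ℂ × ℂ) := by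
      rw [one_mul, hG, Prod.smul_mk, Complex.real_smul, smul_zero]
    rw [h5, map_smul, smul_eq_mul] at h4
    exact (mul_eq_zero.1 h4).resolve_left hlen.ne'
  -- (b)
  have hB : D (ex (T.τ x) + (t : ℂ) * (-ex (T.τ x)),
      ((((-ex (T.τ x)) * (starRingEnd ℂ) u).im / l : ℝ) : ℂ) * (Complex.I * u)) = 0 := by
    have h1 : HasDerivAt (fun x' : ℝ => (T.γ x' + (t : ℂ) * (T.γ y - T.γ x'), uc T x' y))
        (ex (T.τ x) + (t : ℂ) * (-ex (T.τ x)),
          ((((-ex (T.τ x)) * (starRingEnd ℂ) u).im / l : ℝ) : ℂ) * (Complex.I * u)) x := by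
      refine HasDerivAt.prodMk ?_ hUx
      exact (T.tangent x).add (((T.tangent x).const_sub (T.γ y)).const_mul (t : ℂ))
    have h2 : HasDerivAt (fun x' : ℝ => F (T.γ x' + (t : ℂ) * (T.γ y - T.γ x')) (uc T x' y))
        (D (ex (T.τ x) + (t : ℂ) * (-ex (T.τ x)),
          ((((-ex (T.τ x)) * (starRingEnd ℂ) u).im / l : ℝ) : ℂ) * (Complex.I * u))) x := by
      have hD2 : HasFDerivAt (fun w : ℂ × ℂ => F w.1 w.2) D
        ((fun x' : ℝ => (T.γ x' + (t : ℂ) * (T.γ y - T.γ x'), uc T x' y)) x) := hD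
      exact hD2.comp_hasDerivAt x h1
    have h3 : HasDerivAt (fun x' : ℝ => Fh T F x' y)
        (D (ex (T.τ x) + (t : ℂ) * (-ex (T.τ x)),
          ((((-ex (T.τ x)) * (starRingEnd ℂ) u).im / l : ℝ) : ℂ) * (Complex.I * u))) x := by
      refine h2.congr_of_eventuallyEq ?_
      filter_upwards [evx] with x' hx'
      exact (hval x' y t hx'.1 hx'.2 ht).symm
    rw [← h3.deriv]
    exact hF1
  have hC : D ((t : ℂ) * ex (T.τ y),
      (((ex (T.τ y) * (starRingEnd ℂ) u).im / l : ℝ) : ℂ) * (Complex.I * u)) = 0 := by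
    have h1 : HasDerivAt (fun y' : ℝ => (T.γ x + (t : ℂ) * (T.γ y' - T.γ x), uc T x y'))
        ((t : ℂ) * ex (T.τ y),
          (((ex (T.τ y) * (starRingEnd ℂ) u).im / l : ℝ) : ℂ) * (Complex.I * u)) y := by
      refine HasDerivAt.prodMk ?_ hUy
      exact (((T.tangent y).sub_const (T.γ x)).const_mul (t : ℂ)).const_add (T.γ x)
    have h2 : HasDerivAt (fun y' : ℝ => F (T.γ x + (t : ℂ) * (T.γ y' - T.γ x)) (uc T x y'))
        (D ((t : ℂ) * ex (T.τ y),
          (((ex (T.τ y) * (starRingEnd ℂ) u).im / l : ℝ) : ℂ) * (Complex.I * u))) y := by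
      have hD2 : HasFDerivAt (fun w : ℂ × ℂ => F w.1 w.2) D
        ((fun y' : ℝ => (T.γ x + (t : ℂ) * (T.γ y' - T.γ x), uc T x y')) y) := hD
      exact hD2.comp_hasDerivAt y h1
    have h3 : HasDerivAt (fun y' : ℝ => Fh T F x y')
        (D ((t : ℂ) * ex (T.τ y),
          (((ex (T.τ y) * (starRingEnd ℂ) u).im / l : ℝ) : ℂ) * (Complex.I * u))) y := by
      refine h2.congr_of_eventuallyEq ?_
      filter_upwards [evy] with y' hy'
      exact (hval x y' t hy'.1 hy'.2 ht).symm
    rw [← h3.deriv]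
    exact hF2
  obtain ⟨d1, hd1⟩ : ∃ d1, d1 = D (Complex.I * u, 0) := ⟨_, rfl⟩
  obtain ⟨d2, hd2⟩ : ∃ d2, d2 = D (0, Complex.I * u) := ⟨_, rfl⟩
  have hDD : ∀ p q : ℂ, D (p, q) = (p * (starRingEnd ℂ) u).re * D (u, 0) + (p * (starRingEnd ℂ) u).im * d1
      + ((q * (starRingEnd ℂ) u).re * D (0, u) + (q * (starRingEnd ℂ) u).im * d2) := by
    intro p q
    have e : ((p, q) : ℂ × ℂ) = (p * (starRingEnd ℂ) u).re • ((u, 0) : ℂ × ℂ)
        + (p * (starRingEnd ℂ) u).im • ((Complex.I * u, 0) : ℂ × ℂ)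
        + ((q * (starRingEnd ℂ) u).re • ((0, u) : ℂ × ℂ)
          + (q * (starRingEnd ℂ) u).im • ((0, Complex.I * u) : ℂ × ℂ)) := by
      refine Prod.ext ?_ ?_
      · show p = (p * (starRingEnd ℂ) u).re • u + (p * (starRingEnd ℂ) u).im • (Complex.I * u)
          + ((q * (starRingEnd ℂ) u).re • (0 : ℂ) + (q * (starRingEnd ℂ) u).im • (0 : ℂ))
        rw [smul_zero, smul_zero, add_zero, add_zero]
        exact hdec p
      · show q = (p * (starRingEnd ℂ) u).re • (0 : ℂ) + (p * (starRingEnd ℂ) u).im • (0 : ℂ)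
          + ((q * (starRingEnd ℂ) u).re • u + (q * (starRingEnd ℂ) u).im • (Complex.I * u))
        rw [smul_zero, smul_zero, add_zero, zero_add]
        exact hdec q
    conv_lhs => rw [e]
    rw [hd1, hd2, map_add, map_add, map_add, map_smul, map_smul, map_smul, map_smul]
    simp only [smul_eq_mul]
  have eu : ∀ c : ℝ, ((c : ℂ) * (Complex.I * u)) * (starRingEnd ℂ) u = (c : ℂ) * Complex.I := by
    intro c
    rw [mul_assoc, mul_assoc, mul_comm u, huu, mul_one]
  rw [hDD, hA, eu] at hB hC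
  have m1 : ((ex (T.τ x) + (t : ℂ) * (-ex (T.τ x))) * (starRingEnd ℂ) u).im = -((1 - t) * (a / l)) := by
    have : (ex (T.τ x) + (t : ℂ) * (-ex (T.τ x))) * (starRingEnd ℂ) u
        = ((1 - t : ℝ) : ℂ) * (ex (T.τ x) * (starRingEnd ℂ) u) := by
      push_cast
      ring
    rw [this, Complex.im_ofReal_mul, ix]
    ring
  have m2 : ((-ex (T.τ x)) * (starRingEnd ℂ) u).im = a / l := by
    rw [neg_mul, Complex.neg_im, ix, neg_neg]
  have m3 : (((t : ℂ) * ex (T.τ y)) * (starRingEnd ℂ) u).im = t * (b / l) := by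
    rw [mul_assoc, Complex.im_ofReal_mul, iy]
  rw [m1, m2] at hB
  rw [m3, iy] at hC
  simp only [Complex.re_ofReal_mul, Complex.im_ofReal_mul, Complex.I_re, Complex.I_im, mul_zero, mul_one,
    zero_mul, zero_add] at hB hC
  have k1 : -((1 - t) * l * d1) + d2 = 0 := by
    have : a * (-((1 - t) * l * d1) + d2) = 0 := by
      have h1 : a * (-((1 - t) * l * d1) + d2) = l * l * (-((1 - t) * (a / l)) * d1 + a / l / l * d2) := by
        field_simp
      rw [h1, hB, mul_zero]
    exact (mul_eq_zero.1 this).resolve_left ha0.ne'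
  have k2 : t * l * d1 + d2 = 0 := by
    have : b * (t * l * d1 + d2) = 0 := by
      have h1 : b * (t * l * d1 + d2) = l * l * (t * (b / l) * d1 + b / l / l * d2) := by
        field_simp
      rw [h1, hC, mul_zero]
    exact (mul_eq_zero.1 this).resolve_left hb0.ne'
  have k3 : d1 = 0 := by
    have : l * d1 = 0 := by linear_combination k2 - k1
    exact (mul_eq_zero.1 this).resolve_left hlen.ne'
  have k4 : d2 = 0 := by
    rw [k3] at k2
    linarith
  -- the differential of `|p|^2/2`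
  have hH : fderiv ℝ (fun w : ℂ × ℂ => ‖w.2‖ ^ 2 / 2) (stt T x y t)
      = (innerSL ℝ u).comp (ContinuousLinearMap.snd ℝ ℂ ℂ) := by
    have h1 : HasFDerivAt (fun w : ℂ × ℂ => ‖w.2‖ ^ 2 / 2)
        ((innerSL ℝ u).comp (ContinuousLinearMap.snd ℝ ℂ ℂ)) (stt T x y t) := by
      have h2 := (hasStrictFDerivAt_norm_sq (stt T x y t).2).hasFDerivAt.comp (stt T x y t)
        (hasFDerivAt_snd (𝕜 := ℝ) (E := ℂ) (F := ℂ) (p := stt T x y t))
      have h3 := h2.mul_const (1 / 2 : ℝ)
      have h4 : (1 / 2 : ℝ) • ((2 • innerSL ℝ (stt T x y t).2 : ℂ →L[ℝ] ℝ).comp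
          (ContinuousLinearMap.snd ℝ ℂ ℂ)) = (innerSL ℝ u).comp (ContinuousLinearMap.snd ℝ ℂ ℂ) := by
        rw [hz]
        ext w
        · simp
        · simp
          ring
      rw [h4] at h3
      refine h3.congr_of_eventuallyEq (Filter.Eventually.of_forall fun w => ?_)
      show ‖w.2‖ ^ 2 / 2 = ‖w.2‖ ^ 2 * (1 / 2)
      ring
    exact h1.fderiv
  unfold Regular at hr
  rw [hH, ← hDd, LinearIndependent.pair_iff] at hr
  have h1 := hr 1 (-(D (0, u))) (by
    refine ContinuousLinearMap.ext fun w => ?_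
    obtain ⟨p, q⟩ := w
    show (1 : ℝ) * D (p, q) + (-(D (0, u))) * inner ℝ u q = 0
    have hin : inner ℝ u q = (q * (starRingEnd ℂ) u).re := by
      rw [Complex.inner, mul_comm]
    rw [hDD, hA, k3, k4, hin]
    ring)
  exact one_ne_zero h1.1

end Pool.Agent.H1.BR
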