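import Pool.Agent.H1.BR.Jac
import Pool.Agent.H1.BR.Ker
import Pool.Agent.H1.BR.Vr2
import Pool.Agent.H1.BR.Rgl
import Pool.Agent.H1.BR.Lo2
import Pool.Agent.H1.BR.Phi

/-
Assembly (by helper1).
-/

set_option autoImplicit false
open Set Filter Topology Pool.Agent.H46.BL

namespace Pool.Agent.H1.BR

variable {T : Table} {F : ℂ → ℂ → ℝ} {p q : ℕ}

theorem f2_per (x y : ℝ) : F2 T F (x + T.L) (y + T.L) = F2 T F x y := by
  unfold F2
  have h1 : (fun y => Fh T F (x + T.L) (y + T.L)) = fun y => Fh T F x y := by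
    funext y; exact fh_per x y
  rw [← deriv_comp_add_const (fun y => Fh T F (x + T.L) y) T.L y, h1]

theorem shiftL_nat (p : ℕ) (x y : ℝ) : l12 T (x + p * T.L) (y + p * T.L) = l12 T x y ∧
    l11 T (x + p * T.L) (y + p * T.L) = l11 T x y ∧ l22 T (x + p * T.L) (y + p * T.L) = l22 T x y ∧
    F2 T F (x + p * T.L) (y + p * T.L) = F2 T F x y := by
  induction p with
  | zero => simp
  | succ n ih =>
    have e : ∀ z : ℝ, z + ((n + 1 : ℕ) : ℝ) * T.L = (z + n * T.L) + T.L := by
      intro z; push_cast; ring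
    rw [e x, e y]
    obtain ⟨-, -, -, -, -, a1, a2, a3, -⟩ := shiftL (T := T) (x + n * T.L) (y + n * T.L)
    rw [a1, a2, a3, f2_per]
    exact ih

theorem nodal (hF : T.Integral F) (hp : 0 < p) (hpq : p < q) {x : ℕ → ℝ} (hx : Longest T p q x)
    (hne : ∃ i, F1 T F (x i) (x (i + 1)) ≠ 0 ∨ F2 T F (x i) (x (i + 1)) ≠ 0) :
    ∀ i, F2 T F (x i) (x (i + 1)) ≠ 0 := by
  obtain ⟨htw, hel⟩ := nde hp hpq hx
  have hper := hx.1.per
  have hst : ∀ i, x (i + 1 + q) = x (i + 1) + p * T.L := fun i => hper (i + 1)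
  have e1 : ∀ i, i + q + 1 = i + 1 + q := fun i => by ring
  have key := nodeless q (by omega) (fun i => l11 T (x i) (x (i + 1))) (fun i => l22 T (x i) (x (i + 1)))
    (fun i => l12 T (x i) (x (i + 1))) (fun i => F2 T F (x i) (x (i + 1)) / l12 T (x i) (x (i + 1)))
    (fun i => by
      simp only [e1, hper, hst]
      exact (shiftL_nat (F := F) p _ _).2.1)
    (fun i => by
      simp only [e1, hper, hst]
      exact (shiftL_nat (F := F) p _ _).2.2.1)
    (fun i => by
      simp only [e1, hper, hst]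
      exact (shiftL_nat (F := F) p _ _).1)
    (fun i => by
      simp only [e1, hper, hst]
      rw [(shiftL_nat (F := F) p _ _).1, (shiftL_nat (F := F) p _ _).2.2.2])
    (fun i => l12_pos (htw i))
    (fun ξ hξ => var2 hp hpq hx ξ hξ)
    (fun i => jac hF (htw i) (htw (i + 1)) (htw (i + 2)) (hel i) (hel (i + 1)))
    (by
      obtain ⟨i, hi⟩ := hne
      rcases hi with hi | hi
      · refine ⟨i + 1, ?_⟩
        have := jac1 hF (htw i) (htw (i + 1)) (hel i)
        intro h0
        apply hi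
        rw [this]
        have h0' : F2 T F (x (i + 1)) (x (i + 1 + 1)) / l12 T (x (i + 1)) (x (i + 1 + 1)) = 0 := h0
        rw [h0', mul_zero]
      · exact ⟨i, div_ne_zero hi (l12_pos (htw i)).ne'⟩)
  intro i h0
  apply key i
  simp only [h0, zero_div]

theorem all_longest (hF : T.Integral F) (hp : 0 < p) (hpq : p < q)
    (hreg : ∀ x, Longest T p q x → ∃ i, ∃ t ∈ Ioo (0 : ℝ) 1, Regular F (stt T (x i) (x (i + 1)) t)) (s : ℝ) :
    ∃ x, Longest T p q x ∧ x 0 = s := by
  have hq : 0 < q := by omega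
  have hF2 : ∀ x, Longest T p q x → F2 T F (x 0) (x 1) ≠ 0 := by
    intro x hx
    obtain ⟨i, t, ht, hr⟩ := hreg x hx
    exact nodal hF hp hpq hx ⟨i, regular_chord hF ((nde hp hpq hx).1 i) ht hr⟩ 0
  let S : Set ℝ := {s | ∃ x, Longest T p q x ∧ x 0 = s}
  have hopen : IsOpen S := by
    rw [Metric.isOpen_iff]
    rintro s ⟨x, hx, rfl⟩
    obtain ⟨ε, hε, h⟩ := loc2 hF hp hpq hx (hF2 x hx)
    refine ⟨ε, hε, fun ξ hξ => ?_⟩
    rw [Metric.mem_ball, Real.dist_eq] at hξ
    exact h ξ hξ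
  have hclosed : IsClosed S := by
    rw [← isSeqClosed_iff_isClosed]
    intro u s hu hs
    choose x hx hx0 using hu
    have := longest_limit hq (x := x) hx (ξ₀ := s) (by simpa only [hx0] using hs)
    exact this
  have hne : S.Nonempty := by
    obtain ⟨x, hx⟩ := longest_exists (T := T) (p := p) hq hpq.le
    exact ⟨x 0, x, hx, rfl⟩
  have huniv : S = univ := IsClopen.eq_univ ⟨hclosed, hopen⟩ hne
  have : s ∈ S := by rw [huniv]; exact mem_univ s
  exact this

/-- If the first integral is regular along the longest `(p,q)`-polygons, they form an invariant circle. -/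
theorem main_circle (hF : T.Integral F) (hp : 0 < p) (hpq : p < q)
    (hreg : ∀ x, Longest T p q x → ∃ i, ∃ t ∈ Ioo (0 : ℝ) 1, Regular F (stt T (x i) (x (i + 1)) t)) :
    (∃ φ : ℝ → ℝ, Circ T φ ∧ ∀ s, φ^[q] s = s + p * T.L) ∧ ∀ s, 0 < deriv T.τ s :=
  circle_of_longest hp hpq (all_longest hF hp hpq hreg)

end Pool.Agent.H1.BR
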