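import Pool.Agent.H1.BR.Sup
import Pool.Agent.H1.BR.Cpt

/-
ROW Nde.  A longest (p,q)-polygon, 0<p<q, is a billiard trajectory with non-flat chords.
Call a vertex i+1 (neighbours a = x i, b = x (i+2), a <= b <= a + 2L; x (i+1) in J = [max(a, b-L), min(b, a+L)]); changing x (i+1) inside J (and x (i+1+kq) accordingly, q >= 2; the polygon y j = x j + (t - x (i+1)) for j = i+1 mod q) keeps a Poly,
 so x (i+1) maximises phi(t) = len a t + len t b over J.
 (1) If x (i+1) is an end point of J then phi(x (i+1)) = len a b (len_per) so phi = len a b is constant on J (triangle inequality phi >= len a b; len a b = |g b - g a|): every g t, t in J, lies on the segment [g a, g b].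
     Then either J is a point (a = b, or b = a + 2L), or tau is constant on J. [If b - a <= L: J = [a,b]; the points g t, a<=t<=b lie on a segment from g a to g b, so hx a t * ... : if tau a < tau b (tau b <= tau a + 2pi): choose t in (a,b) with
     Tw a t and Tw t b; the chord a-b and a point t strictly off the line: e.g. hx(a, .) : sup_lt type argument: or: equality in the triangle inequality |g t - g a| + |g b - g t| = |g b - g a| forces uc a t = uc t b, while the direction angle of the chord a-t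
     is < tau t < the direction angle of the chord t-b mod 2pi: precisely l2 a t < 1 so the unit vector uc a t is not the tangent at t and lies on the right side of it (hy a t > 0), uc t b on the left side (hx t b > 0), so uc a t /= uc t b.]
     So in case (1): tau b = tau a (flat forward, includes a = b) if b - a <= L, or tau b = tau a + 4 pi (flat backward) if b - a >= L.
 (2) otherwise x (i+1) is interior to J, a < x(i+1) < b and x(i+1) < a+L, b < x(i+1) + L, and phi' = 0: l2 a (x (i+1)) + l1 (x (i+1)) b = 0 (IsLocalMax).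
 (3) If tau (x (i+2)) = tau (x i) (flat forward at i+1) then also tau (x (i+3)) = tau (x (i+1)): suppose not flat forward at i+2; it is not flat backward (tau x(i+3) <= tau x(i+2) + 2pi = tau x(i+1)+2pi < tau x(i+1) + 4 pi). So (2) holds for i+2:
     x(i+1) < x(i+2), tau equal, so l2 (x (i+1)) (x (i+2)) = 1 (l_flat), so l1 (x (i+2)) (x (i+3)) = -1, so not Tw (l1_abs), tau x(i+3) = tau x(i+2) or = tau x (i+2) + 2 pi; in the second case l1 = +1 (l_flat'); so tau x(i+3) = tau x(i+2) = tau x(i+1).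
     Hence flat forward at all later vertices: tau constant on all x j, contradiction with tau (x (j+q)) = tau (x j) + 2 pi p.
     Similarly flat backward at i+1 implies flat backward at i+2, so tau x(j+2) = tau x(j) + 4pi for all large j, with tau x(j+1) <= tau x(j) + 2pi: tau x(j+1) = tau x(j) + 2 pi for all large j, so 2 pi q = 2 pi p, contradiction with p<q.
 (4) So (2) at every vertex. If a chord (x i, x (i+1)) is not Tw then tau x(i+1) = tau x i (l1 = -1, l2 = 1 by l_flat since x i < x (i+1)), el gives l1 (x (i+1)) (x (i+2)) = -1, hence tau x(i+2) = tau x(i+1): flat forward at i+1 for all i: contradiction as in (3);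
     or tau x (i+1) = tau x i + 2pi: similarly backward.   (For i = 0 use that everything is q-periodic: index q.)
 pin_el: the same computation (2) for a Pinned polygon whose chords are Tw, at the vertices 1..q-1.
-/

set_option autoImplicit false
open Set Filter Topology Pool.Agent.H46.BL

namespace Pool.Agent.H1.BR

variable {T : Table} {p q : ℕ}

private theorem Nde_perk {x : ℕ → ℝ} (h : Poly T p q x) (k j : ℕ) :
    x (j + k * q) = x j + k * (p * T.L) := by
  induction k with
  | zero => simp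
  | succ k ih =>
    have e : j + (k + 1) * q = (j + k * q) + q := by ring
    rw [e, h.per, ih]
    push_cast
    ring

private theorem Nde_var {x : ℕ → ℝ} (hP : Poly T p q x) (i : ℕ) (hi : i + 1 < q) {t : ℝ}
    (h1 : x i ≤ t) (h2 : t ≤ x i + T.L) (h3 : t ≤ x (i + 2)) (h4 : x (i + 2) ≤ t + T.L) :
    ∃ y : ℕ → ℝ, Poly T p q y ∧ y 0 = x 0 ∧
      peri T q y = peri T q x + ((len T (x i) t + len T t (x (i + 2))) -
        (len T (x i) (x (i + 1)) + len T (x (i + 1)) (x (i + 2)))) := by
  obtain ⟨y, hy⟩ : ∃ y : ℕ → ℝ, ∀ j, y j = if j % q = i + 1 then x j + (t - x (i + 1)) else x j :=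
    ⟨_, fun _ => rfl⟩
  have hyE : ∀ j, j % q = i + 1 → y j = x j + (t - x (i + 1)) := fun j hj => by rw [hy, if_pos hj]
  have hyN : ∀ j, j % q ≠ i + 1 → y j = x j := fun j hj => by rw [hy, if_neg hj]
  have hk := Nde_perk hP
  have key : ∀ j, j % q = i + 1 → ∃ k : ℕ, j = i + 1 + k * q := fun j hj => ⟨j / q, by
    rw [← hj]
    exact (Nat.mod_add_div' j q).symm⟩
  have hi2 : (i + 2) % q ≠ i + 1 := by
    rcases Nat.lt_or_ge (i + 2) q with h | h
    · rw [Nat.mod_eq_of_lt h]
      omega
    · have : i + 2 = q := by omega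
      rw [this, Nat.mod_self]
      omega
  have hi1 : (i + 1) % q = i + 1 := Nat.mod_eq_of_lt hi
  have hi0 : i % q ≠ i + 1 := by
    rw [Nat.mod_eq_of_lt (by omega)]
    omega
  have both : ∀ j, y j ≤ y (j + 1) ∧ y (j + 1) ≤ y j + T.L := by
    intro j
    by_cases hj : j % q = i + 1
    · obtain ⟨k, hjk⟩ := key j hj
      have e1 : j + 1 = i + 2 + k * q := by omega
      have e2 : (j + 1) % q ≠ i + 1 := by
        rw [e1, Nat.add_mul_mod_self_right]
        exact hi2
      have e3 : y j = t + k * (p * T.L) := by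
        rw [hyE j hj, hjk, hk k (i + 1)]
        ring
      have e4 : y (j + 1) = x (i + 2) + k * (p * T.L) := by
        rw [hyN _ e2, e1, hk k (i + 2)]
      rw [e3, e4]
      constructor <;> linarith
    · by_cases hj' : (j + 1) % q = i + 1
      · obtain ⟨k, hjk⟩ := key (j + 1) hj'
        have e1 : j = i + k * q := by omega
        have e3 : y (j + 1) = t + k * (p * T.L) := by
          rw [hyE _ hj', hjk, hk k (i + 1)]
          ring
        have e4 : y j = x i + k * (p * T.L) := by
          rw [hyN _ hj, e1, hk k i]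
        rw [e3, e4]
        constructor <;> linarith
      · rw [hyN _ hj, hyN _ hj']
        exact ⟨hP.lo j, hP.hi j⟩
  refine ⟨y, ⟨fun j => (both j).1, fun j => (both j).2, fun j => ?_⟩, ?_, ?_⟩
  · by_cases hj : j % q = i + 1
    · have e : (j + q) % q = i + 1 := by rw [Nat.add_mod_right, hj]
      rw [hyE _ hj, hyE _ e, hP.per]
      ring
    · have e : (j + q) % q ≠ i + 1 := by rwa [Nat.add_mod_right]
      rw [hyN _ hj, hyN _ e, hP.per]
  · rw [hyN 0]
    rw [Nat.zero_mod]
    omega
  · have s1 : peri T q y - peri T q x = ∑ j ∈ Finset.range q,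
        (len T (y j) (y (j + 1)) - len T (x j) (x (j + 1))) := by
      unfold peri
      rw [Finset.sum_sub_distrib]
    have s2 : ∑ j ∈ ({i, i + 1} : Finset ℕ), (len T (y j) (y (j + 1)) - len T (x j) (x (j + 1))) =
        ∑ j ∈ Finset.range q, (len T (y j) (y (j + 1)) - len T (x j) (x (j + 1))) := by
      refine Finset.sum_subset ?_ ?_
      · intro j hj
        rw [Finset.mem_insert, Finset.mem_singleton] at hj
        rw [Finset.mem_range]
        omega
      · intro j hj hj2
        rw [Finset.mem_range] at hj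
        rw [Finset.mem_insert, Finset.mem_singleton] at hj2
        have e1 : j % q ≠ i + 1 := by
          rw [Nat.mod_eq_of_lt hj]
          omega
        have e2 : (j + 1) % q ≠ i + 1 := by
          rcases Nat.lt_or_ge (j + 1) q with h | h
          · rw [Nat.mod_eq_of_lt h]
            omega
          · have : j + 1 = q := by omega
            rw [this, Nat.mod_self]
            omega
        rw [hyN _ e1, hyN _ e2, sub_self]
    have s3 : ∑ j ∈ ({i, i + 1} : Finset ℕ), (len T (y j) (y (j + 1)) - len T (x j) (x (j + 1))) =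
        (len T (y i) (y (i + 1)) - len T (x i) (x (i + 1))) +
        (len T (y (i + 1)) (y (i + 1 + 1)) - len T (x (i + 1)) (x (i + 1 + 1))) :=
      Finset.sum_pair (by omega)
    have e0 : y i = x i := hyN _ hi0
    have e1 : y (i + 1) = t := by
      rw [hyE _ hi1]
      ring
    have e2 : y (i + 1 + 1) = x (i + 2) := hyN _ hi2
    have e3 : x (i + 1 + 1) = x (i + 2) := rfl
    rw [e0, e1, e2, e3] at s3
    linarith

private theorem Nde_pin {ξ : ℝ} {x : ℕ → ℝ} (hx : Pinned T p q ξ x) (i : ℕ)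
    (hi1 : i + 1 < q) {t : ℝ} (h1 : x i ≤ t) (h2 : t ≤ x i + T.L) (h3 : t ≤ x (i + 2))
    (h4 : x (i + 2) ≤ t + T.L) :
    len T (x i) t + len T t (x (i + 2)) ≤ len T (x i) (x (i + 1)) + len T (x (i + 1)) (x (i + 2)) := by
  obtain ⟨y, y1, y2, y3⟩ := Nde_var hx.1 i hi1 h1 h2 h3 h4
  have := hx.2.2 y y1 (by rw [y2, hx.2.1])
  linarith

private theorem Nde_opt (hq : 1 < q) {x : ℕ → ℝ} (hx : Longest T p q x) (i : ℕ) {t : ℝ} (h1 : x i ≤ t)
    (h2 : t ≤ x i + T.L) (h3 : t ≤ x (i + 2)) (h4 : x (i + 2) ≤ t + T.L) :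
    len T (x i) t + len T t (x (i + 2)) ≤ len T (x i) (x (i + 1)) + len T (x (i + 1)) (x (i + 2)) := by
  have hx' := longest_shift hx i
  have e0 : x (0 + i) = x i := by rw [Nat.zero_add]
  have e1 : x (0 + 1 + i) = x (i + 1) := by rw [Nat.zero_add, Nat.add_comm]
  have e2 : x (0 + 2 + i) = x (i + 2) := by rw [Nat.zero_add, Nat.add_comm]
  obtain ⟨y, y1, y2, y3⟩ := Nde_var (t := t) hx'.1 0 (by omega) (by show x (0 + i) ≤ t; rw [e0]; exact h1)
    (by show t ≤ x (0 + i) + T.L; rw [e0]; exact h2) (by show t ≤ x (0 + 2 + i); rw [e2]; exact h3)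
    (by show x (0 + 2 + i) ≤ t + T.L; rw [e2]; exact h4)
  have h := hx'.2 y y1
  have y4 : peri T q y = peri T q (fun j => x (j + i)) + ((len T (x (0 + i)) t + len T t (x (0 + 2 + i))) -
        (len T (x (0 + i)) (x (0 + 1 + i)) + len T (x (0 + 1 + i)) (x (0 + 2 + i)))) := y3
  rw [e0, e1, e2] at y4
  linarith

private theorem Nde_tri {a t b : ℝ} (h1 : Tw T a t) (h2 : Tw T t b) :
    len T a b < len T a t + len T t b := by
  by_contra hn
  push Not at hn
  have l1 := tw_lt h1
  have l2 := tw_lt h2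
  have p1 := hy_pos h1
  have p2 := hx_pos h2
  have q1 := len_pos l1.1 l1.2
  have q2 := len_pos l2.1 l2.2
  have e : (T.γ t - T.γ a) + (T.γ b - T.γ t) = T.γ b - T.γ a := by ring
  have hs : SameRay ℝ (T.γ t - T.γ a) (T.γ b - T.γ t) := by
    rw [sameRay_iff_norm_add, e]
    refine le_antisymm ?_ hn
    rw [← e]
    exact norm_add_le _ _
  have n1 : T.γ t - T.γ a ≠ 0 := norm_pos_iff.1 q1
  obtain ⟨c, hc, hc2⟩ := hs.exists_nonneg_left n1
  unfold hy at p1
  unfold hx at p2
  rw [← hc2, Complex.real_smul, mul_assoc, Complex.im_ofReal_mul] at p2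
  nlinarith

private theorem Nde_turn (s : ℝ) (k : ℕ) : T.τ (s + k * T.L) = T.τ s + 2 * Real.pi * k := by
  induction k with
  | zero => simp
  | succ k ih =>
    have e : s + ((k + 1 : ℕ) : ℝ) * T.L = (s + k * T.L) + T.L := by
      push_cast
      ring
    rw [e, T.turning, ih]
    push_cast
    ring

private theorem Nde_ivt {a b : ℝ} (hab : a ≤ b) (h : T.τ a < T.τ b) :
    ∃ t, a < t ∧ t < b ∧ T.τ t = (T.τ a + T.τ b) / 2 := by
  have hc : Continuous T.τ := T.smooth.continuous
  obtain ⟨t, ht, ht2⟩ := intermediate_value_Icc hab hc.continuousOn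
    (show (T.τ a + T.τ b) / 2 ∈ Icc (T.τ a) (T.τ b) from ⟨by linarith, by linarith⟩)
  refine ⟨t, lt_of_le_of_ne ht.1 ?_, lt_of_le_of_ne ht.2 ?_, ht2⟩
  · rintro rfl
    linarith
  · rintro rfl
    linarith

/-- the alternative at a vertex -/
private theorem Nde_alt (hq : 1 < q) {x : ℕ → ℝ} (hx : Longest T p q x) (i : ℕ) :
    T.τ (x (i + 2)) = T.τ (x i) ∨ T.τ (x (i + 2)) = T.τ (x i) + 4 * Real.pi ∨
    (x i < x (i + 1) ∧ x (i + 1) < x (i + 2) ∧ x (i + 1) < x i + T.L ∧ x (i + 2) < x (i + 1) + T.L) := by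
  have hL := T.Lpos
  have a1 := hx.1.lo i
  have a2 := hx.1.hi i
  have a3 : x (i + 1) ≤ x (i + 2) := hx.1.lo (i + 1)
  have a4 : x (i + 2) ≤ x (i + 1) + T.L := hx.1.hi (i + 1)
  by_cases hall : x i < x (i + 1) ∧ x (i + 1) < x (i + 2) ∧ x (i + 1) < x i + T.L ∧
      x (i + 2) < x (i + 1) + T.L
  · exact Or.inr (Or.inr hall)
  have hopt : ∀ t, x i ≤ t → t ≤ x i + T.L → t ≤ x (i + 2) → x (i + 2) ≤ t + T.L →
      len T (x i) t + len T t (x (i + 2)) ≤ len T (x i) (x (i + 2)) := by
    intro t h1 h2 h3 h4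
    refine (Nde_opt hq hx i h1 h2 h3 h4).trans ?_
    have z : ∀ s, len T s s = 0 := fun s => by
      unfold len
      rw [sub_self, norm_zero]
    have c : x i = x (i + 1) ∨ x (i + 1) = x (i + 2) ∨ x (i + 1) = x i + T.L ∨
        x (i + 2) = x (i + 1) + T.L := by
      by_contra hn
      push Not at hn
      exact hall ⟨lt_of_le_of_ne a1 hn.1, lt_of_le_of_ne a3 hn.2.1, lt_of_le_of_ne a2 hn.2.2.1,
        lt_of_le_of_ne a4 hn.2.2.2⟩
    rcases c with c | c | c | c
    · rw [← c, z, zero_add]
    · rw [c, z, add_zero]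
    · rw [c, (len_per _ _).1, z, zero_add, (len_per _ _).2]
    · rw [c, (len_per _ _).1, (len_per _ _).1, z, add_zero]
  rcases le_total (x (i + 2)) (x i + T.L) with hb | hb
  · left
    by_contra hne
    have m1 : T.τ (x i) < T.τ (x (i + 2)) := lt_of_le_of_ne (tau_mono (a1.trans a3)) (Ne.symm hne)
    have m2 : T.τ (x (i + 2)) ≤ T.τ (x i) + 2 * Real.pi := by
      rw [← T.turning]
      exact tau_mono hb
    obtain ⟨t, t1, t2, t3⟩ := Nde_ivt (a1.trans a3) m1
    have hpi := Real.pi_pos
    have w1 : Tw T (x i) t := ⟨by linarith, by linarith⟩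
    have w2 : Tw T t (x (i + 2)) := ⟨by linarith, by linarith⟩
    have := Nde_tri w1 w2
    have := hopt t t1.le (by linarith) t2.le (by linarith)
    linarith
  · right
    left
    by_contra hne
    have e1 : T.τ (x i + T.L) = T.τ (x i) + 2 * Real.pi := T.turning _
    have e2 : T.τ (x (i + 2)) = T.τ (x (i + 2) - T.L) + 2 * Real.pi := by
      rw [← T.turning, sub_add_cancel]
    have m0 : x (i + 2) - T.L ≤ x i + T.L := by linarith
    have m1 := tau_mono (T := T) m0
    have m2 := tau_mono (T := T) hb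
    have m3 : T.τ (x (i + 2) - T.L) < T.τ (x i + T.L) := by
      refine lt_of_le_of_ne m1 fun h => hne ?_
      linarith
    obtain ⟨t, t1, t2, t3⟩ := Nde_ivt m0 m3
    have hpi := Real.pi_pos
    have w1 : Tw T (x i) t := ⟨by linarith, by linarith⟩
    have w2 : Tw T t (x (i + 2)) := ⟨by linarith, by linarith⟩
    have := Nde_tri w1 w2
    have := hopt t (by linarith) t2.le (by linarith) (by linarith)
    linarith

private theorem Nde_el {a m b : ℝ} (h1 : a < m) (h2 : m < b) (h3 : m < a + T.L) (h4 : b < m + T.L)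
    (hopt : ∀ t, a ≤ t → t ≤ a + T.L → t ≤ b → b ≤ t + T.L → len T a t + len T t b ≤ len T a m + len T m b) :
    l2 T a m + l1 T m b = 0 := by
  have d1 : HasDerivAt (fun t => len T a t + len T t b) (l2 T a m + l1 T m b) m :=
    (len_d2 h1 h3).add (len_d1 h2 h4)
  have hm : IsLocalMax (fun t => len T a t + len T t b) m := by
    have n1 : ∀ᶠ t in 𝓝 m, a < t := eventually_gt_nhds h1
    have n2 : ∀ᶠ t in 𝓝 m, t < b := eventually_lt_nhds h2
    have n3 : ∀ᶠ t in 𝓝 m, t < a + T.L := eventually_lt_nhds h3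
    have n4 : ∀ᶠ t in 𝓝 m, b - T.L < t := eventually_gt_nhds (by linarith)
    filter_upwards [n1, n2, n3, n4] with t k1 k2 k3 k4
    exact hopt t k1.le k3.le k2.le (by linarith)
  exact hm.hasDerivAt_eq_zero d1

/-- a chord that is contained in the boundary -/
private theorem Nde_ntw {a b : ℝ} (h : a ≤ b) (h' : b ≤ a + T.L) (hn : ¬ Tw T a b) :
    T.τ b = T.τ a ∨ T.τ b = T.τ a + 2 * Real.pi := by
  have m1 := tau_mono (T := T) h
  have m2 := tau_mono (T := T) h'
  rw [T.turning] at m2
  by_contra hc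
  push Not at hc
  exact hn ⟨lt_of_le_of_ne m1 (Ne.symm hc.1), lt_of_le_of_ne m2 hc.2⟩

private theorem Nde_prop {a m b : ℝ} (h1 : a < m) (h2 : m < b) (h3 : m < a + T.L) (h4 : b < m + T.L)
    (he : l2 T a m + l1 T m b = 0) :
    (T.τ m = T.τ a → T.τ b = T.τ m) ∧ (T.τ m = T.τ a + 2 * Real.pi → T.τ b = T.τ m + 2 * Real.pi) := by
  constructor
  · intro hf
    have k1 := (l_flat h1 hf).2
    have k2 : l1 T m b = -1 := by linarith
    have k3 : ¬ Tw T m b := fun hw => by
      have := (l1_abs h2 h4 hw).1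
      linarith
    rcases Nde_ntw h2.le h4.le k3 with h | h
    · exact h
    · have := (l_flat' h4 h).1
      linarith
  · intro hf
    have k1 := (l_flat' h3 hf).2
    have k2 : l1 T m b = 1 := by linarith
    have k3 : ¬ Tw T m b := fun hw => by
      have := (l1_abs h2 h4 hw).2
      linarith
    rcases Nde_ntw h2.le h4.le k3 with h | h
    · have := (l_flat h2 h).1
      linarith
    · exact h

private theorem Nde_noFF (hp : 0 < p) (hpq : p < q) {x : ℕ → ℝ} (hx : Longest T p q x) (i : ℕ) :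
    T.τ (x (i + 2)) ≠ T.τ (x i) := by
  intro h0
  have hpi := Real.pi_pos
  have hq : 1 < q := by omega
  have mo : ∀ j, T.τ (x j) ≤ T.τ (x (j + 1)) := fun j => tau_mono (hx.1.lo j)
  have mp : ∀ j, T.τ (x (j + 1)) ≤ T.τ (x j) + 2 * Real.pi := fun j => by
    rw [← T.turning]
    exact tau_mono (hx.1.hi j)
  have step : ∀ k, T.τ (x (i + k + 2)) = T.τ (x (i + k)) := by
    intro k
    induction k with
    | zero => exact h0
    | succ k ih =>
      have m1 := mo (i + k)
      have m2 := mo (i + k + 1)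
      have m3 := mp (i + k + 2)
      have ih' : T.τ (x (i + k + 1 + 1)) = T.τ (x (i + k)) := ih
      have e1 : T.τ (x (i + k + 1 + 1)) = T.τ (x (i + k + 1)) := by linarith
      show T.τ (x (i + k + 1 + 2)) = T.τ (x (i + k + 1))
      have m3' : T.τ (x (i + k + 1 + 2)) ≤ T.τ (x (i + k + 1 + 1)) + 2 * Real.pi := m3
      rcases Nde_alt hq hx (i + k + 1) with h | h | ⟨g1, g2, g3, g4⟩
      · exact h
      · linarith
      · have he := Nde_el g1 g2 g3 g4 fun t t1 t2 t3 t4 => Nde_opt hq hx (i + k + 1) t1 t2 t3 t4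
        have := (Nde_prop g1 g2 g3 g4 he).1 e1
        rw [this, e1]
  have one : ∀ k, T.τ (x (i + k + 1)) = T.τ (x (i + k)) := by
    intro k
    have m1 := mo (i + k)
    have m2 := mo (i + k + 1)
    have m3 : T.τ (x (i + k + 1 + 1)) = T.τ (x (i + k)) := step k
    linarith
  have all : ∀ k, T.τ (x (i + k)) = T.τ (x i) := by
    intro k
    induction k with
    | zero => rfl
    | succ k ih => exact (one k).trans ih
  have h1 := all q
  rw [hx.1.per, Nde_turn] at h1
  have : (0 : ℝ) < p := by exact_mod_cast hp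
  have : 0 < 2 * Real.pi * p := by positivity
  linarith

private theorem Nde_noFB (hp : 0 < p) (hpq : p < q) {x : ℕ → ℝ} (hx : Longest T p q x) (i : ℕ) :
    T.τ (x (i + 2)) ≠ T.τ (x i) + 4 * Real.pi := by
  intro h0
  have hpi := Real.pi_pos
  have hq : 1 < q := by omega
  have mo : ∀ j, T.τ (x j) ≤ T.τ (x (j + 1)) := fun j => tau_mono (hx.1.lo j)
  have mp : ∀ j, T.τ (x (j + 1)) ≤ T.τ (x j) + 2 * Real.pi := fun j => by
    rw [← T.turning]
    exact tau_mono (hx.1.hi j)
  have step : ∀ k, T.τ (x (i + k + 2)) = T.τ (x (i + k)) + 4 * Real.pi := by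
    intro k
    induction k with
    | zero => exact h0
    | succ k ih =>
      have m1 := mp (i + k)
      have m2 := mp (i + k + 1)
      have m3 := mo (i + k + 2)
      have ih' : T.τ (x (i + k + 1 + 1)) = T.τ (x (i + k)) + 4 * Real.pi := ih
      have e1 : T.τ (x (i + k + 1 + 1)) = T.τ (x (i + k + 1)) + 2 * Real.pi := by linarith
      show T.τ (x (i + k + 1 + 2)) = T.τ (x (i + k + 1)) + 4 * Real.pi
      have m3' : T.τ (x (i + k + 1 + 1)) ≤ T.τ (x (i + k + 1 + 2)) := m3
      rcases Nde_alt hq hx (i + k + 1) with h | h | ⟨g1, g2, g3, g4⟩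
      · linarith
      · exact h
      · have he := Nde_el g1 g2 g3 g4 fun t t1 t2 t3 t4 => Nde_opt hq hx (i + k + 1) t1 t2 t3 t4
        have := (Nde_prop g1 g2 g3 g4 he).2 e1
        linarith
  have one : ∀ k, T.τ (x (i + k + 1)) = T.τ (x (i + k)) + 2 * Real.pi := by
    intro k
    have m1 := mp (i + k)
    have m2 := mp (i + k + 1)
    have m3 : T.τ (x (i + k + 1 + 1)) = T.τ (x (i + k)) + 4 * Real.pi := step k
    linarith
  have all : ∀ k : ℕ, T.τ (x (i + k)) = T.τ (x i) + 2 * Real.pi * k := by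
    intro k
    induction k with
    | zero => simp
    | succ k ih =>
      have := one k
      push_cast
      show T.τ (x (i + k + 1)) = _
      rw [this, ih]
      ring
  have h1 := all q
  rw [hx.1.per, Nde_turn] at h1
  have h2 : (p : ℝ) < q := by exact_mod_cast hpq
  have : 2 * Real.pi * p < 2 * Real.pi * q := by
    have : 0 < 2 * Real.pi := by positivity
    exact mul_lt_mul_of_pos_left h2 this
  linarith

theorem nde (hp : 0 < p) (hpq : p < q) {x : ℕ → ℝ} (hx : Longest T p q x) :
    (∀ i, Tw T (x i) (x (i + 1))) ∧ ∀ i, l2 T (x i) (x (i + 1)) + l1 T (x (i + 1)) (x (i + 2)) = 0 := by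
  have hq : 1 < q := by omega
  have hall : ∀ i, x i < x (i + 1) ∧ x (i + 1) < x (i + 2) ∧ x (i + 1) < x i + T.L ∧
      x (i + 2) < x (i + 1) + T.L := by
    intro i
    rcases Nde_alt hq hx i with h | h | h
    · exact absurd h (Nde_noFF hp hpq hx i)
    · exact absurd h (Nde_noFB hp hpq hx i)
    · exact h
  have hel : ∀ i, l2 T (x i) (x (i + 1)) + l1 T (x (i + 1)) (x (i + 2)) = 0 := by
    intro i
    obtain ⟨g1, g2, g3, g4⟩ := hall i
    exact Nde_el g1 g2 g3 g4 fun t t1 t2 t3 t4 => Nde_opt hq hx i t1 t2 t3 t4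
  refine ⟨fun i => ?_, hel⟩
  by_contra hn
  obtain ⟨g1, g2, g3, g4⟩ := hall i
  have hpr := Nde_prop g1 g2 g3 g4 (hel i)
  rcases Nde_ntw g1.le g3.le hn with h | h
  · exact Nde_noFF hp hpq hx i ((hpr.1 h).trans h)
  · refine Nde_noFB hp hpq hx i ?_
    rw [hpr.2 h, h]
    ring

theorem pin_el (hp : 0 < p) (hpq : p < q) {ξ : ℝ} {x : ℕ → ℝ} (hx : Pinned T p q ξ x)
    (ht : ∀ i, Tw T (x i) (x (i + 1))) (i : ℕ) (hi : i + 1 < q) :
    l2 T (x i) (x (i + 1)) + l1 T (x (i + 1)) (x (i + 2)) = 0 := by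
  have a := tw_lt (ht i)
  have b := tw_lt (ht (i + 1))
  exact Nde_el a.1 b.1 a.2 b.2 fun t t1 t2 t3 t4 => Nde_pin hx i hi t1 t2 t3 t4

end Pool.Agent.H1.BR
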