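import Pool.Agent.H1.BR.Nde

/-
ROW Two.  A longest (p,q)-polygon with 3p <= q has no double normal among its chords.
Suppose l1 (x i) (x (i+1)) = 0 = l2 (x i) (x (i+1)).  Put a = x i, b = x (i+1).  For the reversed chord: Tw b (a + L) (turning), l1 b (a+L) = l2 a b = 0 and l2 b (a+L) = l1 a b = 0 (definitions: g (a+L) = g a, ex (tau (a+L)) = ex (tau a); len symmetric).
el (nde): l2 a b + l1 b (x (i+2)) = 0, so l1 b (x (i+2)) = 0 = l1 b (a+L), Tw both: by l1_lt (strict monotonicity in the second variable) x (i+2) = a + L.  So the chord (x (i+1), x (i+2)) = (b, a+L) again has l1 = l2 = 0.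
By induction x (i + 2k) = x i + k L for all k.  k = q: x (i + 2 q) = x i + 2 p L (Poly.per twice), so 2p = q (L>0): contradiction to 0 < p, 3p <= q.
-/

set_option autoImplicit false
open Set Filter Topology Pool.Agent.H46.BL

namespace Pool.Agent.H1.BR

variable {T : Table} {p q : ℕ}

private theorem Two_ex (a : ℝ) : ex (-(a + 2 * Real.pi)) = ex (-a) := by
  have h := ex_two_pi (-(a + 2 * Real.pi))
  rw [← h]
  congr 1
  ring

private theorem Two_rev (a b : ℝ) : l1 T b (a + T.L) = l2 T a b ∧ l2 T b (a + T.L) = l1 T a b := by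
  have e0 : len T b (a + T.L) = len T a b := by
    unfold len
    rw [T.periodic, norm_sub_rev]
  constructor
  · unfold l1 l2
    rw [e0, T.periodic, ← Complex.neg_re]
    congr 2
    ring
  · unfold l1 l2
    rw [e0, T.periodic, T.turning, Two_ex, ← Complex.neg_re]
    congr 2
    ring

theorem no_double (hp : 0 < p) (hpq : 3 * p ≤ q) {x : ℕ → ℝ} (hx : Longest T p q x) (i : ℕ) :
    ¬ (l1 T (x i) (x (i + 1)) = 0 ∧ l2 T (x i) (x (i + 1)) = 0) := by
  intro h0
  have hL := T.Lpos
  obtain ⟨ht, hel⟩ := nde hp (by omega) hx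
  have step : ∀ j, (l1 T (x j) (x (j + 1)) = 0 ∧ l2 T (x j) (x (j + 1)) = 0) →
      x (j + 2) = x j + T.L ∧
        (l1 T (x (j + 1)) (x (j + 2)) = 0 ∧ l2 T (x (j + 1)) (x (j + 2)) = 0) := by
    intro j hj
    have e1 := hel j
    rw [hj.2, zero_add] at e1
    obtain ⟨r1, r2⟩ := Two_rev (T := T) (x j) (x (j + 1))
    rw [hj.2] at r1
    rw [hj.1] at r2
    have t1 := ht j
    have t2 : Tw T (x (j + 1)) (x (j + 2)) := ht (j + 1)
    have t3 : Tw T (x (j + 1)) (x j + T.L) := by
      constructor
      · rw [T.turning]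
        exact t1.2
      · rw [T.turning]
        have := t1.1
        linarith
    have e2 : x (j + 2) = x j + T.L := by
      rcases lt_trichotomy (x (j + 2)) (x j + T.L) with h | h | h
      · have := l1_lt h t2 t3
        linarith
      · exact h
      · have := l1_lt h t3 t2
        linarith
    refine ⟨e2, e1, ?_⟩
    rw [e2]
    exact r2
  have all : ∀ k, l1 T (x (i + k)) (x (i + k + 1)) = 0 ∧ l2 T (x (i + k)) (x (i + k + 1)) = 0 := by
    intro k
    induction k with
    | zero => exact h0
    | succ k ih => exact (step (i + k) ih).2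
  have two : ∀ k : ℕ, x (i + 2 * k) = x i + k * T.L := by
    intro k
    induction k with
    | zero => simp
    | succ k ih =>
      have h1 := (step (i + 2 * k) (all (2 * k))).1
      have h2 : i + 2 * (k + 1) = i + 2 * k + 2 := by ring
      rw [h2, h1, ih]
      push_cast
      ring
  have h1 := two q
  have h2 : i + 2 * q = i + q + q := by ring
  rw [h2, hx.1.per, hx.1.per] at h1
  have h3 : (2 * p : ℝ) * T.L = q * T.L := by linarith
  have h4 : (2 * p : ℝ) = q := mul_right_cancel₀ hL.ne' h3
  have h5 : 2 * p = q := by exact_mod_cast h4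
  omega

end Pool.Agent.H1.BR
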